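import Pool.Agent.helper81.MG.Defs

set_option autoImplicit false

/-! Row mg:G01. -/

namespace MG

open MX

open scoped MatrixGroups

/-- G01 -/
theorem goodS_iso {S : (L : Type) → [Group L] → Prop} (hS : SInv S) {G : Type} [Group G]
    (hG : GoodS S G) {H : Type} [Group H] (e : G ≃* H) : GoodS S H := by
  induction hG generalizing H with
  | triv G h => exact GoodS.triv H e.symm.toEquiv.subsingleton
  | ext G N hN hq ih =>
    have hn : (N.map (e : G →* H)).Normal := Subgroup.Normal.map inferInstance (e : G →* H) e.surjective
    have h1 : GoodS S (N.map (e : G →* H)) := ih (e.subgroupMap N)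
    let q : G ⧸ N ≃* H ⧸ (N.map (e : G →* H)) := QuotientGroup.congr N (N.map (e : G →* H)) e rfl
    refine GoodS.ext H (N.map (e : G →* H)) h1 ?_
    rcases hq with hq | ⟨hsim, hs⟩
    · left
      intro a b
      apply q.symm.injective
      rw [map_mul, map_mul]
      exact hq _ _
    · right
      exact ⟨(q.symm.isSimpleGroup_congr).mpr hsim, hS _ _ ⟨q⟩ hs⟩

end MG
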