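import Pool.Agent.helper81.MG.Defs
import Pool.Agent.helper81.MX.Q02

set_option autoImplicit false

/-! Row mg:G03 (helper23): a quotient of a good group is good. -/

namespace MG

open MX

open scoped MatrixGroups

theorem G03_simple {G H : Type} [Group G] [Group H] (e : G ≃* H) (h : IsSimpleGroup G) :
    IsSimpleGroup H := e.symm.isSimpleGroup

theorem G03_iso {S : (L : Type) → [Group L] → Prop} (hS : SInv S) {G : Type} [Group G]
    (hG : GoodS S G) {H : Type} [Group H] (e : G ≃* H) : GoodS S H := by
  induction hG generalizing H with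
  | triv G h => exact GoodS.triv H e.symm.toEquiv.subsingleton
  | ext G N hN hq ih =>
    have hn : (N.map (e : G →* H)).Normal :=
      Subgroup.Normal.map inferInstance (e : G →* H) e.surjective
    have h1 : GoodS S (N.map (e : G →* H)) := ih (e.subgroupMap N)
    let q : G ⧸ N ≃* H ⧸ (N.map (e : G →* H)) := QuotientGroup.congr N (N.map (e : G →* H)) e rfl
    refine GoodS.ext H (N.map (e : G →* H)) h1 ?_
    rcases hq with hq | ⟨hq1, hq2⟩
    · left
      intro a b
      apply q.symm.injective
      rw [map_mul, map_mul]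
      exact hq _ _
    · right
      exact ⟨G03_simple q hq1, hS _ _ ⟨q⟩ hq2⟩

/-- G03 -/
theorem goodS_quot {S : (L : Type) → [Group L] → Prop} (hS : SInv S) {G : Type} [Group G]
    (hG : GoodS S G) (N : Subgroup G) [N.Normal] : GoodS S (G ⧸ N) := by
  rename_i hNn
  revert N
  induction hG with
  | triv G h =>
    intro N _
    exact GoodS.triv (G ⧸ N) (Quotient.instSubsingletonQuotient _)
  | ext G K hK hq ih =>
    intro N hN
    have h1 : GoodS S (K ⧸ (N.subgroupOf K)) := ih (N.subgroupOf K)
    obtain ⟨e⟩ := Q02_equiv N K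
    have hKn : K.Normal := inferInstance
    have hmn : (K.map (QuotientGroup.mk' N)).Normal :=
      hKn.map _ (QuotientGroup.mk'_surjective N)
    refine GoodS.ext (G ⧸ N) (K.map (QuotientGroup.mk' N)) (G03_iso hS h1 e) ?_
    let φ : G ⧸ K →* (G ⧸ N) ⧸ (K.map (QuotientGroup.mk' N)) :=
      QuotientGroup.map K (K.map (QuotientGroup.mk' N)) (QuotientGroup.mk' N)
        (Subgroup.le_comap_map _ _)
    have hφ : Function.Surjective φ := by
      intro x
      obtain ⟨y, rfl⟩ := QuotientGroup.mk'_surjective _ x
      obtain ⟨z, rfl⟩ := QuotientGroup.mk'_surjective N y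
      exact ⟨QuotientGroup.mk' K z, rfl⟩
    rcases hq with hq | ⟨hsim', hq2⟩
    · left
      intro a b
      obtain ⟨a, rfl⟩ := hφ a
      obtain ⟨b, rfl⟩ := hφ b
      rw [← map_mul, ← map_mul, hq]
    · rcases hsim'.eq_bot_or_eq_top_of_normal φ.ker inferInstance with hb | ht
      · right
        have hbij : Function.Bijective φ := ⟨(MonoidHom.ker_eq_bot_iff φ).1 hb, hφ⟩
        exact ⟨G03_simple (MulEquiv.ofBijective φ hbij) hsim',
          hS _ _ ⟨MulEquiv.ofBijective φ hbij⟩ hq2⟩
      · left
        intro a b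
        obtain ⟨a, rfl⟩ := hφ a
        obtain ⟨b, rfl⟩ := hφ b
        have h2 : ∀ x, φ x = 1 := fun x => by
          rw [← MonoidHom.mem_ker, ht]
          exact Subgroup.mem_top x
        rw [h2, h2]

end MG
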