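import Pool.Agent.helper81.MG.Defs

set_option autoImplicit false

/-! Row mg:G04 (helper44): a nonabelian simple good group is in the class. -/

namespace MG

open MX

open scoped MatrixGroups

theorem G04_aux {S : (L : Type) → [Group L] → Prop} (hS : SInv S) {G : Type} [Group G] (hG : GoodS S G) :
    ∀ (H : Type) [Group H], (H ≃* G) → IsSimpleGroup H → (∃ a b : H, a * b ≠ b * a) → S H := by
  induction hG with
  | triv G h =>
    intro H _ e hs _
    exfalso
    obtain ⟨a, b, hab⟩ := hs.exists_pair_ne
    exact hab (e.injective (Subsingleton.elim _ _))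
  | ext G N hN hq ih =>
    intro H _ e hs hnc
    have : IsSimpleGroup G := e.symm.isSimpleGroup
    rcases IsSimpleGroup.eq_bot_or_eq_top_of_normal N inferInstance with hb | ht
    · have f : G ≃* G ⧸ N :=
        (QuotientGroup.quotientBot (G := G)).symm.trans
          (QuotientGroup.quotientMulEquivOfEq hb.symm)
      rcases hq with hq | ⟨hsim, hs⟩
      · exfalso
        obtain ⟨a, b, hab⟩ := hnc
        apply hab
        apply (e.trans f).injective
        rw [map_mul, map_mul]
        exact hq _ _
      · exact hS _ _ ⟨(e.trans f).symm⟩ hs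
    · have f : G ≃* N :=
        (Subgroup.topEquiv (G := G)).symm.trans (MulEquiv.subgroupCongr ht.symm)
      exact ih H (e.trans f) hs hnc

/-- G04 -/
theorem goodS_simple {S : (L : Type) → [Group L] → Prop} (hS : SInv S) {G : Type} [Group G]
    (hG : GoodS S G) [IsSimpleGroup G] (hnc : ∃ a b : G, a * b ≠ b * a) : S G :=
  G04_aux hS hG G (MulEquiv.refl G) inferInstance hnc

end MG
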