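import Pool.Agent.helper81.MG.G02
import Pool.Agent.helper81.MG.G04
import Pool.Agent.helper81.MX.M02

set_option autoImplicit false

/-! Row mg:G07 (helper44): the simple factor is in the class. -/

namespace MG

open MX

open scoped MatrixGroups

/-- G07 -/
theorem S_factor {S : (L : Type) → [Group L] → Prop} (hS : SInv S) {G : Type} [Group G] [Finite G]
    (hG : GoodS S G) {L N : Subgroup G} (hN : MinN N) (hM : Mfac L N) : S L := by
  have hNn : N.Normal := hN.1
  obtain ⟨hLN, hNL, -⟩ := Mfac_basic hM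
  have h1 : GoodS S N := goodS_normal hS hG N
  have h2 : (L.subgroupOf N).Normal := Subgroup.normal_subgroupOf_iff_le_normalizer hLN |>.2 hNL
  have h3 : GoodS S (L.subgroupOf N) := goodS_normal hS h1 (L.subgroupOf N)
  have h4 : GoodS S L := G02_iso hS h3 (Subgroup.subgroupOfEquivOfLe hLN)
  have h5 : IsSimpleGroup L := hM.simple
  refine goodS_simple hS h4 ?_
  obtain ⟨a, ha, b, hb, hab⟩ := hM.nc
  refine ⟨⟨a, ha⟩, ⟨b, hb⟩, fun h => hab ?_⟩
  exact congrArg Subtype.val h

end MG
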