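import Pool.Agent.helper81.MG.G03
import Pool.Agent.helper81.MX.Q05

set_option autoImplicit false

/-! Row mg:G05 (helper23): a finite group whose composition factors are in `S` is good. -/

namespace MG

open MX

open scoped MatrixGroups

/-- G05 -/
theorem goodS_of_cf {S : (L : Type) → [Group L] → Prop} (hS : SInv S) (G : Type) [Group G]
    [Finite G] (h : CF S G) : GoodS S G := by
  have key : ∀ n : ℕ, ∀ H : Subgroup G, H.IsSubnormal → Nat.card H ≤ n → GoodS S H := by
    intro n
    induction n with
    | zero =>
      intro H _ hc
      have h1 : 0 < Nat.card H := Nat.card_pos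
      omega
    | succ n ih =>
      intro H hs hc
      by_cases hH : Nontrivial H
      · obtain ⟨K, hKn, hKt, hsim⟩ := Q05_max H hH
        have hK1 : (K.map H.subtype).IsSubnormal := Subgroup.IsSubnormal.trans' hKn.isSubnormal hs
        have e : K ≃* K.map H.subtype := K.equivMapOfInjective H.subtype H.subtype_injective
        have hcard : Nat.card (K.map H.subtype) ≤ n := by
          have h1 : Nat.card (K.map H.subtype) = Nat.card K := (Nat.card_congr e.toEquiv).symm
          have h2 : Nat.card K < Nat.card H := by
            have h3 := Subgroup.card_le_card_group K
            rcases h3.lt_or_eq with h4 | h4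
            · exact h4
            · exact absurd (Subgroup.eq_top_of_card_eq K h4) hKt
          omega
        have hgood : GoodS S K := G03_iso hS (ih _ hK1 hcard) e.symm
        refine GoodS.ext H K hgood ?_
        by_cases hab : ∀ a b : H ⧸ K, a * b = b * a
        · exact Or.inl hab
        · right
          push Not at hab
          exact ⟨hsim, h H K hs hsim hab⟩
      · have h1 : Subsingleton H := not_nontrivial_iff_subsingleton.1 hH
        exact GoodS.triv H h1
  exact G03_iso hS (key (Nat.card (⊤ : Subgroup G)) ⊤ Subgroup.IsSubnormal.top le_rfl)
    Subgroup.topEquiv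

end MG
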