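import Pool.Agent.helper81.MX.Defs4
import Pool.Agent.helper81.MX.Defs5

/-!
Definitions for the general reduction to almost simple groups (MP_8aef6e_al).
-/

set_option autoImplicit false

namespace MG

open MX

open scoped MatrixGroups

/-- A predicate on groups which is invariant under isomorphism. -/
def SInv (S : (L : Type) → [Group L] → Prop) : Prop :=
  ∀ (L : Type) [Group L] (L' : Type) [Group L'], Nonempty (L ≃* L') → S L → S L'

/-- Groups with a subnormal series whose factors are commutative or simple groups in `S`. -/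
inductive GoodS (S : (L : Type) → [Group L] → Prop) : (G : Type) → [Group G] → Prop
  | triv (G : Type) [Group G] (h : Subsingleton G) : GoodS S G
  | ext (G : Type) [Group G] (N : Subgroup G) [N.Normal] (hN : GoodS S N)
      (hq : (∀ a b : G ⧸ N, a * b = b * a) ∨ (IsSimpleGroup (G ⧸ N) ∧ S (G ⧸ N))) : GoodS S G

/-- Every nonabelian composition factor is in `S`. -/
def CF (S : (L : Type) → [Group L] → Prop) (G : Type) [Group G] : Prop :=
  ∀ (H : Subgroup G) (K : Subgroup H) [K.Normal], H.IsSubnormal → IsSimpleGroup (H ⧸ K) →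
    (∃ a b : H ⧸ K, a * b ≠ b * a) → S (H ⧸ K)

/-- `A` is almost simple with socle `L`. -/
structure AlmS {A : Type*} [Group A] (L : Subgroup A) : Prop where
  norm : L.Normal
  simple : IsSimpleGroup L
  nc : ∃ a ∈ L, ∃ b ∈ L, a * b ≠ b * a
  cent : ∀ a : A, (∀ x ∈ L, a * x = x * a) → a = 1

/-- Nontrivial elements up to automorphisms. -/
def autSetoid (L : Type*) [Group L] : Setoid {x : L // x ≠ 1} where
  r x y := ∃ β : MulAut L, β x.1 = y.1
  iseqv := by
    refine ⟨fun x => ⟨1, rfl⟩, ?_, ?_⟩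
    · rintro x y ⟨β, h⟩
      exact ⟨β⁻¹, by rw [← h]; exact β.symm_apply_apply _⟩
    · rintro x y z ⟨β, h⟩ ⟨γ, h'⟩
      exact ⟨γ * β, by rw [← h', ← h]; rfl⟩

/-- The number of nontrivial classes of elements under automorphisms. -/
noncomputable def autCl (L : Type*) [Group L] : ℕ := Nat.card (Quotient (autSetoid L))

/-- The order of the outer automorphism group. -/
noncomputable def outN (L : Type*) [Group L] : ℕ := (MulAut.conj : L →* MulAut L).range.index

/-- The bound on the outer automorphism group. -/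
def OutB (L : Type*) [Group L] : Prop := 2 * outN L ≤ autCl L * (autCl L + 1)

/-- A default set of the group `A` over the normal subgroup `L`. -/
structure Dflt {A : Type*} [Group A] (L : Subgroup A) (D : Set A) : Prop where
  conj : ∀ a ∈ D, ∀ g : A, g * a * g⁻¹ ∈ D
  meet : ∀ a : A, ∃ l ∈ L, a * l ∈ D
  triv : ∀ a ∈ L, a ∈ D → a = 1
  one : (1 : A) ∈ D

variable {G : Type*} [Group G]

instance conj_range_normal (L : Type*) [Group L] : ((MulAut.conj : L →* MulAut L).range).Normal := by
  constructor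
  rintro _ ⟨l, rfl⟩ σ
  refine ⟨σ l, ?_⟩
  ext x
  simp only [MulAut.mul_apply, MulAut.conj_apply, map_mul, map_inv]
  have h : σ (σ⁻¹ x) = x := MulAut.apply_inv_self L σ x
  rw [h]

instance LA_normal (L : Subgroup G) : (LA L).Normal := by
  unfold LA
  infer_instance

/-- The marked cosets. -/
def MkD (L : Subgroup G) (D : Set (AA L)) (g : G) : Set (G ⧸ TT L) :=
  {i | ∃ r : G, (r : G ⧸ TT L) = i ∧ r⁻¹ * g * r ∈ TT L ∧ pa L (r⁻¹ * g * r) ∉ D}

/-- The classes of elements with exactly `k` marks. -/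
def ZmD (L : Subgroup G) (D : Set (AA L)) (k : ℕ) : Set (ConjClasses G) :=
  {c | ∃ g : G, c = ConjClasses.mk g ∧ (MkD L D g).ncard = k}

/-- The possible kernels for the complement type. -/
def QG (L N : Subgroup G) : Set (Subgroup G) :=
  {Q | N ≤ Q ∧ Q ≤ L ⊔ CC L ∧ (∀ t ∈ TT L, ∀ q ∈ Q, t * q * t⁻¹ ∈ Q) ∧
    ∃ ρ : ↥(L ⊔ CC L) →* L, Function.Surjective ρ ∧ ρ.ker = Q.subgroupOf (L ⊔ CC L)}

/-- `b` describes the passage from the complement `M` to the complement `M'`. -/
def Pas (L N M M' : Subgroup G) (b : MulAut (LA L)) : Prop :=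
  ∀ m ∈ M, ∀ m' ∈ M', m ∈ TT L → m⁻¹ * m' ∈ N → ∀ (h : pa L m ∈ LA L) (h' : pa L m' ∈ LA L),
    b ⟨pa L m, h⟩ = ⟨pa L m', h'⟩

end MG
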