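import Pool.Agent.helper81.MG.Defs

/-!
Affine groups.
-/

set_option autoImplicit false

namespace MG

open MX

/-- `W` is an abelian self-centralising minimal normal subgroup with complement `H`. -/
structure Aff {E : Type*} [Group E] (W H : Subgroup E) : Prop where
  min : MinN W
  comm : ∀ a ∈ W, ∀ b ∈ W, a * b = b * a
  cent : ∀ g : E, (∀ x ∈ W, g * x = x * g) → g ∈ W
  dis : W ⊓ H = ⊥
  top : W ⊔ H = ⊤

end MG
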