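import Pool.Agent.helper81.MG.Defs2

/-!
Row mg:F01
-/

set_option autoImplicit false

namespace MG

open MX

open scoped MatrixGroups

theorem F01_cls {G : Type*} [Group G] (N : Subgroup G) [N.Normal] (K : Subgroup (G ⧸ N)) :
    (Subgroup.comap (QuotientGroup.mk' N)) '' (Set.range (fun q : G ⧸ N => cj q K)) =
      Set.range (fun g : G => cj g (K.comap (QuotientGroup.mk' N))) := by
  have e : ∀ g : G, (cj (g : G ⧸ N) K).comap (QuotientGroup.mk' N) =
      cj g (K.comap (QuotientGroup.mk' N)) := by
    intro g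
    ext x
    rw [Subgroup.mem_comap, mem_cj, mem_cj, Subgroup.mem_comap]
    exact Iff.rfl
  apply Set.eq_of_subset_of_subset
  · rintro _ ⟨_, ⟨q, rfl⟩, rfl⟩
    obtain ⟨g, rfl⟩ := QuotientGroup.mk_surjective q
    exact ⟨g, (e g).symm⟩
  · rintro _ ⟨g, rfl⟩
    exact ⟨_, ⟨(g : G ⧸ N), rfl⟩, e g⟩

theorem F01_one {G : Type*} [Group G] (H : Subgroup G) : cj 1 H = H := by
  ext x
  rw [mem_cj]
  simp

/-- F01 -/
theorem mcl_split {G : Type*} [Group G] [Finite G] (N : Subgroup G) [N.Normal] :
    (mcl (G ⧸ N) (fun _ => True)).ncard + (mcl G (fun H => ¬ N ≤ H)).ncard =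
      (mcl G (fun _ => True)).ncard := by
  have hs : Function.Surjective (QuotientGroup.mk' N) := QuotientGroup.mk'_surjective N
  have hinj : Function.Injective (fun T : Set (Subgroup (G ⧸ N)) =>
      (Subgroup.comap (QuotientGroup.mk' N)) '' T) :=
    Set.image_injective.2 (Subgroup.comap_injective hs)
  have hle : ∀ K : Subgroup (G ⧸ N), N ≤ K.comap (QuotientGroup.mk' N) := by
    intro K x hx
    rw [Subgroup.mem_comap]
    have : (QuotientGroup.mk' N) x = 1 := (QuotientGroup.eq_one_iff x).2 hx
    rw [this]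
    exact K.one_mem
  have hun : mcl G (fun _ => True) =
      (fun T : Set (Subgroup (G ⧸ N)) => (Subgroup.comap (QuotientGroup.mk' N)) '' T) ''
        mcl (G ⧸ N) (fun _ => True) ∪ mcl G (fun H => ¬ N ≤ H) := by
    apply Set.eq_of_subset_of_subset
    · rintro S ⟨H, hH, _, rfl⟩
      by_cases h0 : N ≤ H
      · left
        have hcm : (H.map (QuotientGroup.mk' N)).comap (QuotientGroup.mk' N) = H := by
          rw [Subgroup.comap_map_eq, QuotientGroup.ker_mk']
          exact sup_eq_left.2 h0
        refine ⟨Set.range (fun g : G ⧸ N => cj g (H.map (QuotientGroup.mk' N))),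
          ⟨H.map (QuotientGroup.mk' N), ⟨?_, ?_⟩, trivial, rfl⟩, ?_⟩
        · intro htop
          rw [htop, Subgroup.comap_top] at hcm
          exact hH.1 hcm.symm
        · intro K hK
          have h1 : H < K.comap (QuotientGroup.mk' N) := by
            rw [← hcm]
            exact (Subgroup.comap_lt_comap_of_surjective hs).2 hK
          have h2 := hH.2 _ h1
          rw [← Subgroup.map_comap_eq_self_of_surjective hs K, h2]
          exact Subgroup.map_top_of_surjective _ hs
        · change (Subgroup.comap (QuotientGroup.mk' N)) '' (Set.range (fun q : G ⧸ N => cj q _)) = _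
          rw [F01_cls, hcm]
      · exact Or.inr ⟨H, hH, h0, rfl⟩
    · rintro S (⟨_, ⟨K, hK, _, rfl⟩, rfl⟩ | ⟨H, hH, _, rfl⟩)
      · refine ⟨K.comap (QuotientGroup.mk' N), ⟨?_, ?_⟩, trivial, F01_cls N K⟩
        · intro htop
          apply hK.1
          rw [← Subgroup.map_comap_eq_self_of_surjective hs K, htop]
          exact Subgroup.map_top_of_surjective _ hs
        · intro H hH
          have h0 : N ≤ H := (hle K).trans hH.le
          have hcm : (H.map (QuotientGroup.mk' N)).comap (QuotientGroup.mk' N) = H := by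
            rw [Subgroup.comap_map_eq, QuotientGroup.ker_mk']
            exact sup_eq_left.2 h0
          have h1 : K < H.map (QuotientGroup.mk' N) := by
            rw [← hcm] at hH
            exact (Subgroup.comap_lt_comap_of_surjective hs).1 hH
          rw [← hcm, hK.2 _ h1, Subgroup.comap_top]
      · exact ⟨H, hH, trivial, rfl⟩
  have hdis : Disjoint ((fun T : Set (Subgroup (G ⧸ N)) =>
      (Subgroup.comap (QuotientGroup.mk' N)) '' T) '' mcl (G ⧸ N) (fun _ => True))
      (mcl G (fun H => ¬ N ≤ H)) := by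
    rw [Set.disjoint_left]
    rintro _ ⟨_, ⟨K, hK, _, rfl⟩, rfl⟩ ⟨H, hH, hN, hS⟩
    apply hN
    have h1 : H ∈ Set.range (fun g : G => cj g H) := ⟨1, F01_one H⟩
    rw [← hS] at h1
    obtain ⟨K', _, rfl⟩ := h1
    exact hle K'
  rw [hun, Set.ncard_union_eq hdis (Set.toFinite _) (Set.toFinite _),
    Set.ncard_image_of_injective _ hinj]

end MG
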