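import Pool.Agent.helper81.MG.Defs2

set_option autoImplicit false

/-! Row mg:F02 (helper98): the affine group of a faithful irreducible module. -/

namespace MG

open MX

open scoped MatrixGroups

theorem F02_alms {A B : Type*} [Group A] [Group B] (e : A ≃* B) (L : Subgroup A) (hL : AlmS L) :
    AlmS (L.map e.toMonoidHom) ∧ Nonempty (L ≃* L.map e.toMonoidHom) := by
  have hn := hL.norm
  have hs := hL.simple
  let f : L ≃* L.map e.toMonoidHom := L.equivMapOfInjective e.toMonoidHom e.injective
  refine ⟨⟨?_, ?_, ?_, ?_⟩, ⟨f⟩⟩
  · exact hn.map e.toMonoidHom e.surjective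
  · exact f.symm.isSimpleGroup
  · obtain ⟨a, ha, b, hb, hab⟩ := hL.nc
    refine ⟨e a, ⟨a, ha, rfl⟩, e b, ⟨b, hb, rfl⟩, fun h => hab ?_⟩
    apply e.injective
    rw [map_mul, map_mul]
    exact h
  · intro b hb
    have h1 : e.symm b = 1 := by
      apply hL.cent
      intro x hx
      have h2 := hb (e x) ⟨x, hx, rfl⟩
      apply e.injective
      rw [map_mul, map_mul, e.apply_symm_apply]
      exact h2
    have h2 := congrArg e h1
    rwa [e.apply_symm_apply, map_one] at h2

theorem F02_ker {A W : Type*} [Group A] [AddCommGroup W] [DistribMulAction A W] (x : SD A W)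
    (hx : x ∈ (SemidirectProduct.rightHom : SD A W →* A).ker) :
    x = SemidirectProduct.inl x.left := by
  have h : x.right = 1 := hx
  ext
  · rfl
  · exact h

theorem F02_conj {A W : Type*} [Group A] [AddCommGroup W] [DistribMulAction A W] (a : A) (w : W) :
    (SemidirectProduct.inr a : SD A W) * SemidirectProduct.inl (Multiplicative.ofAdd w) *
      (SemidirectProduct.inr a)⁻¹ = SemidirectProduct.inl (Multiplicative.ofAdd (a • w)) := by
  rw [← phi_apply, ← map_inv, ← SemidirectProduct.inl_aut]

/-- F02 -/
theorem affine_of_module {A W : Type*} [Group A] [Finite A] [AddCommGroup W] [Finite W]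
    [DistribMulAction A W] (L : Subgroup A) (hL : AlmS L) (hirr : Irr A W) (hf : Fth A W) :
    ∃ H : Subgroup (SD A W), Aff (SemidirectProduct.rightHom : SD A W →* A).ker H ∧
      ∃ M : Subgroup H, AlmS M ∧ Nonempty (L ≃* M) := by
  obtain ⟨hnt, hsub⟩ := hirr
  let e : A ≃* (SemidirectProduct.inr : A →* SD A W).range :=
    MonoidHom.ofInjective SemidirectProduct.inr_injective
  refine ⟨(SemidirectProduct.inr : A →* SD A W).range, ⟨⟨inferInstance, ?_, ?_⟩, ?_, ?_, ?_, ?_⟩,
    L.map e.toMonoidHom, F02_alms e L hL⟩
  · obtain ⟨w, hw⟩ := exists_ne (0 : W)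
    intro h
    have h1 : (SemidirectProduct.inl (Multiplicative.ofAdd w) : SD A W) ∈
        (SemidirectProduct.rightHom : SD A W →* A).ker := by
      rw [MonoidHom.mem_ker, SemidirectProduct.rightHom_inl]
    rw [h, Subgroup.mem_bot] at h1
    apply hw
    have h2 := SemidirectProduct.inl_injective (h1.trans (map_one _).symm)
    exact Multiplicative.ofAdd.injective h2
  · intro K hK hKN
    let U : AddSubgroup W :=
      { carrier := {w | (SemidirectProduct.inl (Multiplicative.ofAdd w) : SD A W) ∈ K}
        add_mem' := by
          intro a b ha hb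
          show (SemidirectProduct.inl (Multiplicative.ofAdd (a + b)) : SD A W) ∈ K
          rw [ofAdd_add, map_mul]
          exact K.mul_mem ha hb
        zero_mem' := by
          show (SemidirectProduct.inl (Multiplicative.ofAdd (0 : W)) : SD A W) ∈ K
          rw [ofAdd_zero, map_one]
          exact K.one_mem
        neg_mem' := by
          intro a ha
          show (SemidirectProduct.inl (Multiplicative.ofAdd (-a)) : SD A W) ∈ K
          rw [ofAdd_neg, map_inv]
          exact K.inv_mem ha }
    have hU : ∀ h : A, ∀ v ∈ U, h • v ∈ U := by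
      intro h v hv
      show (SemidirectProduct.inl (Multiplicative.ofAdd (h • v)) : SD A W) ∈ K
      rw [← F02_conj]
      exact hK.conj_mem _ hv _
    rcases hsub U hU with h | h
    · left
      rw [Subgroup.eq_bot_iff_forall]
      intro x hx
      have h1 := F02_ker x (hKN hx)
      have h2 : Multiplicative.toAdd x.left ∈ U := by
        show (SemidirectProduct.inl (Multiplicative.ofAdd (Multiplicative.toAdd x.left)) : SD A W) ∈ K
        rw [ofAdd_toAdd, ← h1]
        exact hx
      rw [h, AddSubgroup.mem_bot] at h2
      rw [h1]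
      have h3 : x.left = 1 := by
        apply Multiplicative.toAdd.injective
        exact h2
      rw [h3, map_one]
    · right
      refine le_antisymm hKN ?_
      intro x hx
      have h1 := F02_ker x hx
      have h2 : Multiplicative.toAdd x.left ∈ U := by
        rw [h]
        exact AddSubgroup.mem_top _
      have h3 : (SemidirectProduct.inl (Multiplicative.ofAdd (Multiplicative.toAdd x.left)) : SD A W) ∈
        K := h2
      rw [ofAdd_toAdd, ← h1] at h3
      exact h3
  · intro a ha b hb
    rw [F02_ker a ha, F02_ker b hb, ← map_mul, ← map_mul, mul_comm]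
  · intro g hg
    show g.right = 1
    apply hf
    intro v
    have h1 : (SemidirectProduct.inl (Multiplicative.ofAdd v) : SD A W) ∈
        (SemidirectProduct.rightHom : SD A W →* A).ker := by
      rw [MonoidHom.mem_ker, SemidirectProduct.rightHom_inl]
    have h2 := hg _ h1
    have h3 := congrArg SemidirectProduct.left h2
    rw [SemidirectProduct.mul_left, SemidirectProduct.mul_left, SemidirectProduct.left_inl,
      SemidirectProduct.right_inl, map_one, MulAut.one_apply, phi_apply, mul_comm] at h3
    have h4 := mul_right_cancel h3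
    exact Multiplicative.ofAdd.injective h4
  · rw [Subgroup.eq_bot_iff_forall]
    rintro x ⟨h1, a, rfl⟩
    have h2 : a = 1 := by
      have h3 : SemidirectProduct.rightHom (SemidirectProduct.inr a : SD A W) = 1 := h1
      rwa [SemidirectProduct.rightHom_inr] at h3
    rw [h2, map_one]
  · rw [eq_top_iff]
    intro x _
    rw [← SemidirectProduct.inl_left_mul_inr_right x]
    refine Subgroup.mul_mem_sup ?_ ⟨x.right, rfl⟩
    rw [MonoidHom.mem_ker, SemidirectProduct.rightHom_inl]

end MG
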