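import Pool.Agent.helper81.MG.Defs2
import Pool.Agent.helper81.MX.A01
import Pool.Agent.helper81.MX.A24
import Pool.Agent.helper81.MX.A25
import Pool.Agent.helper81.MX.A26
import Pool.Agent.helper81.MX.A28

set_option autoImplicit false

/-! Row mg:F03 (helper98): the relative inequality for an affine group. -/

namespace MG

open MX

open scoped MatrixGroups

theorem F03_coatom {G : Type*} [Group G] (N H : Subgroup G) (hA : Aff N H) :
    IsCoatom H ∧ ¬ N ≤ H := by
  have hn : N.Normal := hA.min.1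
  have hNH : ¬ N ≤ H := by
    intro h
    apply hA.min.2.1
    rw [← hA.dis]
    exact (inf_eq_left.2 h).symm
  refine ⟨⟨fun h => hNH (by rw [h]; exact le_top), ?_⟩, hNH⟩
  intro K hK
  have hK0 : H ≤ K := hK.le
  have hnor : (K ⊓ N).Normal := by
    constructor
    intro k hk g
    have hg : g ∈ N ⊔ H := by
      rw [hA.top]
      exact Subgroup.mem_top g
    obtain ⟨n, hn', h, hh, rfl⟩ := Subgroup.mem_sup_of_normal_left.1 hg
    have h1 : h * k * h⁻¹ ∈ K ⊓ N :=
      ⟨K.mul_mem (K.mul_mem (hK0 hh) hk.1) (K.inv_mem (hK0 hh)), hn.conj_mem k hk.2 h⟩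
    have h2 := hA.comm n hn' _ h1.2
    have h3 : n * h * k * (n * h)⁻¹ = (n * (h * k * h⁻¹)) * n⁻¹ := by group
    rw [h3, h2, mul_inv_cancel_right]
    exact h1
  rcases hA.min.2.2 (K ⊓ N) hnor inf_le_right with h | h
  · exfalso
    apply hK.not_ge
    intro k hk
    have hg : k ∈ N ⊔ H := by
      rw [hA.top]
      exact Subgroup.mem_top k
    obtain ⟨n, hn', h', hh, rfl⟩ := Subgroup.mem_sup_of_normal_left.1 hg
    have h1 : n ∈ K ⊓ N := by
      refine ⟨?_, hn'⟩
      have h2 := K.mul_mem hk (K.inv_mem (hK0 hh))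
      rwa [mul_inv_cancel_right] at h2
    rw [h, Subgroup.mem_bot] at h1
    rw [h1, one_mul]
    exact hh
  · rw [eq_top_iff, ← hA.top]
    exact sup_le (inf_eq_right.1 h) hK0

/-- F03 -/
theorem RI_affine {G : Type} [Group G] [Finite G] (N H : Subgroup G) [N.Normal] (hA : Aff N H)
    (hstar : ∀ (V : Type) [AddCommGroup V] [Finite V] [DistribMulAction H V], Irr H V → Fth H V →
      ∀ (p : ℕ) [Fact p.Prime], (∀ v : V, p • v = 0) → h1 H V ≤ Dn H V p) : RI G N := by
  unfold RI
  obtain ⟨hH, hNH⟩ := F03_coatom N H hA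
  obtain ⟨V, iV, fV, aV, j, hs, hirr⟩ := spl_exists N hA.min hA.comm H hH hNH
  obtain ⟨p, hp, hpv⟩ := irr_prime hirr
  have : Fact p.Prime := ⟨hp⟩
  have e1 := spl_count N hA.min hA.comm H j hs
  obtain ⟨e2, e3⟩ := spl_kk N H j hs
  have hF : Fth H V := by
    intro h hh
    have h1 : (h : G) ∈ N := by
      apply hA.cent
      intro x hx
      rw [← hs.rng] at hx
      obtain ⟨v, rfl⟩ := hx
      have h2 := hs.act h (Multiplicative.toAdd v)
      rw [hh] at h2
      have h3 : j v = (h : G) * j v * (h : G)⁻¹ := h2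
      exact (mul_inv_eq_iff_eq_mul.1 h3.symm)
    have h2 : (h : G) ∈ N ⊓ H := ⟨h1, h.2⟩
    rw [hs.dis, Subgroup.mem_bot] at h2
    exact Subtype.ext h2
  have e4 := hstar V hirr hF p hpv
  have e5 := kk_SD (H := H) (V := V) p hpv
  rw [e2, e3, e5]
  omega

end MG
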