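import Pool.Agent.helper81.MG.G03
import Pool.Agent.helper81.MX.R04
import Pool.Agent.helper81.MX.R05

set_option autoImplicit false

/-! Row mg:G06 (helper23): reduction to minimal normal subgroups. -/

namespace MG

open MX

open scoped MatrixGroups

/-- G06 -/
theorem RI_allS {S : (L : Type) → [Group L] → Prop} (hS : SInv S)
    (hmin : ∀ (G : Type) [Group G] [Finite G] (N : Subgroup G) [N.Normal], GoodS S G → MinN N →
      RI G N) :
    ∀ (G : Type) [Group G] [Finite G] (N : Subgroup G) [N.Normal], GoodS S G → RI G N := by
  have key : ∀ m : ℕ, ∀ (G : Type) [Group G] [Finite G] (N : Subgroup G) [N.Normal],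
      Nat.card G = m → GoodS S G → RI G N := by
    intro m
    induction m using Nat.strong_induction_on with
    | _ m ih =>
      intro G _ _ N _ hm hG
      by_cases hN : N = ⊥
      · subst hN
        have h1 : mcl G (fun H => ¬ (⊥ : Subgroup G) ≤ H) = ∅ := by
          rw [Set.eq_empty_iff_forall_notMem]
          rintro S ⟨H, _, h2, _⟩
          exact h2 bot_le
        unfold RI
        rw [h1, Set.ncard_empty, zero_add]
        exact R05_kk_le QuotientGroup.quotientBot
      · obtain ⟨N₀, hN₀, hle⟩ := R05_min N hN
        have hn : N₀.Normal := hN₀.1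
        have h1 : RI G N₀ := hmin G N₀ hG hN₀
        have hcard : Nat.card (G ⧸ N₀) < m := by
          have h2 := Subgroup.card_eq_card_quotient_mul_card_subgroup N₀
          have h3 : 1 < Nat.card N₀ := by
            rw [Subgroup.one_lt_card_iff_ne_bot]
            exact hN₀.2.1
          have h4 : 0 < Nat.card (G ⧸ N₀) := Nat.card_pos
          rw [hm] at h2
          nlinarith
        have h2 : RI (G ⧸ N₀) (N.map (QuotientGroup.mk' N₀)) :=
          ih _ hcard (G ⧸ N₀) (N.map (QuotientGroup.mk' N₀)) rfl (goodS_quot hS hG N₀)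
        have h3 := mcl_step N₀ N hle
        have h4 : kk (G ⧸ N) ≤ kk ((G ⧸ N₀) ⧸ N.map (QuotientGroup.mk' N₀)) :=
          R05_kk_le (QuotientGroup.quotientQuotientEquivQuotient N₀ N hle).symm
        unfold RI at h1 h2 ⊢
        omega
  intro G _ _ N _ hG
  exact key _ G N rfl hG

end MG
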