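import Pool.Agent.helper81.MG.Defs
import Pool.Agent.helper81.MG.G07
import Pool.Agent.helper81.MX.A22

set_option autoImplicit false

namespace MG

open MX

open scoped MatrixGroups

/-- the almost simple case: the action of `T = N(L)` on `W` -/
theorem G08_core {S : (L : Type) → [Group L] → Prop} (hS : SInv S)
    (hstd : ∀ (A W : Type) [Group A] [Finite A] [AddCommGroup W] [Finite W] [DistribMulAction A W]
      (L : Subgroup A), AlmS L → S L → Irr A W → Fth A W → ∀ (p : ℕ) [Fact p.Prime],
      (∀ w : W, p • w = 0) → h1 A W ≤ Dn A W p)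
    {H V : Type} [Group H] [Finite H] [AddCommGroup V] [Finite V] [DistribMulAction H V]
    (hirr : Irr H V) (p : ℕ) [Fact p.Prime] (hp : ∀ v : V, p • v = 0)
    (L T : Subgroup H) (hLT : L ≤ T) (hLn : (L.subgroupOf T).Normal) (hsimp : IsSimpleGroup L)
    (hnc : ∃ a ∈ L, ∃ b ∈ L, a * b ≠ b * a) (hSL : S L)
    (W : Type) [AddCommGroup W] [Finite W] [DistribMulAction T W]
    (j : W →+ V) (pr : V →+ W) (hI : IndM T.subtype j pr)
    (hfix : ∀ w : W, (∀ l : T, (l : H) ∈ L → l • w = w) → w = 0)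
    (A : Type) [Group A] [Finite A] [DistribMulAction A W] (q : T →* A)
    (hq : Function.Surjective q)
    (hact : ∀ (t : T) (w : W), t • w = q t • w) (hfth : Fth A W) :
    h1 H V ≤ Dn H V p := by
  have hpW : ∀ w : W, p • w = 0 := by
    intro w
    have h2 := congrArg pr (hp (j w))
    rwa [map_nsmul, hI.prj, map_zero] at h2
  have hirrT : Irr T W := irr_ind _ j pr hI hirr
  obtain ⟨hntW, hirrT'⟩ := hirrT
  -- the group A
  have hirrA : Irr A W := by
    refine ⟨hntW, fun U hU => hirrT' U fun t w hw => ?_⟩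
    rw [hact]
    exact hU (q t) w hw
  have hker : q.ker.Normal := inferInstance
  -- the intersection
  have hint : L.subgroupOf T ⊓ q.ker = ⊥ := by
    have h3 : ((L.subgroupOf T ⊓ q.ker).map T.subtype).subgroupOf L = ⊥ ∨
        ((L.subgroupOf T ⊓ q.ker).map T.subtype).subgroupOf L = ⊤ := by
      apply hsimp.eq_bot_or_eq_top_of_normal
      constructor
      intro n hn g
      rw [Subgroup.mem_subgroupOf] at hn ⊢
      obtain ⟨t, ht, hte⟩ := hn
      refine ⟨⟨(g : H), hLT g.2⟩ * t * ⟨(g : H), hLT g.2⟩⁻¹, ?_, ?_⟩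
      · obtain ⟨ht1, ht2⟩ := Subgroup.mem_inf.1 ht
        exact Subgroup.mem_inf.2 ⟨hLn.conj_mem t ht1 _, hker.conj_mem t ht2 _⟩
      · have h4 : (t : H) = (n : H) := hte
        show (g : H) * (t : H) * (g : H)⁻¹ = (g : H) * (n : H) * (g : H)⁻¹
        rw [h4]
    have hmem : ∀ t : T, t ∈ L.subgroupOf T ⊓ q.ker → ∀ ht : (t : H) ∈ L,
        (⟨(t : H), ht⟩ : L) ∈ ((L.subgroupOf T ⊓ q.ker).map T.subtype).subgroupOf L := by
      intro t ht htL
      rw [Subgroup.mem_subgroupOf]
      exact ⟨t, ht, rfl⟩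
    rcases h3 with h3 | h3
    · rw [eq_bot_iff]
      intro t ht
      have htL : (t : H) ∈ L := (Subgroup.mem_inf.1 ht).1
      have h4 := hmem t ht htL
      rw [h3, Subgroup.mem_bot] at h4
      rw [Subgroup.mem_bot]
      apply Subtype.ext
      have h5 : (t : H) = 1 := congrArg Subtype.val h4
      exact h5
    · exfalso
      -- all of L acts trivially
      have h5 : ∀ l : T, (l : H) ∈ L → ∀ w : W, l • w = w := by
        intro l hl w
        have h6 : (⟨(l : H), hl⟩ : L) ∈ ((L.subgroupOf T ⊓ q.ker).map T.subtype).subgroupOf L := by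
          rw [h3]
          exact Subgroup.mem_top _
        rw [Subgroup.mem_subgroupOf] at h6
        obtain ⟨t, ht, hte⟩ := h6
        have hlt : t = l := Subtype.ext hte
        have h7 : q l = 1 := by
          rw [← hlt]
          exact (Subgroup.mem_inf.1 ht).2
        rw [hact, h7, one_smul]
      obtain ⟨w, hw⟩ := exists_ne (0 : W)
      exact hw (hfix w fun l hl => h5 l hl w)
  have hcom : ∀ l ∈ L.subgroupOf T, ∀ c ∈ q.ker, l * c = c * l := by
    intro l hl c hc
    have h3 : l * c * l⁻¹ * c⁻¹ ∈ L.subgroupOf T ⊓ q.ker := by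
      refine Subgroup.mem_inf.2 ⟨?_, ?_⟩
      · have e : l * c * l⁻¹ * c⁻¹ = l * (c * l⁻¹ * c⁻¹) := by group
        rw [e]
        exact Subgroup.mul_mem _ hl (hLn.conj_mem _ (Subgroup.inv_mem _ hl) c)
      · exact Subgroup.mul_mem _ (hker.conj_mem c hc l) (Subgroup.inv_mem _ hc)
    rw [hint, Subgroup.mem_bot] at h3
    have h4 : l * c * l⁻¹ = c := by
      rw [← mul_inv_eq_one]
      exact h3
    rw [mul_inv_eq_iff_eq_mul] at h4
    exact h4
  have hfixT : ∀ w : W, (∀ l ∈ L.subgroupOf T, l • w = w) → w = 0 :=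
    fun w hw => hfix w fun l hl => hw l hl
  have k1 : h1 H V ≤ h1 T W := shapiro _ j pr hI
  have k2 : h1 T W ≤ h1 A W := h1_quot q hq hact (L.subgroupOf T) hcom hfixT
  have k3 : Dn A W p ≤ Dn H V p := Dn_ind _ j pr hI q hq hact p
  refine (k1.trans k2).trans (le_trans ?_ k3)
  -- the image of L
  have hLAn : ((L.subgroupOf T).map q).Normal := hLn.map q hq
  have hfixA : ∀ w : W, (∀ l ∈ (L.subgroupOf T).map q, l • w = w) → w = 0 := by
    intro w hw
    refine hfixT w fun l hl => ?_
    rw [hact]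
    exact hw (q l) ⟨l, hl, rfl⟩
  by_cases hC : ∃ a : A, a ≠ 1 ∧ ∀ x ∈ (L.subgroupOf T).map q, a * x = x * a
  · have h3 := h1_of_allInner (allInner_cent hirrA hfth ((L.subgroupOf T).map q) hfixA hC)
    rw [h3]
    exact Dn_pos p hpW
  · have hinj : Function.Injective (q.comp (Subgroup.inclusion hLT)) := by
      rw [injective_iff_map_eq_one]
      intro x hx
      have h4 : Subgroup.inclusion hLT x ∈ L.subgroupOf T ⊓ q.ker := by
        refine Subgroup.mem_inf.2 ⟨?_, hx⟩
        exact x.2
      rw [hint, Subgroup.mem_bot] at h4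
      apply Subtype.ext
      have h5 : (x : H) = 1 := congrArg Subtype.val h4
      exact h5
    have hrange : (q.comp (Subgroup.inclusion hLT)).range = (L.subgroupOf T).map q := by
      ext a
      constructor
      · rintro ⟨x, rfl⟩
        exact ⟨Subgroup.inclusion hLT x, x.2, rfl⟩
      · rintro ⟨t, ht, rfl⟩
        exact ⟨⟨(t : H), ht⟩, rfl⟩
    have e : L ≃* ((L.subgroupOf T).map q : Subgroup A) :=
      (MonoidHom.ofInjective hinj).trans (MulEquiv.subgroupCongr hrange)
    refine hstd A W ((L.subgroupOf T).map q) ⟨hLAn, ?_, ?_, ?_⟩ (hS L _ ⟨e⟩ hSL) hirrA hfth p hpW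
    · have := hsimp
      exact e.symm.isSimpleGroup
    · obtain ⟨a, ha, b, hb, hab⟩ := hnc
      refine ⟨q ⟨a, hLT ha⟩, ⟨⟨a, hLT ha⟩, ha, rfl⟩, q ⟨b, hLT hb⟩, ⟨⟨b, hLT hb⟩, hb, rfl⟩,
        fun h => hab ?_⟩
      have h4 : (q.comp (Subgroup.inclusion hLT)) ((⟨a, ha⟩ : L) * ⟨b, hb⟩) =
          (q.comp (Subgroup.inclusion hLT)) ((⟨b, hb⟩ : L) * ⟨a, ha⟩) := by
        rw [map_mul, map_mul]
        exact h
      exact congrArg Subtype.val (hinj h4)
    · intro a ha
      by_contra hne
      exact hC ⟨a, hne, ha⟩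

/-- G08 -/
theorem star_faithfulS {S : (L : Type) → [Group L] → Prop} (hS : SInv S)
    (hstd : ∀ (A W : Type) [Group A] [Finite A] [AddCommGroup W] [Finite W] [DistribMulAction A W]
      (L : Subgroup A), AlmS L → S L → Irr A W → Fth A W → ∀ (p : ℕ) [Fact p.Prime],
      (∀ w : W, p • w = 0) → h1 A W ≤ Dn A W p)
    {H V : Type} [Group H] [Finite H] [AddCommGroup V] [Finite V] [DistribMulAction H V]
    (hG : GoodS S H) (hirr : Irr H V) (hf : Fth H V) (p : ℕ) [Fact p.Prime]
    (hp : ∀ v : V, p • v = 0) : h1 H V ≤ Dn H V p := by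
  have hnt : Nontrivial V := hirr.1
  have hin : AllInner H V → h1 H V ≤ Dn H V p := by
    intro h
    rw [h1_of_allInner h]
    exact Dn_pos p hp
  rcases subsingleton_or_nontrivial H with hs | hs
  · exact hin A22_triv
  · obtain ⟨K, hK⟩ := A22_minN (H := H)
    by_cases hab : ∀ a ∈ K, ∀ b ∈ K, a * b = b * a
    · exact hin (allInner_abelian hirr hf K hK hab)
    · push Not at hab
      obtain ⟨L, hM⟩ := exists_Mfac K hK hab
      by_cases hW : fixS H V (K ⊓ Subgroup.centralizer (L : Set H)) = ⊥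
      · exact hin (allInner_W0 hirr hf K L hK hM hW)
      · obtain ⟨W, i1, i2, i3, j, pr, hI, hfix⟩ := exists_Ind hirr hf K L hK hM hW
        letI : DistribMulAction (phi (Subgroup.normalizer (L : Set H)) W).range W := A22_act W _
        refine G08_core hS hstd hirr p hp L (Subgroup.normalizer (L : Set H)) Subgroup.le_normalizer
          (A22_normal L) hM.simple hM.nc (S_factor hS hG hK hM) W j pr hI hfix
          (phi (Subgroup.normalizer (L : Set H)) W).range
          (phi (Subgroup.normalizer (L : Set H)) W).rangeRestrict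
          (MonoidHom.rangeRestrict_surjective _) (fun t w => rfl) ?_
        intro a ha
        apply Subtype.ext
        apply MulEquiv.ext
        intro w
        exact ha (Multiplicative.toAdd w)

end MG
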