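import Pool.Agent.helper81.MG.Defs
import Pool.Agent.helper81.MG.G01
import Pool.Agent.helper81.MG.G03
import Pool.Agent.helper81.MX.A27
import Pool.Agent.helper81.MX.A28

set_option autoImplicit false

namespace MG

open MX

open scoped MatrixGroups

/-- G10 -/
theorem RI_abelianS {S : (L : Type) → [Group L] → Prop} (hS : SInv S)
    (hstar : ∀ {H V : Type} [Group H] [Finite H] [AddCommGroup V] [Finite V] [DistribMulAction H V],
      GoodS S H → Irr H V → ∀ (p : ℕ) [Fact p.Prime], (∀ v : V, p • v = 0) → h1 H V ≤ Dn H V p)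
    {G : Type} [Group G] [Finite G] (hG : GoodS S G) (N : Subgroup G) [N.Normal] (hN : MinN N)
    (hc : ∀ a ∈ N, ∀ b ∈ N, a * b = b * a) : RI G N := by
  unfold RI
  by_cases hex : ∃ H : Subgroup G, IsCoatom H ∧ ¬ N ≤ H
  · obtain ⟨H, hH, hNH⟩ := hex
    obtain ⟨V, iV, fV, aV, j, hs, hirr⟩ := spl_exists N hN hc H hH hNH
    obtain ⟨p, hp, hpv⟩ := irr_prime hirr
    have : Fact p.Prime := ⟨hp⟩
    have e1 := spl_count N hN hc H j hs
    obtain ⟨e2, e3⟩ := spl_kk N H j hs
    have hGH : GoodS S H := goodS_iso hS (goodS_quot hS hG N)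
      (MulEquiv.ofBijective _ (A27_bij N H hs.dis hs.top)).symm
    have e4 := hstar (H := H) (V := V) hGH hirr p hpv
    have e5 := kk_SD (H := H) (V := V) p hpv
    rw [e2, e3, e5]
    omega
  · have h0 : mcl G (fun H => ¬ N ≤ H) = ∅ := by
      rw [Set.eq_empty_iff_forall_notMem]
      rintro S ⟨H, h1, h2, -⟩
      exact hex ⟨H, h1, h2⟩
    rw [h0, Set.ncard_empty, zero_add]
    exact A27_kk_le N

end MG
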