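import Pool.Agent.helper81.MG.G11
import Pool.Agent.helper81.MX.A26
import Pool.Agent.helper81.MX.A28

/-! Row mg:G12. -/

set_option autoImplicit false

namespace MG

open MX

open scoped MatrixGroups

/-- G12 -/
theorem star_of_RI {A W : Type*} [Group A] [Finite A] [AddCommGroup W] [Finite W]
    [DistribMulAction A W] (hirr : Irr A W)
    (h : RI (SD A W) (SemidirectProduct.rightHom : SD A W →* A).ker)
    (p : ℕ) [Fact p.Prime] (hp : ∀ w : W, p • w = 0) : h1 A W ≤ Dn A W p := by
  have h1' := h1_le_mcl hirr
  have h2 : kk (SD A W ⧸ (SemidirectProduct.rightHom : SD A W →* A).ker) = kk A :=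
    A26_kk (QuotientGroup.quotientKerEquivOfSurjective (SemidirectProduct.rightHom : SD A W →* A)
      SemidirectProduct.rightHom_surjective)
  have h3 := kk_SD (H := A) (V := W) p hp
  unfold RI at h
  omega

end MG
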