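import Pool.Agent.helper81.MG.Defs
import Pool.Agent.helper81.MX.A25
import Pool.Agent.helper81.MX.A26
import Pool.Agent.helper81.MX.A28

/-!
# Row G13 of project MG
-/

set_option autoImplicit false

namespace MG

open MX

open scoped MatrixGroups

section G13

theorem G13_h1 {A H W : Type*} [Group A] [Group H] [AddCommGroup W] [DistribMulAction A W]
    [DistribMulAction H W] (e : A ≃* H) (he : ∀ (a : A) (w : W), e a • w = a • w) :
    h1 H W = h1 A W := by
  let f : (A → W) →+ (H → W) :=
    { toFun := fun α h => α (e.symm h)
      map_zero' := rfl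
      map_add' := fun _ _ => rfl }
  have hf : Function.Injective f := by
    intro α β h
    funext a
    have := congrFun h (e a)
    change α (e.symm (e a)) = β (e.symm (e a)) at this
    rwa [e.symm_apply_apply] at this
  have he' : ∀ (h : H) (w : W), e.symm h • w = h • w := by
    intro h w
    rw [← he (e.symm h) w, e.apply_symm_apply]
  have hD : (Der A W).map f = Der H W := by
    ext β
    rw [AddSubgroup.mem_map]
    constructor
    · rintro ⟨α, hα, rfl⟩
      intro g h
      change α (e.symm (g * h)) = α (e.symm g) + g • α (e.symm h)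
      rw [map_mul, hα, he']
    · intro hβ
      refine ⟨fun a => β (e a), ?_, ?_⟩
      · intro g h
        change β (e (g * h)) = β (e g) + g • β (e h)
        rw [map_mul, hβ, he]
      · funext h
        change β (e (e.symm h)) = β h
        rw [e.apply_symm_apply]
  have hI : (Inn A W).map f = Inn H W := by
    ext β
    rw [AddSubgroup.mem_map]
    constructor
    · rintro ⟨α, ⟨v, rfl⟩, rfl⟩
      refine ⟨v, ?_⟩
      funext h
      change h • v - v = e.symm h • v - v
      rw [he']
    · rintro ⟨v, rfl⟩
      refine ⟨inn A W v, ⟨v, rfl⟩, ?_⟩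
      funext h
      change e.symm h • v - v = h • v - v
      rw [he']
  unfold h1
  rw [← hD, ← hI]
  exact AddSubgroup.relIndex_map_map_of_injective (Inn A W) (Der A W) hf

theorem G13_min {A W : Type*} [Group A] [AddCommGroup W] [DistribMulAction A W]
    (hirr : Irr A W) : MinN (SemidirectProduct.rightHom : SD A W →* A).ker := by
  obtain ⟨hnt, hirr⟩ := hirr
  refine ⟨inferInstance, ?_, ?_⟩
  · intro h
    obtain ⟨w, hw⟩ := exists_ne (0 : W)
    have h1 : (SemidirectProduct.inl (Multiplicative.ofAdd w) : SD A W) ∈
        (SemidirectProduct.rightHom : SD A W →* A).ker := by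
      rw [MonoidHom.mem_ker, SemidirectProduct.rightHom_inl]
    rw [h, Subgroup.mem_bot, ← map_one (SemidirectProduct.inl : Multiplicative W →* SD A W)] at h1
    exact hw (Multiplicative.ofAdd.injective (SemidirectProduct.inl_injective h1))
  · intro K hK hKN
    let U : AddSubgroup W :=
      { carrier := {w | (SemidirectProduct.inl (Multiplicative.ofAdd w) : SD A W) ∈ K}
        zero_mem' := by
          change (SemidirectProduct.inl (Multiplicative.ofAdd (0 : W)) : SD A W) ∈ K
          rw [ofAdd_zero, map_one]
          exact K.one_mem
        add_mem' := by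
          intro a b ha hb
          change (SemidirectProduct.inl (Multiplicative.ofAdd (a + b)) : SD A W) ∈ K
          rw [ofAdd_add, map_mul]
          exact K.mul_mem ha hb
        neg_mem' := by
          intro a ha
          change (SemidirectProduct.inl (Multiplicative.ofAdd (-a)) : SD A W) ∈ K
          rw [ofAdd_neg, map_inv]
          exact K.inv_mem ha }
    have hU : ∀ w : W, w ∈ U ↔ (SemidirectProduct.inl (Multiplicative.ofAdd w) : SD A W) ∈ K :=
      fun w => Iff.rfl
    have hform : ∀ x ∈ (SemidirectProduct.rightHom : SD A W →* A).ker,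
        x = SemidirectProduct.inl x.left := by
      intro x hx
      rw [MonoidHom.mem_ker] at hx
      have h2 := SemidirectProduct.inl_left_mul_inr_right x
      have h3 : x.right = 1 := hx
      rw [h3, map_one, mul_one] at h2
      exact h2.symm
    rcases hirr U (by
      intro a w hw
      rw [hU] at hw ⊢
      have h1 := hK.conj_mem _ hw (SemidirectProduct.inr a)
      have h2 := SemidirectProduct.inl_aut (φ := phi A W) a (Multiplicative.ofAdd w)
      rw [phi_apply, map_inv] at h2
      rw [h2]
      exact h1) with h | h
    · left
      apply le_bot_iff.1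
      intro x hx
      have h1 := hform x (hKN hx)
      have h2 : Multiplicative.toAdd x.left ∈ U := by
        rw [hU, ofAdd_toAdd, ← h1]
        exact hx
      rw [h, AddSubgroup.mem_bot] at h2
      have h3 : x.left = 1 := by
        rw [← ofAdd_toAdd x.left, h2, ofAdd_zero]
      rw [Subgroup.mem_bot, h1, h3, map_one]
    · right
      apply le_antisymm hKN
      intro x hx
      have h1 := hform x hx
      have h2 : Multiplicative.toAdd x.left ∈ U := by
        rw [h]
        exact AddSubgroup.mem_top _
      rw [hU, ofAdd_toAdd, ← h1] at h2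
      exact h2

/-- G13 -/
theorem RI_of_star {A W : Type*} [Group A] [Finite A] [AddCommGroup W] [Finite W]
    [DistribMulAction A W] (hirr : Irr A W)
    (p : ℕ) [Fact p.Prime] (hp : ∀ w : W, p • w = 0) (h : h1 A W ≤ Dn A W p) :
    RI (SD A W) (SemidirectProduct.rightHom : SD A W →* A).ker := by
  have hfin : Finite (SD A W) :=
    Finite.of_equiv (Multiplicative W × A) SemidirectProduct.equivProd.symm
  let H : Subgroup (SD A W) := (SemidirectProduct.inr : A →* SD A W).range
  let e : A ≃* H := MonoidHom.ofInjective SemidirectProduct.inr_injective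
  let act : DistribMulAction H W := DistribMulAction.compHom W (e.symm : H →* A)
  have hact : ∀ (x : H) (w : W), x • w = e.symm x • w := fun _ _ => rfl
  have hact' : ∀ (a : A) (w : W), e a • w = a • w := by
    intro a w
    rw [hact, e.symm_apply_apply]
  have hse : ∀ x : H, SemidirectProduct.inr (e.symm x) = (x : SD A W) := by
    intro x
    have h1 : ((e (e.symm x) : H) : SD A W) = SemidirectProduct.inr (e.symm x) := rfl
    rw [← h1, e.apply_symm_apply]
  have hs : Spl (SemidirectProduct.rightHom : SD A W →* A).ker H
      (SemidirectProduct.inl : Multiplicative W →* SD A W) := by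
    refine ⟨SemidirectProduct.inl_injective, SemidirectProduct.range_inl_eq_ker_rightHom, ?_, ?_, ?_⟩
    · intro x v
      have h2 := SemidirectProduct.inl_aut (φ := phi A W) (e.symm x) (Multiplicative.ofAdd v)
      rw [phi_apply, map_inv, hse] at h2
      rw [hact]
      exact h2
    · apply le_bot_iff.1
      rintro x ⟨hx1, a, rfl⟩
      have h2 : (SemidirectProduct.rightHom : SD A W →* A) (SemidirectProduct.inr a) = 1 := hx1
      rw [SemidirectProduct.rightHom_inr] at h2
      rw [Subgroup.mem_bot, h2, map_one]
    · rw [eq_top_iff]
      intro x _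
      rw [← SemidirectProduct.inl_left_mul_inr_right x]
      refine Subgroup.mul_mem_sup ?_ ⟨x.right, rfl⟩
      rw [MonoidHom.mem_ker, SemidirectProduct.rightHom_inl]
  have hc : ∀ a ∈ (SemidirectProduct.rightHom : SD A W →* A).ker,
      ∀ b ∈ (SemidirectProduct.rightHom : SD A W →* A).ker, a * b = b * a := by
    intro a ha b hb
    rw [← SemidirectProduct.range_inl_eq_ker_rightHom] at ha hb
    obtain ⟨v, rfl⟩ := ha
    obtain ⟨w, rfl⟩ := hb
    rw [← map_mul, ← map_mul, mul_comm]
  have h1' := spl_count (SemidirectProduct.rightHom : SD A W →* A).ker (G13_min hirr) hc H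
    (SemidirectProduct.inl : Multiplicative W →* SD A W) hs
  rw [G13_h1 e hact'] at h1'
  unfold RI
  have h2 : kk (SD A W ⧸ (SemidirectProduct.rightHom : SD A W →* A).ker) = kk A :=
    A26_kk (QuotientGroup.quotientKerEquivOfSurjective _ SemidirectProduct.rightHom_surjective)
  rw [h2, kk_SD p hp, add_comm]
  exact Nat.add_le_add_left (h1'.trans h) _

end G13

end MG
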