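import Pool.Agent.helper81.MG.Defs

set_option autoImplicit false

/-! Row mg:N01 (helper23): a default set exists. -/

namespace MG

open MX

open scoped MatrixGroups

/-- N01 -/
theorem exists_default {A : Type*} [Group A] [Finite A] (L : Subgroup A) [L.Normal] :
    ∃ D : Set A, Dflt L D ∧
      {c : ConjClasses A | ∃ a, c = ConjClasses.mk a ∧ a ∉ D}.ncard + kk (A ⧸ L) = kk A := by
  classical
  have hfin : Finite (ConjClasses A) := Finite.of_surjective _ ConjClasses.mk_surjective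
  let f : ConjClasses A → ConjClasses (A ⧸ L) := ConjClasses.map (QuotientGroup.mk' L)
  have hfmk : ∀ a : A, f (ConjClasses.mk a) = ConjClasses.mk (QuotientGroup.mk' L a) := fun _ => rfl
  have hf : Function.Surjective f := by
    intro c
    obtain ⟨q, rfl⟩ := ConjClasses.mk_surjective c
    obtain ⟨g, rfl⟩ := QuotientGroup.mk'_surjective L q
    exact ⟨ConjClasses.mk g, rfl⟩
  have hsec : ∃ c : ConjClasses (A ⧸ L) → ConjClasses A, (∀ κ, f (c κ) = κ) ∧
      c (ConjClasses.mk 1) = ConjClasses.mk 1 := by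
    choose c₀ hc₀ using hf
    refine ⟨fun κ => if κ = ConjClasses.mk 1 then ConjClasses.mk 1 else c₀ κ, ?_, if_pos rfl⟩
    intro κ
    by_cases h : κ = ConjClasses.mk 1
    · show f (if κ = ConjClasses.mk 1 then ConjClasses.mk 1 else c₀ κ) = κ
      rw [if_pos h, h, hfmk, map_one]
    · show f (if κ = ConjClasses.mk 1 then ConjClasses.mk 1 else c₀ κ) = κ
      rw [if_neg h, hc₀]
  obtain ⟨c, hc, hc1⟩ := hsec
  have hinj : Function.Injective c := fun x y h => by rw [← hc x, ← hc y, h]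
  refine ⟨{a | ConjClasses.mk a ∈ Set.range c}, ⟨?_, ?_, ?_, ?_⟩, ?_⟩
  · intro a ha g
    have h1 : ConjClasses.mk (g * a * g⁻¹) = ConjClasses.mk a := by
      rw [ConjClasses.mk_eq_mk_iff_isConj]
      exact (isConj_iff.2 ⟨g, rfl⟩).symm
    show ConjClasses.mk (g * a * g⁻¹) ∈ Set.range c
    rw [h1]
    exact ha
  · intro a
    obtain ⟨b, hb⟩ := ConjClasses.mk_surjective (c (f (ConjClasses.mk a)))
    have h1 : f (ConjClasses.mk b) = f (ConjClasses.mk a) := by rw [hb, hc]
    rw [hfmk, hfmk, ConjClasses.mk_eq_mk_iff_isConj, isConj_iff] at h1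
    obtain ⟨q, hq⟩ := h1
    obtain ⟨h, rfl⟩ := QuotientGroup.mk'_surjective L q
    refine ⟨a⁻¹ * (h * b * h⁻¹), ?_, ?_⟩
    · have h2 : QuotientGroup.mk' L (a⁻¹ * (h * b * h⁻¹)) = 1 := by
        rw [map_mul, map_inv, map_mul, map_mul, map_inv, hq, inv_mul_cancel]
      exact (QuotientGroup.eq_one_iff _).1 h2
    · show ConjClasses.mk (a * (a⁻¹ * (h * b * h⁻¹))) ∈ Set.range c
      rw [mul_inv_cancel_left]
      have h3 : ConjClasses.mk (h * b * h⁻¹) = ConjClasses.mk b := by
        rw [ConjClasses.mk_eq_mk_iff_isConj]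
        exact (isConj_iff.2 ⟨h, rfl⟩).symm
      rw [h3, hb]
      exact ⟨_, rfl⟩
  · intro a haL ha
    obtain ⟨κ, hκ⟩ := ha
    have h1 : f (ConjClasses.mk a) = ConjClasses.mk 1 := by
      rw [hfmk]
      congr 1
      exact (QuotientGroup.eq_one_iff a).2 haL
    have h2 : κ = ConjClasses.mk 1 := by rw [← hc κ, hκ, h1]
    rw [h2, hc1, ConjClasses.mk_eq_mk_iff_isConj, isConj_iff] at hκ
    obtain ⟨g, hg⟩ := hκ
    rw [← hg]
    group
  · exact ⟨_, hc1⟩
  · have h1 : {c' : ConjClasses A | ∃ a, c' = ConjClasses.mk a ∧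
        a ∉ {a | ConjClasses.mk a ∈ Set.range c}} = (Set.range c)ᶜ := by
      ext x
      constructor
      · rintro ⟨a, rfl, ha⟩
        exact ha
      · intro hx
        obtain ⟨a, rfl⟩ := ConjClasses.mk_surjective x
        exact ⟨a, rfl, hx⟩
    have h2 : (Set.range c).ncard = kk (A ⧸ L) := by
      rw [← Set.image_univ, Set.ncard_image_of_injective _ hinj, Set.ncard_univ]
      rfl
    rw [h1, ← h2, add_comm]
    exact Set.ncard_add_ncard_compl (Set.range c)

end MG
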