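import Pool.Agent.helper81.MG.Defs
import Pool.Agent.helper81.MX.C01

set_option autoImplicit false

/-! Row mg:N02 (helper23). -/

namespace MG

open MX

open scoped MatrixGroups

theorem N02_mem {G : Type*} [Group G] (L : Subgroup G) (D : Set (AA L))
    (hD : ∀ a ∈ D, ∀ g : AA L, g * a * g⁻¹ ∈ D) (g r : G) :
    ((r : G ⧸ TT L) ∈ MkD L D g ↔ r⁻¹ * g * r ∈ TT L ∧ pa L (r⁻¹ * g * r) ∉ D) := by
  constructor
  · rintro ⟨r', hr', h1, h2⟩
    have ht : r'⁻¹ * r ∈ TT L := QuotientGroup.eq.1 hr'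
    have e : r⁻¹ * g * r = (r'⁻¹ * r)⁻¹ * (r'⁻¹ * g * r') * (r'⁻¹ * r) := by group
    have hmem : r⁻¹ * g * r ∈ TT L := by
      rw [e]
      exact Subgroup.mul_mem _ (Subgroup.mul_mem _ (Subgroup.inv_mem _ ht) h1) ht
    refine ⟨hmem, ?_⟩
    intro h
    apply h2
    rw [e, C01_pa L _ _ h1 ht] at h
    have h3 := hD _ h (pa L (r'⁻¹ * r))
    have e2 : pa L (r'⁻¹ * r) * ((pa L (r'⁻¹ * r))⁻¹ * pa L (r'⁻¹ * g * r') * pa L (r'⁻¹ * r)) *
        (pa L (r'⁻¹ * r))⁻¹ = pa L (r'⁻¹ * g * r') := by group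
    rwa [e2] at h3
  · rintro ⟨h1, h2⟩
    exact ⟨r, rfl, h1, h2⟩

/-- N02 -/
theorem MkD_conj {G : Type*} [Group G] [Finite G] (L : Subgroup G) (D : Set (AA L))
    (hD : ∀ a ∈ D, ∀ g : AA L, g * a * g⁻¹ ∈ D) (g h : G) :
    MkD L D (h * g * h⁻¹) = (fun i : G ⧸ TT L => h • i) '' MkD L D g ∧
    (MkD L D (h * g * h⁻¹)).ncard = (MkD L D g).ncard ∧
    (∀ r : G, ((r : G ⧸ TT L) ∈ MkD L D g ↔
      r⁻¹ * g * r ∈ TT L ∧ pa L (r⁻¹ * g * r) ∉ D)) := by
  have key : MkD L D (h * g * h⁻¹) = (fun i : G ⧸ TT L => h • i) '' MkD L D g := by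
    ext i
    induction i using QuotientGroup.induction_on with
    | H r =>
      rw [N02_mem L D hD]
      constructor
      · intro hr
        refine ⟨((h⁻¹ * r : G) : G ⧸ TT L), ?_, ?_⟩
        · rw [N02_mem L D hD]
          have e : (h⁻¹ * r)⁻¹ * g * (h⁻¹ * r) = r⁻¹ * (h * g * h⁻¹) * r := by group
          rw [e]; exact hr
        · show ((h * (h⁻¹ * r) : G) : G ⧸ TT L) = (r : G ⧸ TT L)
          rw [mul_inv_cancel_left]
      · rintro ⟨j, hj, hji⟩
        induction j using QuotientGroup.induction_on with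
        | H s =>
          have h1 : ((h * s : G) : G ⧸ TT L) = (r : G ⧸ TT L) := hji
          have h2 : ((h⁻¹ * r : G) : G ⧸ TT L) = (s : G ⧸ TT L) := by
            rw [QuotientGroup.eq] at h1 ⊢
            have e : (h⁻¹ * r)⁻¹ * s = ((h * s)⁻¹ * r)⁻¹ := by group
            rw [e]
            exact Subgroup.inv_mem _ h1
          rw [← h2, N02_mem L D hD] at hj
          have e : (h⁻¹ * r)⁻¹ * g * (h⁻¹ * r) = r⁻¹ * (h * g * h⁻¹) * r := by group
          rw [e] at hj; exact hj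
  refine ⟨key, ?_, N02_mem L D hD g⟩
  rw [key]
  exact Set.ncard_image_of_injective _ (MulAction.injective h)

end MG
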