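import Pool.Agent.helper81.MG.N03

set_option autoImplicit false

/-! Row mg:N04 (helper23). -/

namespace MG

open MX

open scoped MatrixGroups

/-- N04 -/
theorem Z0D_count {G : Type*} [Group G] [Finite G] {L N : Subgroup G} [N.Normal] (hMf : Mfac L N)
    (D : Set (AA L)) (hD : Dflt (LA L) D) : kk (G ⧸ N) ≤ (ZmD L D 0).ncard := by
  have hfin : Finite (ConjClasses G) := Finite.of_surjective _ ConjClasses.mk_surjective
  have himg : (ConjClasses.map (QuotientGroup.mk' N)) '' (ZmD L D 0) = Set.univ := by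
    rw [Set.eq_univ_iff_forall]
    intro c
    obtain ⟨q, rfl⟩ := ConjClasses.mk_surjective c
    obtain ⟨g, rfl⟩ := QuotientGroup.mk_surjective q
    obtain ⟨n, hn, h0⟩ := (adjustD hMf D hD g).1
    refine ⟨ConjClasses.mk (g * n), ⟨g * n, rfl, by rw [h0, Set.ncard_empty]⟩, ?_⟩
    have h1 : QuotientGroup.mk' N (g * n) = (g : G ⧸ N) := by
      rw [map_mul]
      have h2 : QuotientGroup.mk' N n = 1 := (QuotientGroup.eq_one_iff n).2 hn
      rw [h2, mul_one]
      rfl
    show ConjClasses.mk (QuotientGroup.mk' N (g * n)) = ConjClasses.mk (g : G ⧸ N)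
    rw [h1]
  have h3 := Set.ncard_image_le (f := ConjClasses.map (QuotientGroup.mk' N))
    (Set.toFinite (ZmD L D 0))
  rw [himg, Set.ncard_univ] at h3
  exact h3

end MG
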