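import Pool.Agent.helper81.MG.N02
import Pool.Agent.helper81.MX.C02

set_option autoImplicit false

/-! Row mg:N03 (helper23): adjusting an element by an element of `N`. -/

namespace MG

open MX

open scoped MatrixGroups

/-- N03 -/
theorem adjustD {G : Type*} [Group G] [Finite G] {L N : Subgroup G} (hMf : Mfac L N)
    (D : Set (AA L)) (hD : Dflt (LA L) D) (g : G) :
    (∃ n ∈ N, MkD L D (g * n) = ∅) ∧
    (g ∈ TT L → ∀ a : AA L, (pa L g)⁻¹ * a ∈ LA L → ∃ n ∈ N, pa L (g * n) = a ∧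
      ∀ i ∈ MkD L D (g * n), i = ((1 : G) : G ⧸ TT L)) := by
  classical
  obtain ⟨p1, p2, p3, p4, p5, p6, p7, p8, p9, p10⟩ := pa_basic L
  -- the default component
  have hdef : ∀ s : G, ∃ x ∈ L, pa L (s⁻¹ * g * s) * pa L x ∈ D := by
    intro s
    obtain ⟨l, hl, h1⟩ := hD.meet (pa L (s⁻¹ * g * s))
    obtain ⟨x, hx, rfl⟩ := p7 l hl
    exact ⟨x, hx, h1⟩
  choose X hX1 hX2 using hdef
  -- representatives
  let r : G ⧸ TT L → G := fun i => if i = ((1 : G) : G ⧸ TT L) then 1 else Quotient.out i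
  have hr : ∀ i, (r i : G ⧸ TT L) = i := by
    intro i
    by_cases hi : i = ((1 : G) : G ⧸ TT L)
    · simp only [r, if_pos hi]
      exact hi.symm
    · simp only [r, if_neg hi]
      exact Quotient.out_eq' i
  have hr1 : r ((1 : G) : G ⧸ TT L) = 1 := by simp [r]
  have hr2 : ∀ i j, i ≠ j → (r i)⁻¹ * r j ∉ Subgroup.normalizer (L : Set G) := by
    intro i j hij h
    apply hij
    rw [← hr i, ← hr j]
    exact QuotientGroup.eq.2 h
  have hmark : ∀ (g' : G) (i : G ⧸ TT L), i ∈ MkD L D g' →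
      (r i)⁻¹ * g' * r i ∈ TT L ∧ pa L ((r i)⁻¹ * g' * r i) ∉ D := by
    intro g' i hi
    rw [← N02_mem L D hD.conj, hr i]
    exact hi
  constructor
  · obtain ⟨n, hn, h1, _⟩ := comp_exists hMf r hr2 (fun i => X (r i)) (fun i => hX1 _)
    refine ⟨n, hn, ?_⟩
    rw [Set.eq_empty_iff_forall_notMem]
    intro i hi
    obtain ⟨h2, h3⟩ := hmark (g * n) i hi
    obtain ⟨_, h4⟩ := C02_pa (r i) n g (X (r i)) (hX1 _) (h1 i) h2
    rw [h4] at h3
    exact h3 (hX2 (r i))
  · intro hg a ha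
    obtain ⟨x, hx, hxa⟩ := p7 _ ha
    obtain ⟨n, hn, h1, _⟩ := comp_exists hMf r hr2
      (fun i => if i = ((1 : G) : G ⧸ TT L) then x else X (r i))
      (fun i => by
        by_cases hi : i = ((1 : G) : G ⧸ TT L)
        · simp only [if_pos hi]; exact hx
        · simp only [if_neg hi]; exact hX1 _)
    refine ⟨n, hn, ?_, ?_⟩
    · have h2 := h1 ((1 : G) : G ⧸ TT L)
      rw [if_pos rfl, hr1] at h2
      have hnN : n ∈ TT L := (Mfac_basic hMf).2.1 hn
      have hm : (1 : G)⁻¹ * (g * n) * 1 ∈ TT L := by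
        rw [inv_one, one_mul, mul_one]
        exact mul_mem hg hnN
      obtain ⟨_, h4⟩ := C02_pa 1 n g x hx h2 hm
      rw [inv_one, one_mul, mul_one, one_mul, mul_one, hxa] at h4
      rw [h4, mul_inv_cancel_left]
    · intro i hi
      by_contra hne
      obtain ⟨h2, h3⟩ := hmark (g * n) i hi
      have h5 := h1 i
      rw [if_neg hne] at h5
      obtain ⟨_, h4⟩ := C02_pa (r i) n g (X (r i)) (hX1 _) h5 h2
      rw [h4] at h3
      exact h3 (hX2 (r i))

end MG
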