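import Pool.Agent.helper81.MG.Defs

set_option autoImplicit false

/-! Row mg:N05 (helper44): separation of the kernels. -/

namespace MG

open MX

open scoped MatrixGroups

theorem N05_key {H K : Type*} [Group H] [Group K] (ρ : H →* K) (hρ : Function.Surjective ρ)
    (hs : IsSimpleGroup K) (hnc : ∃ a b : K, a * b ≠ b * a) (A B : Subgroup H) (hAn : A.Normal)
    (hBn : B.Normal) (hA : A.map ρ = ⊤) (hB : B.map ρ = ⊤) : (A ⊓ B).map ρ = ⊤ := by
  have hn : ((A ⊓ B).map ρ).Normal := Subgroup.Normal.map inferInstance ρ hρ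
  rcases hs.eq_bot_or_eq_top_of_normal _ hn with h | h
  · exfalso
    obtain ⟨a, b, hab⟩ := hnc
    have ha : a ∈ A.map ρ := by rw [hA]; trivial
    have hb : b ∈ B.map ρ := by rw [hB]; trivial
    obtain ⟨a', ha', rfl⟩ := ha
    obtain ⟨b', hb', rfl⟩ := hb
    have hc : a' * b' * a'⁻¹ * b'⁻¹ ∈ A ⊓ B := by
      constructor
      · have h1 : a' * b' * a'⁻¹ * b'⁻¹ = a' * (b' * a'⁻¹ * b'⁻¹) := by group
        rw [h1]
        exact A.mul_mem ha' (hAn.conj_mem _ (A.inv_mem ha') b')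
      · exact B.mul_mem (hBn.conj_mem _ hb' a') (B.inv_mem hb')
    have h2 : ρ (a' * b' * a'⁻¹ * b'⁻¹) ∈ (A ⊓ B).map ρ := ⟨_, hc, rfl⟩
    rw [h, Subgroup.mem_bot] at h2
    apply hab
    rw [map_mul, map_mul, map_mul, map_inv, map_inv] at h2
    rw [mul_inv_eq_one, mul_inv_eq_iff_eq_mul] at h2
    exact h2
  · exact h

/-- N05 -/
theorem QG_sep {G : Type*} [Group G] [Finite G] {L N : Subgroup G} (hs : IsSimpleGroup L)
    (hnc : ∃ a ∈ L, ∃ b ∈ L, a * b ≠ b * a) (Q : Subgroup G) (hQ : Q ∈ QG L N)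
    (ρ : ↥(L ⊔ CC L) →* L) (hρ : Function.Surjective ρ) (hk : ρ.ker = Q.subgroupOf (L ⊔ CC L))
    (x : L) : ∃ y : ↥(L ⊔ CC L), ρ y = x ∧ ∀ Q' ∈ QG L N, Q' ≠ Q → (y : G) ∈ Q' := by
  have hnc' : ∃ a b : L, a * b ≠ b * a := by
    obtain ⟨a, ha, b, hb, hab⟩ := hnc
    exact ⟨⟨a, ha⟩, ⟨b, hb⟩, fun h => hab (congrArg Subtype.val h)⟩
  have hker : ∀ Q' ∈ QG L N, (Q'.subgroupOf (L ⊔ CC L)).Normal ∧
      (Q'.subgroupOf (L ⊔ CC L)).index = Nat.card L := by
    rintro Q' ⟨-, -, -, ρ', hρ', hk'⟩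
    rw [← hk']
    refine ⟨inferInstance, ?_⟩
    rw [Subgroup.index_ker, MonoidHom.range_eq_top.2 hρ', Subgroup.card_top]
  have hone : ∀ Q' ∈ QG L N, Q' ≠ Q → (Q'.subgroupOf (L ⊔ CC L)).map ρ = ⊤ := by
    intro Q' hQ' hne
    have hn : ((Q'.subgroupOf (L ⊔ CC L)).map ρ).Normal := (hker Q' hQ').1.map ρ hρ
    rcases hs.eq_bot_or_eq_top_of_normal _ hn with h | h
    · exfalso
      apply hne
      have h1 : Q'.subgroupOf (L ⊔ CC L) ≤ Q.subgroupOf (L ⊔ CC L) := by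
        rw [← hk]
        exact (Subgroup.map_eq_bot_iff _).1 h
      have h2 : Q'.subgroupOf (L ⊔ CC L) = Q.subgroupOf (L ⊔ CC L) := by
        apply le_antisymm h1
        have h3 := Subgroup.relIndex_mul_index h1
        rw [(hker Q' hQ').2, (hker Q hQ).2] at h3
        have h4 : 0 < Nat.card L := Nat.card_pos
        have h5 : (Q'.subgroupOf (L ⊔ CC L)).relIndex (Q.subgroupOf (L ⊔ CC L)) = 1 := by
          apply Nat.eq_of_mul_eq_mul_right h4
          rw [h3, one_mul]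
        exact Subgroup.relIndex_eq_one.1 h5
      have h6 : Q' ≤ L ⊔ CC L := hQ'.2.1
      have h7 : Q ≤ L ⊔ CC L := hQ.2.1
      have h8 := Subgroup.subgroupOf_inj.1 h2
      rwa [inf_eq_left.2 h6, inf_eq_left.2 h7] at h8
    · exact h
  have hfin : (QG L N \ {Q}).Finite := Set.toFinite _
  have hmain : ∀ s : Set (Subgroup G), s.Finite → s ⊆ QG L N \ {Q} →
      (⨅ Q' ∈ s, Q'.subgroupOf (L ⊔ CC L)).map ρ = ⊤ ∧ (⨅ Q' ∈ s, Q'.subgroupOf (L ⊔ CC L)).Normal := by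
    intro s hsf
    induction s, hsf using Set.Finite.induction_on with
    | empty =>
      intro _
      simp only [Set.mem_empty_iff_false, iInf_false, iInf_top]
      exact ⟨Subgroup.map_top_of_surjective ρ hρ, inferInstance⟩
    | insert _ _ ih =>
      intro hsub
      rw [iInf_insert]
      have h1 := ih ((Set.subset_insert _ _).trans hsub)
      have h2 := hsub (Set.mem_insert _ _)
      have h3 := (hker _ h2.1).1
      have h4 := h1.2
      exact ⟨N05_key ρ hρ hs hnc' _ _ h3 h4 (hone _ h2.1 h2.2) h1.1, inferInstance⟩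
  have h1 : x ∈ (⨅ Q' ∈ QG L N \ {Q}, Q'.subgroupOf (L ⊔ CC L)).map ρ := by
    rw [(hmain _ hfin le_rfl).1]
    trivial
  obtain ⟨y, hy, hyx⟩ := h1
  refine ⟨y, hyx, fun Q' hQ' hne => ?_⟩
  have h2 : y ∈ ⨅ Q' ∈ QG L N \ {Q}, Q'.subgroupOf (L ⊔ CC L) := hy
  rw [Subgroup.mem_iInf] at h2
  have h3 := h2 Q'
  rw [Subgroup.mem_iInf] at h3
  exact Subgroup.mem_subgroupOf.1 (h3 ⟨hQ', hne⟩)

end MG
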