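import Pool.Agent.helper81.MG.Defs
import Pool.Agent.helper81.MG.N02
import Pool.Agent.helper81.MG.N03
import Pool.Agent.helper81.MG.N05
import Pool.Agent.helper81.MX.M02
import Pool.Agent.helper81.MX.M07

set_option autoImplicit false

/-! Row mg:N06 (helper98): the classes with exactly one mark. -/

namespace MG

open MX

open scoped MatrixGroups

theorem N06_aut {T A : Type*} [Group T] [Group A] (ρ₀ ρ : T →* A) (h0 : Function.Surjective ρ₀)
    (h1 : Function.Surjective ρ) (hk : ∀ g, ρ₀ g = 1 ↔ ρ g = 1) :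
    ∃ β : MulAut A, ∀ g, β (ρ₀ g) = ρ g := by
  have hker : ρ₀.ker ≤ ρ.ker := by
    intro g hg
    rw [MonoidHom.mem_ker] at hg ⊢
    exact (hk g).1 hg
  obtain ⟨β, hβ⟩ : ∃ β : A →* A, ∀ g, β (ρ₀ g) = ρ g :=
    ⟨ρ₀.liftOfSurjective h0 ⟨ρ, hker⟩, fun g =>
      ρ₀.liftOfRightInverse_comp_apply _ _ ⟨ρ, hker⟩ g⟩
  have hinj : Function.Injective β := by
    rw [injective_iff_map_eq_one]
    intro a ha
    obtain ⟨g, rfl⟩ := h0 a
    rw [hβ] at ha
    exact (hk g).2 ha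
  have hsurj : Function.Surjective β := by
    intro y
    obtain ⟨g, rfl⟩ := h1 y
    exact ⟨ρ₀ g, hβ g⟩
  exact ⟨MulEquiv.ofBijective β ⟨hinj, hsurj⟩, hβ⟩

/-- conjugation by `h ∈ TT L` on `L ⊔ CC L` -/
theorem N06_T0 {G : Type*} [Group G] {L : Subgroup G} {h : G} (hh : h ∈ TT L) :
    ∀ u ∈ L ⊔ CC L, h * u * h⁻¹ ∈ L ⊔ CC L := by
  have hL : ∀ x ∈ L, h * x * h⁻¹ ∈ L := fun x hx => (Subgroup.mem_normalizer_iff.1 hh x).1 hx
  have hinv : h⁻¹ ∈ TT L := inv_mem hh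
  have hL' : ∀ x ∈ L, h⁻¹ * x * h ∈ L := by
    intro x hx
    have := (Subgroup.mem_normalizer_iff.1 hinv x).1 hx
    rwa [inv_inv] at this
  have hC : ∀ x ∈ CC L, h * x * h⁻¹ ∈ CC L := by
    intro x hx
    rw [Subgroup.mem_centralizer_iff] at hx ⊢
    intro l hl
    have h1 := hx _ (hL' l hl)
    calc l * (h * x * h⁻¹) = h * ((h⁻¹ * l * h) * x) * h⁻¹ := by group
      _ = h * (x * (h⁻¹ * l * h)) * h⁻¹ := by rw [h1]
      _ = h * x * h⁻¹ * l := by group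
  have h2 : L ⊔ CC L ≤ cj h⁻¹ (L ⊔ CC L) := by
    refine sup_le ?_ ?_
    · intro x hx
      rw [mem_cj, inv_inv]
      exact Subgroup.mem_sup_left (hL x hx)
    · intro x hx
      rw [mem_cj, inv_inv]
      exact Subgroup.mem_sup_right (hC x hx)
  intro u hu
  have h3 := h2 hu
  rwa [mem_cj, inv_inv] at h3

/-- the automorphism of `L` induced on a quotient of `L ⊔ CC L` -/
theorem N06_ind {G : Type*} [Group G] {L N : Subgroup G} (Q : Subgroup G) (hQ : Q ∈ QG L N)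
    (ρ : ↥(L ⊔ CC L) →* L) (hρ : Function.Surjective ρ) (hk : ρ.ker = Q.subgroupOf (L ⊔ CC L))
    (h : G) (hh : h ∈ TT L) : ∃ β : MulAut L, ∀ (u : G) (hu : u ∈ L ⊔ CC L)
      (hu' : h * u * h⁻¹ ∈ L ⊔ CC L), β (ρ ⟨u, hu⟩) = ρ ⟨h * u * h⁻¹, hu'⟩ := by
  have hT0 := N06_T0 hh
  have hT0' := N06_T0 (L := L) (inv_mem hh)
  let c : ↥(L ⊔ CC L) →* ↥(L ⊔ CC L) :=
    { toFun := fun u => ⟨h * u * h⁻¹, hT0 u u.2⟩
      map_one' := by
        apply Subtype.ext
        show h * 1 * h⁻¹ = 1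
        group
      map_mul' := by
        intro u v
        apply Subtype.ext
        show h * ((u : G) * (v : G)) * h⁻¹ = (h * (u : G) * h⁻¹) * (h * (v : G) * h⁻¹)
        group }
  have hc : ∀ u, ((c u : ↥(L ⊔ CC L)) : G) = h * u * h⁻¹ := fun _ => rfl
  have hcs : Function.Surjective c := by
    intro v
    refine ⟨⟨h⁻¹ * v * h, ?_⟩, ?_⟩
    · have := hT0' v v.2
      rwa [inv_inv] at this
    · apply Subtype.ext
      show h * (h⁻¹ * (v : G) * h) * h⁻¹ = v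
      group
  have hQc : ∀ u : ↥(L ⊔ CC L), ρ u = 1 ↔ (u : G) ∈ Q := by
    intro u
    rw [← MonoidHom.mem_ker, hk, Subgroup.mem_subgroupOf]
  have hinv := hQ.2.2.1
  obtain ⟨β, hβ⟩ := N06_aut ρ (ρ.comp c) hρ (hρ.comp hcs) (by
    intro u
    rw [MonoidHom.comp_apply, hQc, hQc, hc]
    constructor
    · intro hu
      exact hinv h hh _ hu
    · intro hu
      have h1 := hinv h⁻¹ (inv_mem hh) _ hu
      have e : h⁻¹ * (h * (u : G) * h⁻¹) * h⁻¹⁻¹ = u := by group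
      rwa [e] at h1)
  refine ⟨β, ?_⟩
  intro u hu hu'
  rw [hβ]
  rfl

theorem N06_key {G : Type*} [Group G] {L N : Subgroup G} (D : Set (AA L)) (hNT : N ≤ TT L)
    (h01' : ∀ g r : G, ((r : G ⧸ TT L) ∈ MkD L D g ↔
      r⁻¹ * g * r ∈ TT L ∧ pa L (r⁻¹ * g * r) ∉ D))
    (h02 : ∀ g ∈ TT L, ∀ a : AA L, (pa L g)⁻¹ * a ∈ LA L → ∃ n ∈ N, pa L (g * n) = a ∧
      ∀ i ∈ MkD L D (g * n), i = ((1 : G) : G ⧸ TT L))
    (g : G) (hg : g ∈ TT L) (a : AA L) (ha : (pa L g)⁻¹ * a ∈ LA L) (hD : a ∉ D) :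
    ∃ g' : G, g⁻¹ * g' ∈ N ∧ g' ∈ TT L ∧ pa L g' = a ∧ MkD L D g' = {((1 : G) : G ⧸ TT L)} := by
  obtain ⟨n, hn, h1, h2⟩ := h02 g hg a ha
  have hgn : g * n ∈ TT L := mul_mem hg (hNT hn)
  refine ⟨g * n, by simpa using hn, hgn, h1, ?_⟩
  refine Set.Subset.antisymm (fun i hi => h2 i hi) ?_
  intro i hi
  rw [Set.mem_singleton_iff] at hi
  rw [hi, h01' (g * n) 1]
  have e : (1 : G)⁻¹ * (g * n) * 1 = g * n := by group
  rw [e, h1]
  exact ⟨hgn, hD⟩

theorem N06_fix {G : Type*} [Group G] {L : Subgroup G} (D : Set (AA L))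
    (h01 : ∀ g h : G, MkD L D (h * g * h⁻¹) = (fun i : G ⧸ TT L => h • i) '' MkD L D g)
    (g g' h : G) (hg : MkD L D g = {((1 : G) : G ⧸ TT L)})
    (hg' : MkD L D g' = {((1 : G) : G ⧸ TT L)})
    (he : h * g * h⁻¹ = g') : h ∈ TT L := by
  have h1 := h01 g h
  rw [he, hg', hg, Set.image_singleton, Set.singleton_eq_singleton_iff] at h1
  have h2 : ((1 : G) : G ⧸ TT L) = ((h * 1 : G) : G ⧸ TT L) := h1
  rw [QuotientGroup.eq] at h2
  simpa using h2

/-- membership in the kernels is invariant -/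
theorem N06_inj {G : Type*} [Group G] {L N : Subgroup G} (y y' z z' h : G) (Q : Subgroup G)
    (hQ : Q ∈ QG L N) (hh : h ∈ TT L) (hz : y⁻¹ * z ∈ N) (hz' : y'⁻¹ * z' ∈ N)
    (he : h * z * h⁻¹ = z') : y ∈ Q ↔ y' ∈ Q := by
  have hNQ : N ≤ Q := hQ.1
  have hinv := hQ.2.2.1
  have h1 : y ∈ Q ↔ z ∈ Q := by
    constructor
    · intro hy
      have := mul_mem hy (hNQ hz)
      simpa using this
    · intro hzz
      have := mul_mem hzz (inv_mem (hNQ hz))
      simpa using this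
  have h2 : y' ∈ Q ↔ z' ∈ Q := by
    constructor
    · intro hy
      have := mul_mem hy (hNQ hz')
      simpa using this
    · intro hzz
      have := mul_mem hzz (inv_mem (hNQ hz'))
      simpa using this
  rw [h1, h2]
  constructor
  · intro hzz
    rw [← he]
    exact hinv h hh z hzz
  · intro hzz
    have := hinv h⁻¹ (inv_mem hh) z' hzz
    rw [← he] at this
    have e : h⁻¹ * (h * z * h⁻¹) * h⁻¹⁻¹ = z := by group
    rwa [e] at this

/-- N06 -/
theorem Z1D_count {G : Type*} [Group G] [Finite G] {L N : Subgroup G} [N.Normal] (hMf : Mfac L N)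
    (D : Set (AA L)) (hD : Dflt (LA L) D)
    (hc : {c : ConjClasses (AA L) | ∃ a, c = ConjClasses.mk a ∧ a ∉ D}.ncard + kk (AA L ⧸ LA L) =
      kk (AA L)) :
    kk (AA L) + autCl L * autCl L * (QG L N).ncard ≤ (ZmD L D 1).ncard + kk (AA L ⧸ LA L) := by
  classical
  obtain ⟨hLN, hNT, hLCb, hcomp, _⟩ := Mfac_basic hMf
  have hNT' : N ≤ TT L := hNT
  obtain ⟨hpm, hp1, hpi, hpc, hps, hpL, hpLs, hpv, hpLC, hpI⟩ := pa_basic L
  have hLC : L ⊔ CC L ≤ TT L :=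
    sup_le Subgroup.le_normalizer (Subgroup.centralizer_le_normalizer (L : Set G))
  have h01 : ∀ g h : G, MkD L D (h * g * h⁻¹) = (fun i : G ⧸ TT L => h • i) '' MkD L D g :=
    fun g h => (MkD_conj L D hD.conj g h).1
  have h01' : ∀ g r : G, ((r : G ⧸ TT L) ∈ MkD L D g ↔
      r⁻¹ * g * r ∈ TT L ∧ pa L (r⁻¹ * g * r) ∉ D) := fun g r => (MkD_conj L D hD.conj g 1).2.2 r
  have h02 : ∀ g ∈ TT L, ∀ a : AA L, (pa L g)⁻¹ * a ∈ LA L → ∃ n ∈ N, pa L (g * n) = a ∧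
      ∀ i ∈ MkD L D (g * n), i = ((1 : G) : G ⧸ TT L) := fun g hg a ha =>
    (adjustD hMf D hD g).2 hg a ha
  have key := N06_key D hNT' h01' h02
  have hLz : ∀ z ∈ L, z ∈ CC L → z = 1 := by
    intro z hz hz'
    have h1 : z ∈ L ⊓ Subgroup.centralizer (L : Set G) := ⟨hz, hz'⟩
    rw [hLCb, Subgroup.mem_bot] at h1
    exact h1
  -- the marked classes of `AA L`
  let MC : Set (ConjClasses (AA L)) := {c | ∃ a, c = ConjClasses.mk a ∧ a ∉ D}
  have hexA : ∀ c : MC, ∃ g : G, g ∈ TT L ∧ c.1 = ConjClasses.mk (pa L g) ∧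
      MkD L D g = {((1 : G) : G ⧸ TT L)} ∧ (pa L g ∈ LA L → g ∈ N) := by
    rintro ⟨c, a, hca, haD⟩
    by_cases haL : a ∈ LA L
    · obtain ⟨g, h1, h2, h3, h4⟩ := key 1 (one_mem _) a (by rw [hp1, inv_one, one_mul]; exact haL) haD
      refine ⟨g, h2, by rw [h3]; exact hca, h4, fun _ => ?_⟩
      rwa [inv_one, one_mul] at h1
    · obtain ⟨t, ht, hta⟩ := hps a
      obtain ⟨g, h1, h2, h3, h4⟩ := key t ht a (by rw [hta, inv_mul_cancel]; exact one_mem _) haD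
      refine ⟨g, h2, by rw [h3]; exact hca, h4, fun h => ?_⟩
      rw [h3] at h
      exact absurd h haL
  choose gA hA1 hA2 hA3 hA4 using hexA
  -- the other classes
  have hrep : ∀ q : Quotient (autSetoid L), ∃ x : L, ∃ hx : x ≠ 1,
      q = Quotient.mk (autSetoid L) ⟨x, hx⟩ := by
    intro q
    obtain ⟨⟨x, hx⟩, h⟩ := Quotient.exists_rep q
    exact ⟨x, hx, h.symm⟩
  choose xr hxr hxrq using hrep
  have hexρ : ∀ Q : QG L N, ∃ ρ : ↥(L ⊔ CC L) →* L, Function.Surjective ρ ∧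
      ρ.ker = Q.1.subgroupOf (L ⊔ CC L) := fun Q => Q.2.2.2.2
  choose ρ hρ hρk using hexρ
  have hρ1 : ∀ (Q : QG L N) (u : ↥(L ⊔ CC L)), ρ Q u = 1 ↔ (u : G) ∈ Q.1 := by
    intro Q u
    rw [← MonoidHom.mem_ker, hρk, Subgroup.mem_subgroupOf]
  have hexy : ∀ p : QG L N × Quotient (autSetoid L), ∃ y : ↥(L ⊔ CC L), ρ p.1 y = xr p.2 ∧
      ∀ Q' ∈ QG L N, Q' ≠ p.1.1 → (y : G) ∈ Q' := fun p =>
    QG_sep hMf.simple hMf.nc p.1.1 p.1.2 (ρ p.1) (hρ p.1) (hρk p.1) (xr p.2)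
  choose y hy1 hy2 using hexy
  have hyne : ∀ p, (y p : G) ∉ p.1.1 := by
    intro p hp
    have h1 := (hρ1 p.1 (y p)).2 hp
    rw [hy1] at h1
    exact hxr p.2 h1
  have hpz : ∀ r : Quotient (autSetoid L), pa L (xr r) ∈ LA L ∧ pa L (xr r) ∉ D := by
    intro r
    refine ⟨(hpL _ (xr r).2).1, ?_⟩
    intro h
    have h1 := hD.triv _ (hpL _ (xr r).2).1 h
    have h2 := (hpc _ (Subgroup.le_normalizer (xr r).2)).1 h1
    exact hxr r (Subtype.ext (hLz _ (xr r).2 h2))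
  have hexB : ∀ p : (QG L N × Quotient (autSetoid L)) × Quotient (autSetoid L), ∃ g : G,
      (y p.1 : G)⁻¹ * g ∈ N ∧ g ∈ TT L ∧ pa L g = pa L (xr p.2) ∧
      MkD L D g = {((1 : G) : G ⧸ TT L)} := by
    intro p
    refine key (y p.1) (hLC (y p.1).2) (pa L (xr p.2)) ?_ (hpz p.2).2
    exact mul_mem (inv_mem ((hpLC _ (hLC (y p.1).2)).2 (y p.1).2)) (hpz p.2).1
  choose gB hB1 hB2 hB3 hB4 using hexB
  have hmem : ∀ g : G, MkD L D g = {((1 : G) : G ⧸ TT L)} → ConjClasses.mk g ∈ ZmD L D 1 := by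
    intro g hg
    exact ⟨g, rfl, by rw [hg, Set.ncard_singleton]⟩
  have hconj : ∀ g g' h : G, g ∈ TT L → h ∈ TT L → h * g * h⁻¹ = g' →
      pa L h * pa L g * (pa L h)⁻¹ = pa L g' := by
    intro g g' h hg hh he
    rw [← he, hpm _ (mul_mem hh hg) _ (inv_mem hh), hpm _ hh _ hg, hpi _ hh]
  -- injectivity
  have hAA : ∀ c c', ConjClasses.mk (gA c) = ConjClasses.mk (gA c') → c = c' := by
    intro c c' h
    rw [ConjClasses.mk_eq_mk_iff_isConj, isConj_iff] at h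
    obtain ⟨h, hh⟩ := h
    have hT := N06_fix D h01 _ _ h (hA3 c) (hA3 c') hh
    apply Subtype.ext
    rw [hA2 c, hA2 c', ConjClasses.mk_eq_mk_iff_isConj, isConj_iff]
    exact ⟨pa L h, hconj _ _ h (hA1 c) hT hh⟩
  have hAB : ∀ c p, ConjClasses.mk (gA c) ≠ ConjClasses.mk (gB p) := by
    intro c p h
    rw [ConjClasses.mk_eq_mk_iff_isConj, isConj_iff] at h
    obtain ⟨h, hh⟩ := h
    have hT := N06_fix D h01 _ _ h (hA3 c) (hB4 p) hh
    have h1 := hconj _ _ h (hA1 c) hT hh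
    have h2 : pa L (gA c) ∈ LA L := by
      have h3 : pa L (gA c) = (pa L h)⁻¹ * pa L (gB p) * (pa L h)⁻¹⁻¹ := by
        rw [← h1]
        group
      rw [h3, hB3 p]
      exact (LA_normal L).conj_mem _ (hpz p.2).1 _
    have h3 : gA c ∈ N := hA4 c h2
    have h4 : gB p ∈ N := by
      rw [← hh]
      exact (inferInstance : N.Normal).conj_mem _ h3 _
    have h5 : (y p.1 : G) ∈ N := by
      have h6 := mul_mem h4 (inv_mem (hB1 p))
      have e : gB p * ((y p.1 : G)⁻¹ * gB p)⁻¹ = y p.1 := by group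
      rwa [e] at h6
    exact hyne p.1 (p.1.1.2.1 h5)
  have hBB : ∀ p p', ConjClasses.mk (gB p) = ConjClasses.mk (gB p') → p = p' := by
    rintro ⟨⟨Q, q⟩, r⟩ ⟨⟨Q', q'⟩, r'⟩ h
    rw [ConjClasses.mk_eq_mk_iff_isConj, isConj_iff] at h
    obtain ⟨h, hh⟩ := h
    have hT := N06_fix D h01 _ _ h (hB4 _) (hB4 _) hh
    have hQQ : Q = Q' := by
      by_contra hne
      have h1 := N06_inj (y (Q, q) : G) (y (Q', q') : G) _ _ h Q.1 Q.2 hT (hB1 ((Q, q), r))
        (hB1 ((Q', q'), r')) hh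
      exact hyne (Q, q) (h1.2 (hy2 (Q', q') Q.1 Q.2 (fun h2 => hne (Subtype.ext h2))))
    subst hQQ
    have hr : r = r' := by
      rw [hxrq r, hxrq r']
      apply Quotient.sound
      have h1 := hconj _ _ h (hB2 ((Q, q), r)) hT hh
      rw [hB3, hB3] at h1
      refine ⟨((pa L h : AA L) : MulAut L), ?_⟩
      show ((pa L h : AA L) : MulAut L) (xr r) = xr r'
      apply Subtype.ext
      rw [hpv h hT (xr r)]
      have hxrT : (xr r : G) ∈ TT L := Subgroup.le_normalizer (xr r).2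
      have hxrT' : (xr r' : G) ∈ TT L := Subgroup.le_normalizer (xr r').2
      have h2 := hconj _ _ h hxrT hT rfl
      rw [h1] at h2
      have h3 : h * (xr r : G) * h⁻¹ ∈ L := (Subgroup.mem_normalizer_iff.1 hT _).1 (xr r).2
      have h4 : (h * (xr r : G) * h⁻¹) * (xr r' : G)⁻¹ ∈ CC L := by
        rw [← hpc _ (mul_mem (mul_mem (mul_mem hT hxrT) (inv_mem hT)) (inv_mem hxrT')),
          hpm _ (mul_mem (mul_mem hT hxrT) (inv_mem hT)) _ (inv_mem hxrT'), ← h2, hpi _ hxrT',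
          mul_inv_cancel]
      have h5 := hLz _ (mul_mem h3 (inv_mem (xr r').2)) h4
      exact mul_inv_eq_one.1 h5
    have hq : q = q' := by
      rw [hxrq q, hxrq q']
      apply Quotient.sound
      obtain ⟨β, hβ⟩ := N06_ind Q.1 Q.2 (ρ Q) (hρ Q) (hρk Q) h hT
      refine ⟨β, ?_⟩
      show β (xr q) = xr q'
      have hNQ : N ≤ Q.1 := Q.2.1
      have hQT0 : Q.1 ≤ L ⊔ CC L := Q.2.2.1
      have hg0 : gB ((Q, q), r) ∈ L ⊔ CC L := by
        have e : gB ((Q, q), r) = (y (Q, q) : G) * ((y (Q, q) : G)⁻¹ * gB ((Q, q), r)) := by group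
        rw [e]
        exact mul_mem (y (Q, q)).2 (hQT0 (hNQ (hB1 ((Q, q), r))))
      have hg0' : gB ((Q, q'), r') ∈ L ⊔ CC L := by
        have e : gB ((Q, q'), r') = (y (Q, q') : G) * ((y (Q, q') : G)⁻¹ * gB ((Q, q'), r')) := by
          group
        rw [e]
        exact mul_mem (y (Q, q')).2 (hQT0 (hNQ (hB1 ((Q, q'), r'))))
      have e1 : ρ Q ⟨gB ((Q, q), r), hg0⟩ = xr q := by
        have h3 : ρ Q ((y (Q, q))⁻¹ * ⟨gB ((Q, q), r), hg0⟩) = 1 :=
          (hρ1 Q _).2 (hNQ (hB1 ((Q, q), r)))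
        rw [map_mul, map_inv, inv_mul_eq_one] at h3
        rw [← h3]
        exact hy1 (Q, q)
      have e2 : ρ Q ⟨gB ((Q, q'), r'), hg0'⟩ = xr q' := by
        have h3 : ρ Q ((y (Q, q'))⁻¹ * ⟨gB ((Q, q'), r'), hg0'⟩) = 1 :=
          (hρ1 Q _).2 (hNQ (hB1 ((Q, q'), r')))
        rw [map_mul, map_inv, inv_mul_eq_one] at h3
        rw [← h3]
        exact hy1 (Q, q')
      have h4 := hβ _ hg0 (by rw [hh]; exact hg0')
      rw [e1] at h4
      rw [h4, ← e2]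
      congr 1
      exact Subtype.ext hh
    rw [hr, hq]
  -- counting
  have hcard : Nat.card (MC ⊕ ((QG L N × Quotient (autSetoid L)) × Quotient (autSetoid L))) =
      MC.ncard + autCl L * autCl L * (QG L N).ncard := by
    have hfin1 : Finite (QG L N) := Set.toFinite _
    have hfin2 : Finite (Quotient (autSetoid L)) := Quotient.finite _
    have hfin3 : Finite (ConjClasses (AA L)) := Quotient.finite _
    rw [Nat.card_sum, Nat.card_prod, Nat.card_prod, Nat.card_coe_set_eq, Nat.card_coe_set_eq]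
    unfold autCl
    ring
  have hle : Nat.card (MC ⊕ ((QG L N × Quotient (autSetoid L)) × Quotient (autSetoid L))) ≤
      (ZmD L D 1).ncard := by
    have hfinG : Finite (ConjClasses G) := Quotient.finite _
    have hfinZ : Finite (ZmD L D 1) := (Set.toFinite (ZmD L D 1)).to_subtype
    rw [← Nat.card_coe_set_eq (ZmD L D 1)]
    refine Nat.card_le_card_of_injective
      (fun s : MC ⊕ ((QG L N × Quotient (autSetoid L)) × Quotient (autSetoid L)) => match s with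
        | Sum.inl c => (⟨ConjClasses.mk (gA c), hmem _ (hA3 c)⟩ : ZmD L D 1)
        | Sum.inr p => (⟨ConjClasses.mk (gB p), hmem _ (hB4 p)⟩ : ZmD L D 1)) ?_
    rintro (c | p) (c' | p') hss
    · rw [hAA c c' (congrArg Subtype.val hss)]
    · exact absurd (congrArg Subtype.val hss) (hAB c p')
    · exact absurd (congrArg Subtype.val hss).symm (hAB c' p)
    · rw [hBB p p' (congrArg Subtype.val hss)]
  rw [hcard] at hle
  have hMC : MC.ncard + kk (AA L ⧸ LA L) = kk (AA L) := hc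
  omega

end MG
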