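import Pool.Agent.helper81.MG.Defs
import Pool.Agent.helper81.MX.C06

/-! Row mg:N07: classes with two marks. -/

set_option autoImplicit false

namespace MG

open MX

open scoped MatrixGroups

theorem N07_mark {G : Type*} [Group G] {L N : Subgroup G} (hMf : Mfac L N) (D : Set (AA L))
    (hD : Dflt (LA L) D) (y : G) (hy : y ∈ N) : pa L y ∉ D ↔ y ∉ CC L := by
  obtain ⟨b1, b2, b3, b4, b5⟩ := Mfac_basic hMf
  obtain ⟨p1, p2, p3, p4, p5, p6, p7, p8⟩ := pa_basic L
  have hyT := b2 hy
  obtain ⟨l, hl, hlc⟩ := b4 y hy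
  have hlT : l ∈ Subgroup.normalizer (L : Set G) := Subgroup.le_normalizer hl
  have hLA : pa L y ∈ LA L := by
    have e : y = l * (l⁻¹ * y) := by group
    have hcT : l⁻¹ * y ∈ Subgroup.normalizer (L : Set G) :=
      Subgroup.mul_mem _ (Subgroup.inv_mem _ hlT) hyT
    rw [e, p1 l hlT _ hcT, (p4 _ hcT).2 hlc, mul_one]
    exact (p6 l hl).1
  have h1 : pa L y ∈ D ↔ pa L y = 1 := by
    constructor
    · exact hD.triv _ hLA
    · intro h
      rw [h]
      exact hD.one
  rw [h1, p4 y hyT]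

/-- The element used for the overgroup `S` and the unordered pair `q`. -/
def N07_P {G : Type*} [Group G] (L N S : Subgroup G) (q : Sym2 (Quotient (autSetoid L)))
    (n : G) : Prop :=
  n ∈ N ∧ ∃ s ∈ S, s ∉ TT L ∧ ∃ x y : {x : L // x ≠ 1},
    q = s(Quotient.mk (autSetoid L) x, Quotient.mk (autSetoid L) y) ∧
    (x.1 : G)⁻¹ * n ∈ CC L ∧ (y.1 : G)⁻¹ * (s⁻¹ * n * s) ∈ CC L ∧
    ∀ g : G, g⁻¹ ∉ TT L → g⁻¹ * s ∉ TT L → g⁻¹ * n * g ∈ CC L

theorem N07_ex {G : Type*} [Group G] {L N : Subgroup G} (hMf : Mfac L N) (S : Subgroup G)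
    (hS : S ∈ BB L) (q : Sym2 (Quotient (autSetoid L))) : ∃ n, N07_P L N S q n := by
  induction q using Sym2.inductionOn with
  | hf u v =>
    induction u using Quotient.inductionOn with
    | h x =>
      induction v using Quotient.inductionOn with
      | h y =>
        obtain ⟨s, hs, hsT⟩ := SetLike.exists_of_lt (CovBy.lt hS)
        have hr : ∀ i j : Fin 2, i ≠ j → ((![1, s] : Fin 2 → G) i)⁻¹ * (![1, s] : Fin 2 → G) j ∉
            Subgroup.normalizer (L : Set G) := by
          intro i j hij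
          fin_cases i <;> fin_cases j
          · exact absurd rfl hij
          · simpa using hsT
          · intro h
            apply hsT
            have := Subgroup.inv_mem _ h
            simpa using this
          · exact absurd rfl hij
        obtain ⟨n, hn, h1, h2⟩ := comp_exists hMf (![1, s] : Fin 2 → G) hr
          (![(x.1 : G), (y.1 : G)] : Fin 2 → G) (by
            intro i
            fin_cases i
            · exact x.1.2
            · exact y.1.2)
        refine ⟨n, hn, s, hs, hsT, x, y, rfl, ?_, ?_, ?_⟩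
        · have := h1 0
          simpa using this
        · have := h1 1
          simpa using this
        · intro g hg hgs
          apply h2 g
          intro i
          fin_cases i
          · simpa using hg
          · simpa using hgs

theorem N07_ne {G : Type*} [Group G] {L : Subgroup G} (hd : L ⊓ CC L = ⊥)
    (x : {x : L // x ≠ 1}) (y : G) (h : (x.1 : G)⁻¹ * y ∈ CC L) : y ∉ CC L := by
  intro hy
  apply x.2
  have hx : (x.1 : G) ∈ L ⊓ CC L := by
    refine ⟨x.1.2, ?_⟩
    have e : (x.1 : G) = y * ((x.1 : G)⁻¹ * y)⁻¹ := by group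
    rw [e]
    exact (CC L).mul_mem hy ((CC L).inv_mem h)
  rw [hd, Subgroup.mem_bot] at hx
  exact Subtype.ext hx

theorem N07_card {G : Type*} [Group G] {L N S : Subgroup G} [N.Normal] (hMf : Mfac L N)
    (D : Set (AA L)) (hD : Dflt (LA L) D) (n : G) (q : Sym2 (Quotient (autSetoid L)))
    (h : N07_P L N S q n) : (MkD L D n).ncard = 2 := by
  obtain ⟨hn, s, hs, hsT, x, y, hq, h1, h2, h3⟩ := h
  obtain ⟨b1, b2, b3, b4, b5⟩ := Mfac_basic hMf
  have hNn : N.Normal := inferInstance
  have hcj : ∀ r : G, r⁻¹ * n * r ∈ N := by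
    intro r
    have := hNn.conj_mem n hn r⁻¹
    simpa using this
  have hset : MkD L D n = {((1 : G) : G ⧸ TT L), (s : G ⧸ TT L)} := by
    ext i
    constructor
    · rintro ⟨r, rfl, hr1, hr2⟩
      rw [N07_mark hMf D hD _ (hcj r)] at hr2
      by_contra hcon
      apply hr2
      rw [Set.mem_insert_iff, Set.mem_singleton_iff, not_or] at hcon
      apply h3
      · intro h
        apply hcon.1
        rw [QuotientGroup.eq]
        simpa using h
      · intro h
        apply hcon.2
        rw [QuotientGroup.eq]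
        exact h
    · intro hi
      rw [Set.mem_insert_iff, Set.mem_singleton_iff] at hi
      rcases hi with rfl | rfl
      · refine ⟨1, rfl, b2 (hcj 1), ?_⟩
        rw [N07_mark hMf D hD _ (hcj 1)]
        apply N07_ne b3 x
        simpa using h1
      · refine ⟨s, rfl, b2 (hcj s), ?_⟩
        rw [N07_mark hMf D hD _ (hcj s)]
        exact N07_ne b3 y _ h2
  rw [hset, Set.ncard_pair]
  intro h
  rw [QuotientGroup.eq] at h
  apply hsT
  simpa using h

theorem N07_comp {G : Type*} [Group G] {L N : Subgroup G} (hMf : Mfac L N)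
    (n n' h r r' : G) (hc : n' = h * n * h⁻¹) (ht : r'⁻¹ * (h * r) ∈ TT L)
    (x x' : {x : L // x ≠ 1}) (h1 : (x.1 : G)⁻¹ * (r⁻¹ * n * r) ∈ CC L)
    (h1' : (x'.1 : G)⁻¹ * (r'⁻¹ * n' * r') ∈ CC L) :
    Quotient.mk (autSetoid L) x = Quotient.mk (autSetoid L) x' := by
  obtain ⟨b1, b2, b3, b4, b5⟩ := Mfac_basic hMf
  set t : G := r'⁻¹ * (h * r) with htd
  have e1 : r⁻¹ * n * r = t⁻¹ * (r'⁻¹ * n' * r') * t := by
    rw [hc, htd]; group
  have hxt : t⁻¹ * (x'.1 : G) * t ∈ L := by
    have := (Subgroup.mem_normalizer_iff.1 (Subgroup.inv_mem _ ht) (x'.1 : G)).1 x'.1.2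
    simpa using this
  have e2 : (t⁻¹ * (x'.1 : G) * t)⁻¹ * (r⁻¹ * n * r) ∈ CC L := by
    have e3 : (t⁻¹ * (x'.1 : G) * t)⁻¹ * (r⁻¹ * n * r) =
        t⁻¹ * ((x'.1 : G)⁻¹ * (r'⁻¹ * n' * r')) * t := by
      rw [e1]; group
    rw [e3]
    exact C06_conj L t ht _ h1'
  have e4 := C06_uniq b3 (r⁻¹ * n * r) (x.1 : G) (t⁻¹ * (x'.1 : G) * t) x.1.2 hxt h1 e2
  apply Quotient.sound
  refine ⟨L.normalizerMonoidHom ⟨t, ht⟩, ?_⟩
  apply Subtype.ext
  have e5 : ((L.normalizerMonoidHom ⟨t, ht⟩ x.1 : L) : G) = t * (x.1 : G) * t⁻¹ := rfl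
  rw [e5, e4]
  group

theorem N07_inj {G : Type*} [Group G] {L N : Subgroup G} [N.Normal] (hMf : Mfac L N)
    {S S' : Subgroup G} (hS : S ∈ BB L) (hS' : S' ∈ BB L)
    (n n' h : G) (q q' : Sym2 (Quotient (autSetoid L))) (hP : N07_P L N S q n)
    (hP' : N07_P L N S' q' n') (hc : n' = h * n * h⁻¹) : q = q' ∧ S = S' := by
  obtain ⟨hn, s, hs, hsT, x, y, hq, h1, h2, h3⟩ := hP
  obtain ⟨hn', s', hs', hsT', x', y', hq', h1', h2', h3'⟩ := hP'
  obtain ⟨b1, b2, b3, b4, b5⟩ := Mfac_basic hMf
  have hTS : TT L ≤ S := (CovBy.lt hS).le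
  have hTS' : TT L ≤ S' := (CovBy.lt hS').le
  have g1 : (x.1 : G)⁻¹ * ((1 : G)⁻¹ * n * 1) ∈ CC L := by simpa using h1
  have g1' : (x'.1 : G)⁻¹ * ((1 : G)⁻¹ * n' * 1) ∈ CC L := by simpa using h1'
  -- `h T` is marked by `n'`
  have m1 : h ∈ TT L ∨ h⁻¹ * s' ∈ TT L := by
    by_contra hcon
    rw [not_or] at hcon
    have h4 := h3' h (fun hh => hcon.1 (by simpa using Subgroup.inv_mem _ hh)) hcon.2
    have e : h⁻¹ * n' * h = n := by rw [hc]; group
    rw [e] at h4
    exact N07_ne b3 x _ h1 h4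
  have m2 : h * s ∈ TT L ∨ (h * s)⁻¹ * s' ∈ TT L := by
    by_contra hcon
    rw [not_or] at hcon
    have h4 := h3' (h * s) (fun hh => hcon.1 (by simpa using Subgroup.inv_mem _ hh)) hcon.2
    have e : (h * s)⁻¹ * n' * (h * s) = s⁻¹ * n * s := by rw [hc]; group
    rw [e] at h4
    exact N07_ne b3 y _ h2 h4
  have hfin : q = q' ∧ s' ∈ S := by
    rcases m1 with m1 | m1
    · rcases m2 with m2 | m2
      · exfalso
        apply hsT
        have := Subgroup.mul_mem _ (Subgroup.inv_mem _ m1) m2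
        simpa using this
      · constructor
        · have c1 := N07_comp hMf n n' h 1 1 hc (by simpa using m1) x x' g1 g1'
          have c2 := N07_comp hMf n n' h s s' hc (by
            have := Subgroup.inv_mem _ m2
            have e : ((h * s)⁻¹ * s')⁻¹ = s'⁻¹ * (h * s) := by group
            rwa [e] at this) y y' h2 h2'
          rw [hq, hq', c1, c2]
        · have e : s' = h * s * ((h * s)⁻¹ * s') := by group
          rw [e]
          exact S.mul_mem (S.mul_mem (hTS m1) hs) (hTS m2)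
    · rcases m2 with m2 | m2
      · constructor
        · have c1 := N07_comp hMf n n' h 1 s' hc (by
            have := Subgroup.inv_mem _ m1
            have e : (h⁻¹ * s')⁻¹ = s'⁻¹ * (h * 1) := by group
            rwa [e] at this) x y' g1 h2'
          have c2 := N07_comp hMf n n' h s 1 hc (by simpa using m2) y x' h2 g1'
          rw [hq, hq', c1, c2, Sym2.eq_swap]
        · have hh : h ∈ S := by
            have e : h = (h * s) * s⁻¹ := by group
            rw [e]
            exact S.mul_mem (hTS m2) (S.inv_mem hs)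
          have e : s' = h * (h⁻¹ * s') := by group
          rw [e]
          exact S.mul_mem hh (hTS m1)
      · exfalso
        apply hsT
        have := Subgroup.mul_mem _ m1 (Subgroup.inv_mem _ m2)
        have e : h⁻¹ * s' * ((h * s)⁻¹ * s')⁻¹ = s := by group
        rw [e] at this
        exact this
  obtain ⟨hqq, hs'S⟩ := hfin
  refine ⟨hqq, ?_⟩
  have hlt : TT L < S ⊓ S' := by
    refine lt_of_le_of_ne (le_inf hTS hTS') ?_
    intro he
    apply hsT'
    rw [he]
    exact ⟨hs'S, hs'⟩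
  have c1 : S ⊓ S' = S := by
    by_contra hne
    exact (show TT L ⋖ S from hS).2 hlt (lt_of_le_of_ne inf_le_left hne)
  have c2 : S ⊓ S' = S' := by
    by_contra hne
    exact (show TT L ⋖ S' from hS').2 hlt (lt_of_le_of_ne inf_le_right hne)
  rw [← c1, c2]

/-- N07 -/
theorem Z2D_count {G : Type*} [Group G] [Finite G] {L N : Subgroup G} [N.Normal] (hMf : Mfac L N)
    (D : Set (AA L)) (hD : Dflt (LA L) D) :
    autCl L * (autCl L + 1) * (BB L).ncard ≤ 2 * (ZmD L D 2).ncard := by
  classical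
  have hfq : Finite (Quotient (autSetoid L)) := Quotient.finite _
  have : Fintype (Quotient (autSetoid L)) := Fintype.ofFinite _
  have hex : ∀ p : Subgroup G × Sym2 (Quotient (autSetoid L)), p ∈ (BB L) ×ˢ Set.univ →
      ∃ n, N07_P L N p.1 p.2 n := by
    rintro ⟨S, q⟩ ⟨hS, _⟩
    exact N07_ex hMf S hS q
  have hfin : (ZmD L D 2).Finite := Set.toFinite _
  have hcard : 2 * ((BB L) ×ˢ (Set.univ : Set (Sym2 (Quotient (autSetoid L))))).ncard =
      autCl L * (autCl L + 1) * (BB L).ncard := by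
    rw [Set.ncard_prod, Set.ncard_univ, Nat.card_eq_fintype_card, Sym2.card, autCl,
      Nat.card_eq_fintype_card, Nat.choose_two_right, Nat.add_sub_cancel]
    set a := Fintype.card (Quotient (autSetoid L))
    have h2 : (a + 1) * a / 2 * 2 = (a + 1) * a :=
      Nat.div_mul_cancel (by rw [mul_comm]; exact (Nat.even_mul_succ_self a).two_dvd)
    calc 2 * ((BB L).ncard * ((a + 1) * a / 2)) = ((a + 1) * a / 2 * 2) * (BB L).ncard := by ring
      _ = a * (a + 1) * (BB L).ncard := by rw [h2]; ring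
  rw [← hcard]
  apply Nat.mul_le_mul_left
  refine Set.ncard_le_ncard_of_injOn
    (fun p => if h : ∃ n, N07_P L N p.1 p.2 n then ConjClasses.mk h.choose else ConjClasses.mk 1)
    ?_ ?_ hfin
  · intro p hp
    have h := hex p hp
    simp only [dif_pos h]
    exact ⟨_, rfl, N07_card hMf D hD _ p.2 h.choose_spec⟩
  · intro p hp p' hp' heq
    have h := hex p hp
    have h' := hex p' hp'
    simp only [dif_pos h, dif_pos h'] at heq
    rw [ConjClasses.mk_eq_mk_iff_isConj, isConj_iff] at heq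
    obtain ⟨c, hc⟩ := heq
    have hh := N07_inj hMf hp.1 hp'.1 _ _ c p.2 p'.2 h.choose_spec h'.choose_spec hc.symm
    exact Prod.ext hh.2 hh.1

end MG
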