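import Pool.Agent.helper81.MG.Defs
import Pool.Agent.helper81.MG.N01
import Pool.Agent.helper81.MG.N02
import Pool.Agent.helper81.MG.N04
import Pool.Agent.helper81.MG.N06
import Pool.Agent.helper81.MG.N07

/-!
# Row mg:N08
-/

set_option autoImplicit false

namespace MG

open MX

open scoped MatrixGroups

/-- N08 from the counts. -/
theorem N08_of {G : Type*} [Group G] [Finite G] {L N : Subgroup G} [N.Normal]
    (D : Set (AA L)) (hconj : ∀ g h : G, (MkD L D (h * g * h⁻¹)).ncard = (MkD L D g).ncard)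
    (h0 : kk (G ⧸ N) ≤ (ZmD L D 0).ncard)
    (h1 : kk (AA L) + autCl L * autCl L * (QG L N).ncard ≤ (ZmD L D 1).ncard + kk (AA L ⧸ LA L))
    (h2 : autCl L * (autCl L + 1) * (BB L).ncard ≤ 2 * (ZmD L D 2).ncard) :
    2 * kk (G ⧸ N) + 2 * kk (AA L) + 2 * autCl L * autCl L * (QG L N).ncard +
      autCl L * (autCl L + 1) * (BB L).ncard ≤ 2 * kk G + 2 * kk (AA L ⧸ LA L) := by
  classical
  have : Finite (ConjClasses G) := inferInstanceAs (Finite (Quotient (IsConj.setoid G)))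
  have hdis : ∀ i j : ℕ, i ≠ j → Disjoint (ZmD L D i) (ZmD L D j) := by
    intro i j hij
    rw [Set.disjoint_left]
    rintro c ⟨g, hg, hgi⟩ ⟨g', hg', hgj⟩
    apply hij
    have hc : IsConj g g' := ConjClasses.mk_eq_mk_iff_isConj.1 (hg.symm.trans hg')
    obtain ⟨h, hh⟩ := isConj_iff.1 hc
    have := hconj g h
    rw [hh, hgi, hgj] at this
    exact this.symm
  have hu : (ZmD L D 0 ∪ ZmD L D 1 ∪ ZmD L D 2).ncard =
      (ZmD L D 0).ncard + (ZmD L D 1).ncard + (ZmD L D 2).ncard := by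
    rw [Set.ncard_union_eq _ (Set.toFinite _) (Set.toFinite _),
      Set.ncard_union_eq (hdis 0 1 (by norm_num)) (Set.toFinite _) (Set.toFinite _)]
    rw [Set.disjoint_union_left]
    exact ⟨hdis 0 2 (by norm_num), hdis 1 2 (by norm_num)⟩
  have hle : (ZmD L D 0 ∪ ZmD L D 1 ∪ ZmD L D 2).ncard ≤ kk G := by
    have := Set.ncard_le_ncard (Set.subset_univ (ZmD L D 0 ∪ ZmD L D 1 ∪ ZmD L D 2)) (Set.toFinite _)
    rwa [Set.ncard_univ] at this
  have h3 : 2 * autCl L * autCl L * (QG L N).ncard = 2 * (autCl L * autCl L * (QG L N).ncard) := by ring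
  omega

/-- N08 -/
theorem lowerG {G : Type*} [Group G] [Finite G] {L N : Subgroup G} [N.Normal] (hMf : Mfac L N) :
    2 * kk (G ⧸ N) + 2 * kk (AA L) + 2 * autCl L * autCl L * (QG L N).ncard +
      autCl L * (autCl L + 1) * (BB L).ncard ≤ 2 * kk G + 2 * kk (AA L ⧸ LA L) := by
  obtain ⟨D, hD, hc⟩ := exists_default (LA L)
  exact N08_of D (fun g h => (MkD_conj L D hD.conj g h).2.1) (Z0D_count hMf D hD)
    (Z1D_count hMf D hD hc) (Z2D_count hMf D hD)

end MG
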