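import Pool.Agent.helper81.MG.Defs
import Pool.Agent.helper81.MX.B08

/-!
Row N09: the kernel attached to a complement (general version).
-/

set_option autoImplicit false

namespace MG

open MX

open scoped MatrixGroups

/-- N09 -/
theorem keyG_mem {G : Type*} [Group G] [Finite G] {L N : Subgroup G} (hMf : Mfac L N)
    (hN : MinN N) (M : Subgroup G) (h1 : M ⊓ N = ⊥) (h2 : M ⊔ N = ⊤) (ht : imA L M = ⊤) :
    N ⊔ (M ⊓ CC L) ∈ QG L N := by
  obtain ⟨hq1, hq2, hq3, -⟩ := key_mem hMf hN M h1 h2 ht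
  obtain ⟨hNn, -, -⟩ := hN
  obtain ⟨hLN, hNT, hLC, hcomp, -⟩ := Mfac_basic hMf
  obtain ⟨hmul, hone, hinv, hcent, hsurj, hL1, hL2, -, hLA, him⟩ := pa_basic L
  have hCT : CC L ≤ TT L := Subgroup.centralizer_le_normalizer (L : Set G)
  have hLT : L ≤ TT L := Subgroup.le_normalizer
  have hLCT : L ⊔ CC L ≤ TT L := sup_le hLT hCT
  have hNLC : N ≤ L ⊔ CC L := by
    intro n hn
    obtain ⟨l, hl, hc⟩ := hcomp n hn
    have e : l * (l⁻¹ * n) = n := by group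
    rw [← e]
    exact Subgroup.mul_mem _ (Subgroup.mem_sup_left hl) (Subgroup.mem_sup_right hc)
  have hdec : ∀ x : G, ∃ n ∈ N, ∃ m ∈ M, n * m = x := by
    intro x
    have hx : x ∈ N ⊔ M := by rw [sup_comm, h2]; exact Subgroup.mem_top x
    exact (B08_mem N M x).1 hx
  have hpaM : ∀ a : AA L, ∃ m ∈ M, m ∈ TT L ∧ pa L m = a := by
    intro a
    exact (him M a).1 (by rw [ht]; exact Subgroup.mem_top a)
  have hinj : ∀ l ∈ L, ∀ l' ∈ L, pa L l = pa L l' → l = l' := by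
    intro l hl l' hl' h
    have h3 : pa L (l⁻¹ * l') = 1 := by
      rw [hmul _ (Subgroup.inv_mem _ (hLT hl)) _ (hLT hl'), hinv _ (hLT hl), h, inv_mul_cancel]
    have h4 := (hcent _ (Subgroup.mul_mem _ (Subgroup.inv_mem _ (hLT hl)) (hLT hl'))).1 h3
    have h5 : l⁻¹ * l' ∈ L ⊓ CC L := ⟨L.mul_mem (L.inv_mem hl) hl', h4⟩
    rw [show L ⊓ CC L = ⊥ from hLC, Subgroup.mem_bot] at h5
    exact inv_mul_eq_one.1 h5
  have hML : ∀ n ∈ N, ∀ m : G, n * m ∈ L ⊔ CC L → m ∈ L ⊔ CC L := by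
    intro n hn m hnm
    have := Subgroup.mul_mem _ (Subgroup.inv_mem _ (hNLC hn)) hnm
    rwa [inv_mul_cancel_left] at this
  have hex : ∀ x : ↥(L ⊔ CC L), ∃ l : L, ∃ n ∈ N, ∃ m ∈ M, n * m = (x : G) ∧
      pa L m = pa L (l : G) := by
    intro x
    obtain ⟨n, hn, m, hm, hx⟩ := hdec (x : G)
    have hmL : m ∈ L ⊔ CC L := hML n hn m (by rw [hx]; exact x.2)
    obtain ⟨l, hl, hlm⟩ := hL2 (pa L m) ((hLA m (hLCT hmL)).2 hmL)
    exact ⟨⟨l, hl⟩, n, hn, m, hm, hx, hlm.symm⟩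
  choose ρ hρ using hex
  have huniq : ∀ (x : ↥(L ⊔ CC L)) (n : G), n ∈ N → ∀ m ∈ M, n * m = (x : G) → ∀ l : L,
      pa L m = pa L (l : G) → ρ x = l := by
    intro x n hn m hm hx l hl
    obtain ⟨n', hn', m', hm', hx', hl'⟩ := hρ x
    have h3 : m * m'⁻¹ = n⁻¹ * n' := by
      have h4 : n * m = n' * m' := hx.trans hx'.symm
      calc m * m'⁻¹ = n⁻¹ * (n * m) * m'⁻¹ := by group
        _ = n⁻¹ * (n' * m') * m'⁻¹ := by rw [h4]
        _ = n⁻¹ * n' := by group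
    have h5 : m * m'⁻¹ ∈ M ⊓ N :=
      ⟨M.mul_mem hm (M.inv_mem hm'), by rw [h3]; exact N.mul_mem (N.inv_mem hn) hn'⟩
    rw [h1, Subgroup.mem_bot] at h5
    have h6 : m = m' := mul_inv_eq_one.1 h5
    subst h6
    exact Subtype.ext (hinj _ (ρ x).2 _ l.2 (hl'.symm.trans hl))
  let f : ↥(L ⊔ CC L) →* L := MonoidHom.mk' ρ (by
    intro x y
    obtain ⟨n, hn, m, hm, hx, hl⟩ := hρ x
    obtain ⟨n', hn', m', hm', hy, hl'⟩ := hρ y
    have hmT : m ∈ TT L := hLCT (hML n hn m (by rw [hx]; exact x.2))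
    have hmT' : m' ∈ TT L := hLCT (hML n' hn' m' (by rw [hy]; exact y.2))
    refine huniq (x * y) (n * (m * n' * m⁻¹)) (N.mul_mem hn (hNn.conj_mem n' hn' m)) (m * m')
      (M.mul_mem hm hm') ?_ _ ?_
    · rw [Subgroup.coe_mul, ← hx, ← hy]
      group
    · rw [hmul m hmT m' hmT', hl, hl', Subgroup.coe_mul, hmul _ (hLT (ρ x).2) _ (hLT (ρ y).2)])
  refine ⟨hq1, hq2, hq3, f, ?_, ?_⟩
  · intro l
    obtain ⟨m, hm, hmT, hml⟩ := hpaM (pa L (l : G))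
    have hmL : m ∈ L ⊔ CC L := (hLA m hmT).1 (by rw [hml]; exact (hL1 l l.2).1)
    exact ⟨⟨m, hmL⟩, huniq ⟨m, hmL⟩ 1 N.one_mem m hm (one_mul m) l hml⟩
  · ext x
    rw [MonoidHom.mem_ker, Subgroup.mem_subgroupOf]
    obtain ⟨n, hn, m, hm, hx, hl⟩ := hρ x
    have hmL : m ∈ L ⊔ CC L := hML n hn m (by rw [hx]; exact x.2)
    have hmT : m ∈ TT L := hLCT hmL
    constructor
    · intro hfx
      have h3 : ρ x = 1 := hfx
      rw [h3, Subgroup.coe_one, hone] at hl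
      rw [← hx]
      exact Subgroup.mul_mem _ (Subgroup.mem_sup_left hn)
        (Subgroup.mem_sup_right ⟨hm, (hcent m hmT).1 hl⟩)
    · intro hxQ
      obtain ⟨n', hn', c, hc, hx'⟩ := (B08_mem N _ (x : G)).1 hxQ
      show ρ x = 1
      refine huniq x n' hn' c hc.1 hx' 1 ?_
      rw [Subgroup.coe_one, hone]
      exact (hcent c (hCT hc.2)).2 hc.2

end MG
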