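import Pool.Agent.helper81.MG.Defs
import Pool.Agent.helper81.MX.B09

/-!
# Row N10 of project MG
-/

set_option autoImplicit false

namespace MG

open MX

theorem Pas_exists {G : Type*} [Group G] [Finite G] {L N : Subgroup G} (hMf : Mfac L N)
    (hN : MinN N) (M M' : Subgroup G) (h1 : M ⊓ N = ⊥) (h2 : M ⊔ N = ⊤) (h1' : M' ⊓ N = ⊥)
    (h2' : M' ⊔ N = ⊤) (ht : imA L M = ⊤) (ht' : imA L M' = ⊤)
    (hk : N ⊔ (M ⊓ CC L) = N ⊔ (M' ⊓ CC L)) : ∃ b : MulAut (LA L), Pas L N M M' b := by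
  have hNn : N.Normal := hN.1
  obtain ⟨ρ₀, hP0, hs0, hk0, hc0⟩ := B09_rho hMf hNn M h1 h2 ht
  obtain ⟨ρ, hP, hs, hkr, hc⟩ := B09_rho hMf hNn M' h1' h2' ht'
  have hkk : ∀ g, ρ₀ g = 1 ↔ ρ g = 1 := by
    intro g
    rw [hk0 g, hkr g, hk]
  have hcc : ∀ g, (ρ₀ g)⁻¹ * ρ g ∈ LA L := by
    intro g
    have e : (ρ₀ g)⁻¹ * ρ g = ((ρ₀ g)⁻¹ * pa L g) * ((ρ g)⁻¹ * pa L g)⁻¹ := by group
    rw [e]
    exact (LA L).mul_mem (hc0 g) ((LA L).inv_mem (hc g))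
  obtain ⟨b, hb⟩ := B09_b (LA L) ρ₀ ρ hs0 hs hkk hcc
  refine ⟨b, ?_⟩
  intro m hm m' hm' hmT hmm h h'
  have e0 : ρ₀ ⟨m, hmT⟩ = pa L m := hP0 ⟨m, hmT⟩ m hm (by
    show m⁻¹ * m ∈ N
    rw [inv_mul_cancel]
    exact N.one_mem)
  have e1 : ρ ⟨m, hmT⟩ = pa L m' := hP ⟨m, hmT⟩ m' hm' (by
    show m'⁻¹ * m ∈ N
    have h4 := N.inv_mem hmm
    rwa [mul_inv_rev, inv_inv] at h4)
  apply Subtype.ext
  show ((b ⟨pa L m, h⟩ : LA L) : AA L) = pa L m'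
  have h5 : (⟨pa L m, h⟩ : LA L) = ⟨ρ₀ ⟨m, hmT⟩, by rw [e0]; exact h⟩ := Subtype.ext e0.symm
  rw [h5, hb, e1]

end MG
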