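import Pool.Agent.helper81.MG.Defs
import Pool.Agent.helper81.MX.B09

set_option autoImplicit false

/-! Row mg:N11. -/

namespace MG

open MX

open scoped MatrixGroups

theorem N11_cent {G : Type*} [Group G] {L N : Subgroup G} (hMf : Mfac L N) :
    ∀ a : AA L, (∀ x ∈ LA L, a * x = x * a) → a = 1 := by
  have hinj := M06_inj (H := L) hMf.simple (by
    obtain ⟨a, ha, b, hb, hab⟩ := hMf.nc
    exact ⟨⟨a, ha⟩, ⟨b, hb⟩, fun h => hab (congrArg Subtype.val h)⟩)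
  intro a ha
  apply Subtype.ext
  have h3 : ∀ l : L, (a : MulAut L) l = l := by
    intro l
    apply hinj
    have h4 := ha ⟨MulAut.conj l, M06_conj_mem L l⟩ ⟨l, rfl⟩
    have h5 : (a : MulAut L) * MulAut.conj l = MulAut.conj l * (a : MulAut L) :=
      congrArg Subtype.val h4
    rw [← M06_conj_conj, h5, mul_inv_cancel_right]
  ext l
  rw [h3 l]
  rfl

/-- the automorphism `b` in terms of the homomorphisms attached to the complements -/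
theorem N11_b {G : Type*} [Group G] {L N : Subgroup G} (hMf : Mfac L N) (hNn : N.Normal)
    (M₀ M : Subgroup G) (h20 : M₀ ⊔ N = ⊤) (h2 : M ⊔ N = ⊤) (ρ₀ ρ : TT L →* AA L)
    (hP0 : ∀ g : TT L, ∀ m ∈ M₀, m⁻¹ * g ∈ N → ρ₀ g = pa L m)
    (hP : ∀ g : TT L, ∀ m ∈ M, m⁻¹ * g ∈ N → ρ g = pa L m)
    (b : MulAut (LA L)) (hb : Pas L N M₀ M b) (g : TT L) (h : ρ₀ g ∈ LA L) (h' : ρ g ∈ LA L) :
    b ⟨ρ₀ g, h⟩ = ⟨ρ g, h'⟩ := by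
  obtain ⟨hLN, hNT, _, hcomp, _⟩ := Mfac_basic hMf
  have hNT' : N ≤ TT L := hNT
  obtain ⟨m₀, hm₀, hn₀⟩ := B07_match hNn h20 (g : G)
  obtain ⟨m, hm, hn⟩ := B07_match hNn h2 (g : G)
  have e0 : ρ₀ g = pa L m₀ := hP0 g m₀ hm₀ hn₀
  have e1 : ρ g = pa L m := hP g m hm hn
  have hm₀T : m₀ ∈ TT L := by
    have e : m₀ = g * (m₀⁻¹ * g)⁻¹ := by group
    rw [e]
    exact (TT L).mul_mem g.2 ((TT L).inv_mem (hNT' hn₀))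
  have hmm : m₀⁻¹ * m ∈ N := by
    have e : m₀⁻¹ * m = (m₀⁻¹ * g) * (m⁻¹ * g)⁻¹ := by group
    rw [e]
    exact N.mul_mem hn₀ (N.inv_mem hn)
  have h3 := hb m₀ hm₀ m hm hm₀T hmm (by rw [← e0]; exact h) (by rw [← e1]; exact h')
  have e2 : (⟨ρ₀ g, h⟩ : LA L) = ⟨pa L m₀, by rw [← e0]; exact h⟩ := Subtype.ext e0
  have e3 : (⟨ρ g, h'⟩ : LA L) = ⟨pa L m, by rw [← e1]; exact h'⟩ := Subtype.ext e1
  rw [e2, e3]
  exact h3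

/-- N11 -/
theorem Pas_conj {G : Type*} [Group G] [Finite G] {L N : Subgroup G} (hMf : Mfac L N)
    (hN : MinN N) (M₀ M M' : Subgroup G) (h10 : M₀ ⊓ N = ⊥) (h20 : M₀ ⊔ N = ⊤)
    (ht0 : imA L M₀ = ⊤) (h1 : M ⊓ N = ⊥) (h2 : M ⊔ N = ⊤) (h1' : M' ⊓ N = ⊥)
    (h2' : M' ⊔ N = ⊤) (ht : imA L M = ⊤) (ht' : imA L M' = ⊤)
    (hk : N ⊔ (M₀ ⊓ CC L) = N ⊔ (M ⊓ CC L)) (hk' : N ⊔ (M₀ ⊓ CC L) = N ⊔ (M' ⊓ CC L))
    (b b' : MulAut (LA L)) (hb : Pas L N M₀ M b) (hb' : Pas L N M₀ M' b')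
    (hx : ∃ x : LA L, b' = MulAut.conj x * b) : SC M M' := by
  have hNn : N.Normal := hN.1
  have hcent := N11_cent hMf
  obtain ⟨ρ₀, hP0, hs0, hker0, hcong0⟩ := B09_rho hMf hNn M₀ h10 h20 ht0
  obtain ⟨ρ, hP, hs, hker, hcong⟩ := B09_rho hMf hNn M h1 h2 ht
  obtain ⟨ρ', hP', hs', hker', hcong'⟩ := B09_rho hMf hNn M' h1' h2' ht'
  have hcc : ∀ (σ τ : TT L →* AA L), (∀ g : TT L, (σ g)⁻¹ * pa L g ∈ LA L) →
      (∀ g : TT L, (τ g)⁻¹ * pa L g ∈ LA L) → ∀ g, σ g ∈ LA L → τ g ∈ LA L := by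
    intro σ τ h3 h4 g h5
    have e : τ g = σ g * (((σ g)⁻¹ * pa L g) * ((τ g)⁻¹ * pa L g)⁻¹) := by group
    rw [e]
    exact (LA L).mul_mem h5 ((LA L).mul_mem (h3 g) ((LA L).inv_mem (h4 g)))
  obtain ⟨x, hx⟩ := hx
  refine B09_SC hMf hN M M' h1 h2 h1' h2' ρ ρ' hP hP' x x.2
    (B09_ext (LA L) (LA_normal L) hcent ρ₀ ρ ρ' hs (hcc ρ ρ₀ hcong hcong0) x ?_)
  intro g hg
  have hg1 : ρ g ∈ LA L := hcc ρ₀ ρ hcong0 hcong g hg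
  have hg2 : ρ' g ∈ LA L := hcc ρ₀ ρ' hcong0 hcong' g hg
  have e1 := N11_b hMf hNn M₀ M h20 h2 ρ₀ ρ hP0 hP b hb g hg hg1
  have e2 := N11_b hMf hNn M₀ M' h20 h2' ρ₀ ρ' hP0 hP' b' hb' g hg hg2
  have e3 : b' ⟨ρ₀ g, hg⟩ = x * b ⟨ρ₀ g, hg⟩ * x⁻¹ := by
    rw [hx]
    rfl
  rw [e1, e2] at e3
  exact congrArg Subtype.val e3

end MG
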