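import Pool.Agent.helper81.MG.Defs

set_option autoImplicit false

/-! Row mg:N14 (helper44): the outer automorphism group of the socle. -/

namespace MG

open MX

open scoped MatrixGroups

theorem N14_outN_congr {A B : Type*} [Group A] [Group B] (e : A ≃* B) : outN A = outN B := by
  have h : (MulAut.conj : B →* MulAut B).range =
      ((MulAut.conj : A →* MulAut A).range).map (MulAut.congr e : MulAut A →* MulAut B) := by
    ext x
    constructor
    · rintro ⟨b, rfl⟩
      refine ⟨MulAut.conj (e.symm b), ⟨_, rfl⟩, ?_⟩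
      ext y
      change e (e.symm b * e.symm y * (e.symm b)⁻¹) = b * y * b⁻¹
      simp
    · rintro ⟨_, ⟨a, rfl⟩, rfl⟩
      refine ⟨e a, ?_⟩
      ext y
      change e a * y * (e a)⁻¹ = e (a * e.symm y * a⁻¹)
      simp
  unfold outN
  rw [h, Subgroup.index_map_equiv]

theorem N14_iso {G : Type*} [Group G] (L : Subgroup G) (hs : IsSimpleGroup L)
    (hnc : ∃ a ∈ L, ∃ b ∈ L, a * b ≠ b * a) : Nonempty (L ≃* LA L) := by
  have hinj : Function.Injective (MulAut.conj : L →* MulAut L) := by
    rw [← MonoidHom.ker_eq_bot_iff]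
    rcases hs.eq_bot_or_eq_top_of_normal (MulAut.conj : L →* MulAut L).ker inferInstance with h | h
    · exact h
    · exfalso
      obtain ⟨a, ha, b, hb, hab⟩ := hnc
      have h1 : (⟨a, ha⟩ : L) ∈ (MulAut.conj : L →* MulAut L).ker := by rw [h]; trivial
      rw [MonoidHom.mem_ker] at h1
      have h2 := congrArg (fun f : MulAut L => ((f ⟨b, hb⟩ : L) : G)) h1
      have h3 : a * b * a⁻¹ = b := h2
      exact hab (mul_inv_eq_iff_eq_mul.1 h3)
  have hle : (MulAut.conj : L →* MulAut L).range ≤ AA L := by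
    rintro _ ⟨l, rfl⟩
    refine ⟨⟨l, Subgroup.le_normalizer l.2⟩, ?_⟩
    ext x
    rfl
  exact ⟨(MonoidHom.ofInjective hinj).trans (Subgroup.subgroupOfEquivOfLe hle).symm⟩

/-- N14 -/
theorem outN_LA {G : Type*} [Group G] (L : Subgroup G) (hs : IsSimpleGroup L)
    (hnc : ∃ a ∈ L, ∃ b ∈ L, a * b ≠ b * a) : outN (LA L) = outN L := by
  obtain ⟨e⟩ := N14_iso L hs hnc
  exact (N14_outN_congr e).symm

end MG
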