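import Pool.Agent.helper81.MG.Defs
import Pool.Agent.helper81.MX.R01
import Pool.Agent.helper81.MX.B06
import Pool.Agent.helper81.MG.N09
import Pool.Agent.helper81.MG.N10
import Pool.Agent.helper81.MG.N11
import Pool.Agent.helper81.MG.N14

/-!
# Row N12 of project MG
-/

set_option autoImplicit false

namespace MG

open MX

open Classical in
theorem N12_main {G : Type*} [Group G] [Finite G] {L N : Subgroup G} (hMf : Mfac L N)
    (hN : MinN N)
    (h09 : ∀ (M : Subgroup G), M ⊓ N = ⊥ → M ⊔ N = ⊤ → imA L M = ⊤ → N ⊔ (M ⊓ CC L) ∈ QG L N)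
    (h11 : ∀ (M₀ M M' : Subgroup G), M₀ ⊓ N = ⊥ → M₀ ⊔ N = ⊤ → imA L M₀ = ⊤ → M ⊓ N = ⊥ →
      M ⊔ N = ⊤ → M' ⊓ N = ⊥ → M' ⊔ N = ⊤ → imA L M = ⊤ → imA L M' = ⊤ →
      N ⊔ (M₀ ⊓ CC L) = N ⊔ (M ⊓ CC L) → N ⊔ (M₀ ⊓ CC L) = N ⊔ (M' ⊓ CC L) →
      ∀ (b b' : MulAut (LA L)), Pas L N M₀ M b → Pas L N M₀ M' b' →
      (∃ x : LA L, b' = MulAut.conj x * b) → SC M M')
    (h14 : outN (LA L) = outN L) :
    (mcl G (fun M => ¬ N ≤ M ∧ imA L M = ⊤ ∧ M ⊓ N ≤ CC L)).ncard ≤ outN L * (QG L N).ncard := by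
  set P : Subgroup G → Prop := fun M => ¬ N ≤ M ∧ imA L M = ⊤ ∧ M ⊓ N ≤ CC L with hP
  set key : Subgroup G → Subgroup G := fun M => N ⊔ (M ⊓ CC L) with hkey
  set Rf : Subgroup G → Subgroup G := fun Q =>
    if h : ∃ M, (IsCoatom M ∧ P M) ∧ key M = Q then Classical.choose h else ⊥ with hRf
  have hR : ∀ H, IsCoatom H → P H → (IsCoatom (Rf (key H)) ∧ P (Rf (key H))) ∧
      key (Rf (key H)) = key H := by
    intro H hH hPH
    have hex : ∃ M, (IsCoatom M ∧ P M) ∧ key M = key H := ⟨H, ⟨hH, hPH⟩, rfl⟩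
    have h1 := Classical.choose_spec hex
    have h2 : Rf (key H) = Classical.choose hex := by
      simp only [hRf]
      rw [dif_pos hex]
    rw [h2]
    exact h1
  set bf : Subgroup G → MulAut (LA L) := fun H =>
    if h : ∃ b, Pas L N (Rf (key H)) H b then Classical.choose h else 1 with hbf
  have hb : ∀ H, IsCoatom H → P H → Pas L N (Rf (key H)) H (bf H) := by
    intro H hH hPH
    obtain ⟨⟨hc, hPc⟩, hk⟩ := hR H hH hPH
    have h1 := case2a_compl hMf hN H hH hPH.1 hPH.2.2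
    have h2 := case2a_compl hMf hN _ hc hPc.1 hPc.2.2
    have hex : ∃ b, Pas L N (Rf (key H)) H b :=
      Pas_exists hMf hN _ _ h2.1 h2.2 h1.1 h1.2 hPc.2.1 hPH.2.1 hk
    have h3 : bf H = Classical.choose hex := by
      simp only [hbf]
      rw [dif_pos hex]
    rw [h3]
    exact Classical.choose_spec hex
  have hcount : (QG L N ×ˢ (Set.univ : Set (MulAut (LA L) ⧸
      (MulAut.conj : LA L →* MulAut (LA L)).range))).ncard = outN L * (QG L N).ncard := by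
    rw [Set.ncard_prod, Set.ncard_univ, mul_comm, ← h14]
    rfl
  rw [← hcount]
  refine mcl_le P (fun H => (key H, (QuotientGroup.mk (bf H) : MulAut (LA L) ⧸
      (MulAut.conj : LA L →* MulAut (LA L)).range))) _ (Set.toFinite _) ?_ ?_
  · intro H hH hPH
    have h1 := case2a_compl hMf hN H hH hPH.1 hPH.2.2
    exact ⟨h09 H h1.1 h1.2 hPH.2.1, Set.mem_univ _⟩
  · intro H K hH hPH hK hPK he
    have hk : key H = key K := congrArg Prod.fst he
    have hbb : (QuotientGroup.mk (bf H) : MulAut (LA L) ⧸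
      (MulAut.conj : LA L →* MulAut (LA L)).range) = QuotientGroup.mk (bf K) :=
      congrArg Prod.snd he
    obtain ⟨⟨hc, hPc⟩, hk0⟩ := hR H hH hPH
    have h1 := case2a_compl hMf hN H hH hPH.1 hPH.2.2
    have h2 := case2a_compl hMf hN K hK hPK.1 hPK.2.2
    have h0 := case2a_compl hMf hN _ hc hPc.1 hPc.2.2
    have hbH := hb H hH hPH
    have hbK := hb K hK hPK
    rw [← hk] at hbK
    refine h11 (Rf (key H)) H K h0.1 h0.2 hPc.2.1 h1.1 h1.2 h2.1 h2.2 hPH.2.1 hPK.2.1 hk0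
      (hk0.trans hk) (bf H) (bf K) hbH hbK ?_
    rw [QuotientGroup.eq] at hbb
    have h3 := (conj_range_normal (LA L)).conj_mem _ hbb (bf H)
    obtain ⟨x, hx⟩ := h3
    refine ⟨x, ?_⟩
    rw [hx]
    group

/-- N12 -/
theorem case2aG_count {G : Type*} [Group G] [Finite G] {L N : Subgroup G} (hMf : Mfac L N)
    (hN : MinN N) :
    (mcl G (fun M => ¬ N ≤ M ∧ imA L M = ⊤ ∧ M ⊓ N ≤ CC L)).ncard ≤ outN L * (QG L N).ncard :=
  N12_main hMf hN (fun M h1 h2 ht => keyG_mem hMf hN M h1 h2 ht)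
    (fun M₀ M M' h10 h20 ht0 h1 h2 h1' h2' ht ht' hk hk' b b' hb hb' hx =>
      Pas_conj hMf hN M₀ M M' h10 h20 ht0 h1 h2 h1' h2' ht ht' hk hk' b b' hb hb' hx)
    (outN_LA L hMf.simple hMf.nc)

end MG
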