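import Pool.Agent.helper81.MG.Defs
import Pool.Agent.helper81.MX.R01
import Pool.Agent.helper81.MX.B15
import Pool.Agent.helper81.MX.B18
import Pool.Agent.helper81.MX.B19
import Pool.Agent.helper81.MX.B20
import Pool.Agent.helper81.MX.B17
import Pool.Agent.helper81.MG.N14

set_option autoImplicit false

namespace MG

open MX

/-- N13 from the rows B17 and N14 -/
theorem N13_of {G : Type*} [Group G] [Finite G] {L N : Subgroup G} [N.Normal]
    (hMf : Mfac L N) (hN : MinN N)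
    (h17 : ∀ M M' : Subgroup G, DT L N M → DT L N M' → ∀ S : Subgroup G, keyS L N M = S →
      keyS L N M' = S → ∀ x : G, x ∈ N → cj x (FF L N S M) = FF L N S M' → SC M M')
    (h14 : outN (LA L) = outN L) :
    (mcl G (fun M => ¬ N ≤ M ∧ imA L M = ⊤ ∧ ¬ M ⊓ N ≤ CC L)).ncard ≤ outN L * (BB L).ncard := by
  classical
  obtain ⟨-, hNT, -, -, -⟩ := Mfac_basic hMf
  have hNT : N ≤ TT L := hNT
  have hs : ∀ S : Subgroup G, ∃ s : G, S ∈ BB L → s ∈ S ∧ s ∉ TT L := by
    intro S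
    by_cases hS : S ∈ BB L
    · have h1 : TT L ⋖ S := hS
      obtain ⟨s, hs1, hs2⟩ := SetLike.exists_of_lt h1.lt
      exact ⟨s, fun _ => ⟨hs1, hs2⟩⟩
    · exact ⟨1, fun h => absurd h hS⟩
  choose sS hsS using hs
  have hb : ∀ M : Subgroup G, ∃ (m : G) (b : MulAut (LA L)), DT L N M →
      m ∈ M ⊓ keyS L N M ∧ (sS (keyS L N M))⁻¹ * m ∈ N ∧ Sg L N M m b := by
    intro M
    by_cases hD : DT L N M
    · have hcov : keyS L N M ∈ BB L := keyS_cov hMf hN hD
      obtain ⟨hs1, hs2⟩ := hsS _ hcov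
      have hcov' : TT L ⋖ keyS L N M := hcov
      have htop : M ⊔ N = ⊤ := by
        apply hD.max.2
        refine lt_of_le_of_ne le_sup_left ?_
        intro he
        exact hD.notle (he ▸ le_sup_right)
      have h1 : sS (keyS L N M) ∈ M ⊔ N := by rw [htop]; exact Subgroup.mem_top _
      rw [Subgroup.mem_sup_of_normal_right] at h1
      obtain ⟨m, hm, n, hn, hmn⟩ := h1
      have hm2 : m = sS (keyS L N M) * n⁻¹ := by rw [← hmn]; group
      have hmS : m ∈ keyS L N M := by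
        rw [hm2]
        exact Subgroup.mul_mem _ hs1 (Subgroup.inv_mem _ ((hNT.trans hcov'.le) hn))
      obtain ⟨b, hb⟩ := Sg_exists hMf hD m hm hmS
      refine ⟨m, b, fun _ => ⟨⟨hm, hmS⟩, ?_, hb⟩⟩
      rw [hm2, ← mul_assoc, inv_mul_cancel, one_mul]
      exact N.inv_mem hn
    · exact ⟨1, 1, fun h => absurd h hD⟩
  choose m b hmb using hb
  have : Finite (MulAut (LA L)) := inferInstance
  have hcard : ((BB L) ×ˢ (Set.univ : Set (MulAut (LA L) ⧸
      (MulAut.conj : LA L →* MulAut (LA L)).range))).ncard = outN L * (BB L).ncard := by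
    rw [Set.ncard_prod, Set.ncard_univ, mul_comm, ← h14]
    rfl
  rw [← hcard]
  refine mcl_le _ (fun M => (keyS L N M, (QuotientGroup.mk (b M) : MulAut (LA L) ⧸
      (MulAut.conj : LA L →* MulAut (LA L)).range))) _ (Set.toFinite _) ?_ ?_
  · rintro M hM ⟨h1, h2, h3⟩
    exact ⟨keyS_cov hMf hN ⟨hM, h1, h2, h3⟩, Set.mem_univ _⟩
  · rintro M M' hM ⟨h1, h2, h3⟩ hM' ⟨h1', h2', h3'⟩ he
    have hD : DT L N M := ⟨hM, h1, h2, h3⟩
    have hD' : DT L N M' := ⟨hM', h1', h2', h3'⟩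
    obtain ⟨he1, he2⟩ := Prod.mk.inj he
    obtain ⟨ha1, ha2, ha3⟩ := hmb M hD
    obtain ⟨hb1, hb2, hb3⟩ := hmb M' hD'
    have hcov : keyS L N M ∈ BB L := keyS_cov hMf hN hD
    have hcov' : TT L ⋖ keyS L N M := hcov
    obtain ⟨hs1, hs2⟩ := hsS _ hcov
    rw [← he1] at hb1 hb2
    have hn0 : (m M)⁻¹ * m M' ∈ N := by
      have e : (m M)⁻¹ * m M' =
          ((sS (keyS L N M))⁻¹ * m M)⁻¹ * ((sS (keyS L N M))⁻¹ * m M') := by group
      rw [e]
      exact N.mul_mem (N.inv_mem ha2) hb2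
    have hT : m M ∉ TT L := by
      intro hc
      apply hs2
      have e : sS (keyS L N M) = m M * ((sS (keyS L N M))⁻¹ * m M)⁻¹ := by group
      rw [e]
      exact Subgroup.mul_mem _ hc (Subgroup.inv_mem _ (hNT ha2))
    have hx : ∃ x : LA L, b M' = MulAut.conj x * b M := by
      rw [QuotientGroup.eq] at he2
      obtain ⟨y, hy⟩ := he2
      refine ⟨(b M) y, ?_⟩
      have e : b M' = b M * MulAut.conj y := by rw [hy]; group
      rw [e]
      ext x
      simp [MulAut.mul_apply, MulAut.conj_apply]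
    have hall := Sg_all hMf hN hD hD' (keyS L N M) rfl he1.symm hcov' (m M) (m M') ha1 hb1 hn0 hT
      (b M) (b M') ha3 hb3 hx
    obtain ⟨x, hx1, hx2⟩ := F_conj hMf hN hD hD' (keyS L N M) rfl he1.symm hall
    exact h17 M M' hD hD' (keyS L N M) rfl he1.symm x hx1 hx2

/-- N13 from the row B17 -/
theorem N13_of17 {G : Type*} [Group G] [Finite G] {L N : Subgroup G} [N.Normal]
    (hMf : Mfac L N) (hN : MinN N)
    (h17 : ∀ M M' : Subgroup G, DT L N M → DT L N M' → ∀ S : Subgroup G, keyS L N M = S →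
      keyS L N M' = S → ∀ x : G, x ∈ N → cj x (FF L N S M) = FF L N S M' → SC M M') :
    (mcl G (fun M => ¬ N ≤ M ∧ imA L M = ⊤ ∧ ¬ M ⊓ N ≤ CC L)).ncard ≤ outN L * (BB L).ncard :=
  N13_of hMf hN h17 (outN_LA L hMf.simple hMf.nc)

/-- N13 -/
theorem case2bG_count {G : Type*} [Group G] [Finite G] {L N : Subgroup G} [N.Normal]
    (hMf : Mfac L N) (hN : MinN N) :
    (mcl G (fun M => ¬ N ≤ M ∧ imA L M = ⊤ ∧ ¬ M ⊓ N ≤ CC L)).ncard ≤ outN L * (BB L).ncard :=
  N13_of17 hMf hN fun _ _ hD hD' S hS hS' x hx hF => keyS_conj hMf hN hD hD' S hS hS' x hx hF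

end MG
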