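import Pool.Agent.helper81.MG.Defs
import Pool.Agent.helper81.MG.N12
import Pool.Agent.helper81.MG.N13
import Pool.Agent.helper81.MX.B05

set_option autoImplicit false

namespace MG
open MX
open scoped MatrixGroups

theorem N15_union {G : Type*} [Group G] [Finite G] (P P₁ P₂ P₃ : Subgroup G → Prop)
    (h : ∀ M, P M → P₁ M ∨ P₂ M ∨ P₃ M) :
    (mcl G P).ncard ≤ (mcl G P₁).ncard + (mcl G P₂).ncard + (mcl G P₃).ncard := by
  have hsub : mcl G P ⊆ mcl G P₁ ∪ mcl G P₂ ∪ mcl G P₃ := by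
    rintro S ⟨H, hH, hP, rfl⟩
    rcases h H hP with h1 | h1 | h1
    · exact Or.inl (Or.inl ⟨H, hH, h1, rfl⟩)
    · exact Or.inl (Or.inr ⟨H, hH, h1, rfl⟩)
    · exact Or.inr ⟨H, hH, h1, rfl⟩
  haveI : Finite (Subgroup G) := inferInstance
  refine (Set.ncard_le_ncard hsub (Set.toFinite _)).trans ?_
  refine (Set.ncard_union_le _ _).trans ?_
  exact Nat.add_le_add_right (Set.ncard_union_le _ _) _

theorem N15_aux {G : Type*} [Group G] [Finite G] {L N : Subgroup G} [N.Normal]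
    (h5 : (mcl G (fun M => ¬ N ≤ M ∧ imA L M ≠ ⊤)).ncard ≤
      (mcl (AA L) (fun X => ¬ LA L ≤ X)).ncard)
    (h12 : (mcl G (fun M => ¬ N ≤ M ∧ imA L M = ⊤ ∧ M ⊓ N ≤ CC L)).ncard ≤
      outN L * (QG L N).ncard)
    (h13 : (mcl G (fun M => ¬ N ≤ M ∧ imA L M = ⊤ ∧ ¬ M ⊓ N ≤ CC L)).ncard ≤
      outN L * (BB L).ncard) :
    (mcl G (fun M => ¬ N ≤ M)).ncard ≤ (mcl (AA L) (fun X => ¬ LA L ≤ X)).ncard +
      outN L * (QG L N).ncard + outN L * (BB L).ncard := by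
  classical
  refine (N15_union (fun M => ¬ N ≤ M) _ _ _ ?_).trans (Nat.add_le_add (Nat.add_le_add h5 h12) h13)
  intro M hM
  by_cases h1 : imA L M = ⊤
  · by_cases h2 : M ⊓ N ≤ CC L
    · exact Or.inr (Or.inl ⟨hM, h1, h2⟩)
    · exact Or.inr (Or.inr ⟨hM, h1, h2⟩)
  · exact Or.inl ⟨hM, h1⟩

/-- N15 -/
theorem upperG {G : Type*} [Group G] [Finite G] {L N : Subgroup G} [N.Normal]
    (hMf : Mfac L N) (hN : MinN N) :
    (mcl G (fun M => ¬ N ≤ M)).ncard ≤ (mcl (AA L) (fun X => ¬ LA L ≤ X)).ncard +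
      outN L * (QG L N).ncard + outN L * (BB L).ncard :=
  N15_aux (case1_count hMf) (case2aG_count hMf hN) (case2bG_count hMf hN)

end MG
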