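import Pool.Agent.helper81.MG.Defs
import Pool.Agent.helper81.MG.N08
import Pool.Agent.helper81.MG.N15

set_option autoImplicit false

namespace MG

open MX

open scoped MatrixGroups

theorem N16_autCl_pos {G : Type*} [Group G] [Finite G] {L N : Subgroup G} (hMf : Mfac L N) :
    1 ≤ autCl L := by
  have h1 : Nontrivial L := hMf.simple.toNontrivial
  obtain ⟨x, hx⟩ := exists_ne (1 : L)
  have h2 : Nonempty (Quotient (autSetoid L)) := ⟨Quotient.mk _ ⟨x, hx⟩⟩
  exact Nat.card_pos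

theorem N16_arith {x k K q b a o m A B : ℕ} (h1 : 2 * k + 2 * A + 2 * a * a * q + a * (a + 1) * b ≤ 2 * K + 2 * B)
    (h2 : x ≤ m + o * q + o * b) (h3 : m + B ≤ A) (h4 : 2 * o ≤ a * (a + 1)) (h5 : 1 ≤ a) :
    x + k ≤ K := by
  have h6 : 2 * o * b ≤ a * (a + 1) * b := Nat.mul_le_mul_right b h4
  have h7 : a * (a + 1) ≤ 2 * a * a := by nlinarith
  have h8 : 2 * o * q ≤ 2 * a * a * q := Nat.mul_le_mul_right q (h4.trans h7)
  have h9 : 2 * (x + k) ≤ 2 * K := by
    have h10 : 2 * x ≤ 2 * m + 2 * o * q + 2 * o * b := by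
      calc 2 * x ≤ 2 * (m + o * q + o * b) := Nat.mul_le_mul_left 2 h2
        _ = 2 * m + 2 * o * q + 2 * o * b := by ring
    omega
  omega

/-- N16 -/
theorem RI_nonabelianG {G : Type*} [Group G] [Finite G] {L N : Subgroup G} [N.Normal]
    (hMf : Mfac L N) (hN : MinN N) (hO : OutB L) (hR : RI (AA L) (LA L)) :
    RI G N :=
  N16_arith (lowerG hMf) (upperG hMf hN) hR hO (N16_autCl_pos hMf)

end MG
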