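import Pool.Agent.helper81.MG.Defs
import Pool.Agent.helper81.MX.M06

set_option autoImplicit false

namespace MG

open MX

open scoped MatrixGroups

/-- N17 -/
theorem AlmS_AA {G : Type*} [Group G] (L : Subgroup G) (hs : IsSimpleGroup L)
    (hnc : ∃ a ∈ L, ∃ b ∈ L, a * b ≠ b * a) : AlmS (LA L) ∧ Nonempty (L ≃* LA L) := by
  have hnc' : ∃ a b : L, a * b ≠ b * a := by
    obtain ⟨a, ha, b, hb, hab⟩ := hnc
    exact ⟨⟨a, ha⟩, ⟨b, hb⟩, fun h => hab (congrArg Subtype.val h)⟩
  have hinj := M06_inj hs hnc'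
  have e1 : L ≃* (MulAut.conj : L →* MulAut L).range := MonoidHom.ofInjective hinj
  have e2 : LA L ≃* (MulAut.conj : L →* MulAut L).range :=
    Subgroup.subgroupOfEquivOfLe (M06_range_le L)
  have e : L ≃* LA L := e1.trans e2.symm
  refine ⟨⟨?_, ?_, ?_, ?_⟩, ⟨e⟩⟩
  · have h1 : (MulAut.conj : L →* MulAut L).range.Normal := M06_normal
    unfold LA
    exact Subgroup.Normal.subgroupOf h1 (AA L)
  · haveI := hs
    exact e.symm.isSimpleGroup
  · obtain ⟨a, b, hab⟩ := hnc'
    refine ⟨e a, (e a).2, e b, (e b).2, fun h => hab ?_⟩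
    apply e.injective
    rw [map_mul, map_mul]
    exact Subtype.ext h
  · intro a ha
    apply Subtype.ext
    have h1 : ∀ l : L, (a : MulAut L) l = l := by
      intro l
      apply hinj
      have h2 := ha ⟨MulAut.conj l, M06_conj_mem L l⟩ ⟨l, rfl⟩
      have h3 : (a : MulAut L) * MulAut.conj l = MulAut.conj l * (a : MulAut L) :=
        congrArg Subtype.val h2
      rw [← M06_conj_conj, h3, mul_inv_cancel_right]
    ext l
    rw [h1 l]
    rfl

end MG
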