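import Pool.Agent.helper81.MG.Defs

/-!
# Row N18 of project MG
-/

set_option autoImplicit false

namespace MG

open MX

theorem N18_kap {A : Type*} [Group A] (L : Subgroup A) :
    kap L = {c : ConjClasses A | ∃ x ∈ L, x ≠ 1 ∧ c = ConjClasses.mk x}.ncard := by
  unfold kap
  rw [← Nat.card_coe_set_eq]
  rfl

theorem N18_kk_le {G : Type*} [Group G] [Finite G] : kk G ≤ Nat.card G := by
  unfold kk
  exact Nat.card_le_card_of_surjective ConjClasses.mk ConjClasses.mk_surjective

theorem N18_one {A : Type*} [Group A] (L : Subgroup A) (x : A) (hx : x ∈ L) (hx1 : x ≠ 1) :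
    (1 : ConjClasses A) ≠ ConjClasses.mk x := by
  intro h
  have h1 : ConjClasses.mk (1 : A) = ConjClasses.mk x := h
  rw [ConjClasses.mk_eq_mk_iff_isConj, isConj_iff] at h1
  obtain ⟨c, hc⟩ := h1
  apply hx1
  rw [← hc]
  group

theorem N18_conj {A : Type*} [Group A] {x y : A}
    (h : ConjClasses.mk x = ConjClasses.mk y) : ∃ c : A, c * x * c⁻¹ = y := by
  rw [ConjClasses.mk_eq_mk_iff_isConj, isConj_iff] at h
  exact h

/-- N18 -/
theorem RI_of_Facts {A : Type*} [Group A] [Finite A] (L : Subgroup A) [L.Normal] (h : Facts L) :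
    RI A L := by
  have hL : L.Normal := inferInstance
  unfold RI
  have h1 := h.cnt
  have h2 := h.idx
  have h3 : kk (A ⧸ L) ≤ Nat.card (A ⧸ L) := N18_kk_le
  have h4 : 0 < Nat.card (A ⧸ L) := Nat.card_pos
  rw [N18_kap] at h1
  set T : Set (ConjClasses A) := {c | ∃ x ∈ L, x ≠ 1 ∧ c = ConjClasses.mk x} with hT
  have hTf : T.Finite := Set.toFinite T
  have huniv : kk A = (Set.univ : Set (ConjClasses A)).ncard := by
    unfold kk
    rw [Set.ncard_univ]
  have h1T : ConjClasses.mk (1 : A) ∉ T := by
    rintro ⟨x, hx, hx1, he⟩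
    obtain ⟨c, hc⟩ := N18_conj he
    apply hx1
    rw [← hc]
    group
  rcases Nat.lt_or_ge (Nat.card (A ⧸ L)) 2 with hq | hq
  · have h5 : (insert (ConjClasses.mk (1 : A)) T).ncard = T.ncard + 1 :=
      Set.ncard_insert_of_notMem h1T hTf
    have h6 : (insert (ConjClasses.mk (1 : A)) T).ncard ≤ kk A := by
      rw [huniv]
      exact Set.ncard_le_ncard (Set.subset_univ _) (Set.toFinite _)
    omega
  · have hne : ∃ a : A, a ∉ L := by
      by_contra hno
      push Not at hno
      have h7 : Nat.card (A ⧸ L) ≤ 1 := by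
        rw [Finite.card_le_one_iff_subsingleton]
        constructor
        intro x y
        obtain ⟨a, rfl⟩ := QuotientGroup.mk_surjective x
        obtain ⟨b, rfl⟩ := QuotientGroup.mk_surjective y
        rw [QuotientGroup.eq]
        exact hno _
      omega
    obtain ⟨a, ha⟩ := hne
    obtain ⟨l, hl, hd⟩ := h.dfl a
    obtain ⟨m, hm, hk⟩ := h.mrk a ha
    have hal : a * l ∉ L := fun h8 => ha (by
      have := L.mul_mem h8 (L.inv_mem hl)
      rwa [mul_inv_cancel_right] at this)
    have ham : a * m ∉ L := fun h8 => ha (by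
      have := L.mul_mem h8 (L.inv_mem hm)
      rwa [mul_inv_cancel_right] at this)
    have hsq : (a * l) * (a * l) = 1 := by
      rcases hd with h8 | h8
      · exact absurd (h8 ▸ L.one_mem) hal
      · exact h8.2
    have hsq' : (a * m) * (a * m) ≠ 1 := fun h8 => hk (Or.inr ⟨ham, h8⟩)
    have hnT : ∀ b : A, b ∉ L → ConjClasses.mk b ∉ insert (ConjClasses.mk (1 : A)) T := by
      intro b hb h8
      rcases h8 with h8 | ⟨x, hx, _, he⟩
      · obtain ⟨c, hc⟩ := N18_conj h8
        apply hb
        have e : b = c⁻¹ * 1 * c := by rw [← hc]; group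
        rw [e, mul_one, inv_mul_cancel]
        exact L.one_mem
      · obtain ⟨c, hc⟩ := N18_conj he
        apply hb
        have e : b = c⁻¹ * x * c⁻¹⁻¹ := by rw [← hc]; group
        rw [e]
        exact hL.conj_mem x hx c⁻¹
    have hab : ConjClasses.mk (a * l) ≠ ConjClasses.mk (a * m) := by
      intro h8
      obtain ⟨c, hc⟩ := N18_conj h8
      apply hsq'
      rw [← hc]
      calc c * (a * l) * c⁻¹ * (c * (a * l) * c⁻¹) = c * ((a * l) * (a * l)) * c⁻¹ := by group
        _ = 1 := by rw [hsq]; group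
    have h5 : (insert (ConjClasses.mk (1 : A)) T).ncard = T.ncard + 1 :=
      Set.ncard_insert_of_notMem h1T hTf
    have h6 : (insert (ConjClasses.mk (a * l)) (insert (ConjClasses.mk (1 : A)) T)).ncard =
        (insert (ConjClasses.mk (1 : A)) T).ncard + 1 :=
      Set.ncard_insert_of_notMem (hnT _ hal) (Set.toFinite _)
    have h7 : (insert (ConjClasses.mk (a * m)) (insert (ConjClasses.mk (a * l))
        (insert (ConjClasses.mk (1 : A)) T))).ncard =
        (insert (ConjClasses.mk (a * l)) (insert (ConjClasses.mk (1 : A)) T)).ncard + 1 := by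
      apply Set.ncard_insert_of_notMem _ (Set.toFinite _)
      intro h8
      rcases h8 with h8 | h8
      · exact hab h8.symm
      · exact hnT _ ham h8
    have h8 : (insert (ConjClasses.mk (a * m)) (insert (ConjClasses.mk (a * l))
        (insert (ConjClasses.mk (1 : A)) T))).ncard ≤ kk A := by
      rw [huniv]
      exact Set.ncard_le_ncard (Set.subset_univ _) (Set.toFinite _)
    omega

end MG
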