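import Pool.Agent.helper81.MG.Defs
import Pool.Agent.helper81.MX.AU3
import Pool.Agent.helper81.MX.S02
import Pool.Agent.helper81.MX.C08

set_option autoImplicit false

namespace MG

open MX

open scoped MatrixGroups

theorem N19_inner {p : ℕ} [Fact p.Prime] {L : Type} [Group L] (e : L ≃* PS p) (β : MulAut L)
    (k : PG p) (hk : ∀ y : L, ((e (β y) : PS p) : PG p) = k * (e y : PS p) * k⁻¹) (hm : k ∈ PS p) :
    β ∈ (MulAut.conj : L →* MulAut L).range := by
  refine ⟨e.symm ⟨k, hm⟩, ?_⟩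
  ext y
  apply e.injective
  rw [MulAut.conj_apply, map_mul, map_mul, map_inv, MulEquiv.apply_symm_apply]
  apply Subtype.ext
  rw [hk y]
  rfl

theorem N19_outN {p : ℕ} [Fact p.Prime] (hp : 5 ≤ p) {L : Type} [Group L] (e : L ≃* PS p) :
    outN L ≤ 2 := by
  unfold outN
  set R := (MulAut.conj : L →* MulAut L).range with hR
  have hidx : (PS p).index = 2 := (PS_basic hp).2.1
  have hk : ∀ β : MulAut L, ∃ k : PG p, ∀ y : L,
      ((e (β y) : PS p) : PG p) = k * (e y : PS p) * k⁻¹ := by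
    intro β
    obtain ⟨k, hk⟩ := aut_PS hp ((e.symm.trans β).trans e)
    refine ⟨k, fun y => ?_⟩
    have h := hk (e y)
    rw [← h]
    have h2 : ((e.symm.trans β).trans e : MulAut (PS p)) (e y) = e (β y) := by
      change e (β (e.symm (e y))) = e (β y)
      rw [MulEquiv.symm_apply_apply]
    rw [h2]
  have key : ∀ β γ : MulAut L, β ∉ R → γ ∉ R → β * γ ∈ R := by
    intro β γ hβ hγ
    obtain ⟨k, hk1⟩ := hk β
    obtain ⟨l, hl1⟩ := hk γ
    have h1 : k ∉ PS p := fun h => hβ (N19_inner e β k hk1 h)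
    have h2 : l ∉ PS p := fun h => hγ (N19_inner e γ l hl1 h)
    have h3 : k * l ∈ PS p := by
      rw [Subgroup.mul_mem_iff_of_index_two hidx]
      exact ⟨fun h => absurd h h1, fun h => absurd h h2⟩
    apply N19_inner e (β * γ) (k * l) _ h3
    intro y
    rw [MulAut.mul_apply, hk1, hl1]
    group
  by_cases htop : R = ⊤
  · rw [htop, Subgroup.index_top]
    omega
  · obtain ⟨a, ha⟩ : ∃ a : MulAut L, a ∉ R := by
      by_contra h
      push Not at h
      exact htop (eq_top_iff.2 (fun x _ => h x))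
    apply le_of_eq
    rw [Subgroup.index_eq_two_iff]
    refine ⟨a, fun b => ?_⟩
    by_cases hb : b ∈ R
    · right
      refine ⟨hb, fun h => ha ?_⟩
      have := R.mul_mem (R.inv_mem hb) h
      rwa [inv_mul_cancel_left] at this
    · left
      exact ⟨key b a hb ha, hb⟩

/-- N19 -/
theorem OutB_psl (L : Type) [Group L] (hL : ∃ p : ℕ, p.Prime ∧ 5 ≤ p ∧ Nonempty (L ≃* PSL(2, ZMod p))) :
    OutB L := by
  obtain ⟨p, hp, h5, ⟨e1⟩⟩ := hL
  have : Fact p.Prime := ⟨hp⟩
  obtain ⟨-, -, -, -, -, -, -, ⟨e2⟩⟩ := PS_basic (p := p) h5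
  have e : L ≃* PS p := e1.trans e2.symm
  have hout := N19_outN h5 e
  have hfG : Finite (PG p) := by
    apply Nat.finite_of_card_ne_zero
    rw [S02_card h5]
    have hp0 := hp.pos
    exact Nat.mul_ne_zero (Nat.mul_ne_zero (by omega) (by omega)) (by omega)
  have hfS : Finite (PS p) := Subtype.finite
  have hfL : Finite L := Finite.of_equiv _ e.symm.toEquiv
  obtain ⟨⟨x, -, hx⟩, ⟨y, -, hy⟩⟩ := orders_psl (G := L) ⊤
    ⟨p, hp, h5, ⟨Subgroup.topEquiv.trans e1⟩⟩
  have hx1 : x ≠ 1 := by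
    rintro rfl
    rw [orderOf_one] at hx
    omega
  have hy1 : y ≠ 1 := by
    rintro rfl
    rw [orderOf_one] at hy
    omega
  have hcl : 2 ≤ autCl L := by
    unfold autCl
    have : 1 < Nat.card (Quotient (autSetoid L)) := by
      rw [Finite.one_lt_card_iff_nontrivial]
      refine ⟨⟨Quotient.mk (autSetoid L) ⟨x, hx1⟩, Quotient.mk (autSetoid L) ⟨y, hy1⟩, ?_⟩⟩
      intro h
      obtain ⟨β, hβ⟩ := Quotient.exact h
      have h1 : orderOf (β x) = orderOf x := MulEquiv.orderOf_eq β x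
      have h2 : β x = y := hβ
      rw [h2, hx, hy] at h1
      omega
    exact this
  unfold OutB
  nlinarith

end MG
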