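import Pool.Agent.helper81.MG.G01
import Pool.Agent.helper81.MG.G03
import Pool.Agent.helper81.MG.G05
import Pool.Agent.helper81.MG.G06
import Pool.Agent.helper81.MG.G07
import Pool.Agent.helper81.MG.G08
import Pool.Agent.helper81.MG.G09
import Pool.Agent.helper81.MG.G10
import Pool.Agent.helper81.MG.G12
import Pool.Agent.helper81.MG.G13
import Pool.Agent.helper81.MG.N16
import Pool.Agent.helper81.MG.N17
import Pool.Agent.helper81.MG.N18
import Pool.Agent.helper81.MG.N19
import Pool.Agent.helper81.MX.M01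
import Pool.Agent.helper81.MX.A01
import Pool.Agent.helper81.MX.D08
import Pool.Agent.helper81.MX.W17

/-!
Assembly of the general reduction theorem (MP_8aef6e_al).
-/

set_option autoImplicit false

namespace MG

open MX

open scoped MatrixGroups

/-- The three conditions on a finite simple group. -/
structure Tame (L : Type) [Group L] : Prop where
  out : OutB L
  soc : ∀ (A : Type) [Group A] [Finite A] (M : Subgroup A) [M.Normal], AlmS M → Nonempty (L ≃* M) →
    RI A M
  mod : ∀ (A W : Type) [Group A] [Finite A] [AddCommGroup W] [Finite W] [DistribMulAction A W]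
    (M : Subgroup A), AlmS M → Nonempty (L ≃* M) → Irr A W → Fth A W →
    RI (SD A W) (SemidirectProduct.rightHom : SD A W →* A).ker

theorem autCl_congr {L L' : Type*} [Group L] [Group L'] (e : L ≃* L') : autCl L = autCl L' := by
  unfold autCl
  refine Nat.card_congr (Quotient.congr ?_ ?_)
  · exact
      { toFun := fun x => ⟨e x.1, fun h => x.2 (e.injective (by rw [h, map_one]))⟩
        invFun := fun x => ⟨e.symm x.1, fun h => x.2 (e.symm.injective (by rw [h, map_one]))⟩
        left_inv := fun x => Subtype.ext (e.symm_apply_apply x.1)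
        right_inv := fun x => Subtype.ext (e.apply_symm_apply x.1) }
  · intro x y
    constructor
    · rintro ⟨β, h⟩
      refine ⟨(e.symm.trans β).trans e, ?_⟩
      change e (β (e.symm (e x.1))) = e y.1
      rw [e.symm_apply_apply, h]
    · rintro ⟨β, h⟩
      refine ⟨(e.trans β).trans e.symm, ?_⟩
      change e.symm (β (e x.1)) = y.1
      have h' : β (e x.1) = e y.1 := h
      rw [h', e.symm_apply_apply]

theorem outN_congr {L L' : Type*} [Group L] [Group L'] (e : L ≃* L') : outN L = outN L' := by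
  unfold outN
  let f : MulAut L ≃* MulAut L' := MulAut.congr e
  have h : ((MulAut.conj : L' →* MulAut L').range) =
      ((MulAut.conj : L →* MulAut L).range).map f.toMonoidHom := by
    ext σ
    constructor
    · rintro ⟨l, rfl⟩
      refine ⟨MulAut.conj (e.symm l), ⟨e.symm l, rfl⟩, ?_⟩
      ext x
      change e (e.symm l * e.symm x * (e.symm l)⁻¹) = l * x * l⁻¹
      simp
    · rintro ⟨_, ⟨l, rfl⟩, rfl⟩
      refine ⟨e l, ?_⟩
      ext x
      change e l * x * (e l)⁻¹ = e (l * e.symm x * l⁻¹)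
      simp
  rw [h]
  exact (Subgroup.index_map_equiv _ f).symm

theorem Tame_congr {L L' : Type} [Group L] [Group L'] (e : L ≃* L') (h : Tame L) : Tame L' := by
  obtain ⟨h1, h2, h3⟩ := h
  refine ⟨?_, ?_, ?_⟩
  · unfold OutB at *
    rw [← autCl_congr e, ← outN_congr e]
    exact h1
  · rintro A _ _ M _ hM ⟨e'⟩
    exact h2 A M hM ⟨e.trans e'⟩
  · rintro A W _ _ _ _ _ M hM ⟨e'⟩ hi hf
    exact h3 A W M hM ⟨e.trans e'⟩ hi hf

theorem SInv_Tame : SInv (fun L _ => Tame L) := by
  rintro L _ L' _ ⟨e⟩ h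
  exact Tame_congr e h

theorem RI_tame (G : Type) [Group G] [Finite G] (hG : GoodS (fun L _ => Tame L) G)
    (N : Subgroup G) [N.Normal] : RI G N := by
  refine RI_allS SInv_Tame ?_ G N hG
  intro G _ _ N _ hG hN
  by_cases hc : ∀ a ∈ N, ∀ b ∈ N, a * b = b * a
  · refine RI_abelianS SInv_Tame ?_ hG N hN hc
    intro H V _ _ _ _ _ hG hi p _ hp
    refine star_allS SInv_Tame ?_ hG hi p hp
    intro H V _ _ _ _ _ hG hi hf p _ hp
    refine star_faithfulS SInv_Tame ?_ hG hi hf p hp
    intro A W _ _ _ _ _ L hL hT hi hf p _ hp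
    exact star_of_RI hi (hT.mod A W L hL ⟨MulEquiv.refl _⟩ hi hf) p hp
  · push Not at hc
    obtain ⟨a, ha, b, hb, hab⟩ := hc
    obtain ⟨L, hM⟩ := exists_Mfac N hN ⟨a, ha, b, hb, hab⟩
    have hL : Tame L := S_factor SInv_Tame hG hN hM
    obtain ⟨h1, h2⟩ := AlmS_AA L hM.simple hM.nc
    haveI : Finite (MulAut L) := by
      exact Finite.of_injective (fun e : MulAut L => (e : L → L)) (fun a b h => by
        ext x; exact congrArg Subtype.val (congrFun h x))
    exact RI_nonabelianG hM hN hL.out (hL.soc (AA L) (LA L) h1 h2)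

theorem Tame_psl (p : ℕ) (hp : p.Prime) (h5 : 5 ≤ p) : Tame PSL(2, ZMod p) := by
  refine ⟨OutB_psl _ ⟨p, hp, h5, ⟨MulEquiv.refl _⟩⟩, ?_, ?_⟩
  · rintro A _ _ M _ hM ⟨e⟩
    exact RI_of_Facts M (Facts_of_Std M ⟨hM.norm, hM.cent, p, hp, h5, ⟨e.symm⟩⟩)
  · rintro A W _ _ _ _ _ M hM ⟨e⟩ hi hf
    obtain ⟨r, hr, hr'⟩ := irr_prime hi
    haveI : Fact r.Prime := ⟨hr⟩
    exact RI_of_star hi r hr' (star_std A W M ⟨hM.norm, hM.cent, p, hp, h5, ⟨e.symm⟩⟩ hi hf r hr')

end MG
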