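import Pool.Agent.helper81.MG.Final
import Pool.Agent.helper81.MG.F01
import Pool.Agent.helper81.MG.F02
import Pool.Agent.helper81.MG.F03
import Pool.Agent.helper81.MX.Fin0
import Pool.Agent.helper81.MX.R06

/-!
Assembly of the general reduction theorem, second part (MP_8aef6e_al).
-/

set_option autoImplicit false

namespace MG

open MX

open scoped MatrixGroups

/-- The three conditions, with affine groups instead of modules. -/
structure Tam (L : Type) [Group L] : Prop where
  out : OutB L
  soc : ∀ (A : Type) [Group A] [Finite A] (M : Subgroup A) [M.Normal], AlmS M → Nonempty (L ≃* M) →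
    RI A M
  aff : ∀ (E : Type) [Group E] [Finite E] (W H : Subgroup E) [W.Normal] (M : Subgroup H), Aff W H →
    AlmS M → Nonempty (L ≃* M) → RI E W

theorem Tam.tame {L : Type} [Group L] (h : Tam L) : Tame L := by
  refine ⟨h.out, fun A _ _ M _ hM e => h.soc A M hM e, ?_⟩
  rintro A W _ _ _ _ _ M hM ⟨e⟩ hi hf
  obtain ⟨H, hH, M', hM', ⟨e'⟩⟩ := affine_of_module M hM hi hf
  haveI : Finite (SD A W) :=
    Finite.of_equiv (Multiplicative W × A) SemidirectProduct.equivProd.symm
  exact h.aff (SD A W) _ H M' hH hM' ⟨e.trans e'⟩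

theorem Tam_psl (p : ℕ) (hp : p.Prime) (h5 : 5 ≤ p) : Tam PSL(2, ZMod p) := by
  have h := Tame_psl p hp h5
  refine ⟨h.out, fun A _ _ M _ hM e => h.soc A M hM e, ?_⟩
  rintro E _ _ W H _ M hA hM ⟨e⟩
  refine RI_affine W H hA ?_
  intro V _ _ _ hi hf r _ hr
  exact star_std H V M ⟨hM.norm, hM.cent, p, hp, h5, ⟨e.symm⟩⟩ hi hf r hr

theorem Tam_congr {L L' : Type} [Group L] [Group L'] (e : L ≃* L') (h : Tam L) : Tam L' := by
  obtain ⟨h1, h2, h3⟩ := h
  refine ⟨?_, ?_, ?_⟩
  · unfold OutB at *
    rw [← autCl_congr e, ← outN_congr e]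
    exact h1
  · rintro A _ _ M _ hM ⟨e'⟩
    exact h2 A M hM ⟨e.trans e'⟩
  · rintro E _ _ W H _ M hA hM ⟨e'⟩
    exact h3 E W H M hA hM ⟨e.trans e'⟩

theorem GoodS_mono {S S' : (L : Type) → [Group L] → Prop}
    (h : ∀ (L : Type) [Group L], S L → S' L) {G : Type} [Group G] (hG : GoodS S G) :
    GoodS S' G := by
  induction hG with
  | triv G hs => exact GoodS.triv G hs
  | ext G N _ hq ih =>
    refine GoodS.ext G N ih ?_
    rcases hq with hq | ⟨h1, h2⟩
    · exact Or.inl hq
    · exact Or.inr ⟨h1, h _ h2⟩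

theorem CF_mono {S S' : (L : Type) → [Group L] → Prop}
    (h : ∀ (L : Type) [Group L], S L → S' L) {G : Type} [Group G] (hG : CF S G) : CF S' G :=
  fun H K _ h1 h2 h3 => h _ (hG H K h1 h2 h3)

theorem RI_tam (G : Type) [Group G] [Finite G] (hG : CF (fun L _ => Tam L) G)
    (N : Subgroup G) [N.Normal] : RI G N :=
  RI_tame G (goodS_of_cf SInv_Tame G (CF_mono (fun _ _ h => h.tame) hG)) N

theorem numMax_eq (G : Type) [Group G] :
    (mcl G (fun _ => True)).ncard =
      Nat.card {S : Set (Subgroup G) // ∃ H : Subgroup G, IsCoatom H ∧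
        S = Set.range (fun g : G => H.map (MulAut.conj g).toMonoidHom)} := by
  have h : mcl G (fun _ => True) =
      {S : Set (Subgroup G) | ∃ H : Subgroup G, IsCoatom H ∧
        S = Set.range (fun g : G => H.map (MulAut.conj g).toMonoidHom)} := by
    ext S
    constructor
    · rintro ⟨H, h1, _, h2⟩
      exact ⟨H, h1, h2⟩
    · rintro ⟨H, h1, h2⟩
      exact ⟨H, h1, trivial, h2⟩
  rw [h]
  rfl

/-- The relative inequality in terms of `m` and `k`. -/
theorem RI_iff {G : Type} [Group G] [Finite G] (N : Subgroup G) [N.Normal] :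
    RI G N ↔
    Nat.card {S : Set (Subgroup G) // ∃ H : Subgroup G, IsCoatom H ∧
        S = Set.range (fun g : G => H.map (MulAut.conj g).toMonoidHom)} +
      Nat.card (ConjClasses (G ⧸ N)) ≤
    Nat.card {S : Set (Subgroup (G ⧸ N)) // ∃ H : Subgroup (G ⧸ N), IsCoatom H ∧
        S = Set.range (fun g : G ⧸ N => H.map (MulAut.conj g).toMonoidHom)} +
      Nat.card (ConjClasses G) := by
  rw [← numMax_eq G, ← numMax_eq (G ⧸ N), ← mcl_split N]
  unfold RI kk
  constructor <;> intro h <;> omega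

theorem autCl_eq (L : Type) [Group L] :
    Nat.card {S : Set L // ∃ x : L, x ≠ 1 ∧ S = Set.range (fun β : MulAut L => β x)} = autCl L := by
  unfold autCl
  symm
  refine Nat.card_congr (Equiv.ofBijective
    (Quotient.lift (fun x : {x : L // x ≠ 1} =>
      (⟨Set.range (fun β : MulAut L => β x.1), x.1, x.2, rfl⟩ :
        {S : Set L // ∃ x : L, x ≠ 1 ∧ S = Set.range (fun β : MulAut L => β x)})) ?_) ⟨?_, ?_⟩)
  · rintro ⟨x, hx⟩ ⟨y, hy⟩ ⟨β, h⟩
    apply Subtype.ext
    change Set.range (fun β : MulAut L => β x) = Set.range (fun β : MulAut L => β y)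
    have h' : β x = y := h
    ext z
    constructor
    · rintro ⟨γ, rfl⟩
      refine ⟨γ * β⁻¹, ?_⟩
      change γ (β⁻¹ y) = γ x
      rw [← h']
      exact congrArg γ (β.symm_apply_apply x)
    · rintro ⟨γ, rfl⟩
      refine ⟨γ * β, ?_⟩
      change γ (β x) = γ y
      rw [h']
  · intro a b
    induction a using Quotient.inductionOn with
    | h a =>
      induction b using Quotient.inductionOn with
      | h b =>
        intro hab
        apply Quotient.sound
        have h1 : Set.range (fun β : MulAut L => β a.1) = Set.range (fun β : MulAut L => β b.1) :=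
          congrArg Subtype.val hab
        have h2 : b.1 ∈ Set.range (fun β : MulAut L => β a.1) := by
          rw [h1]; exact ⟨1, rfl⟩
        obtain ⟨β, hβ⟩ := h2
        exact ⟨β, hβ⟩
  · rintro ⟨S, x, hx, rfl⟩
    exact ⟨Quotient.mk _ ⟨x, hx⟩, rfl⟩

end MG
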