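import Pool.Agent.helper81.MG.Defs
import Pool.Agent.helper81.MX.Q02

set_option autoImplicit false

/-! Row mg:G02 (helper44): a normal subgroup of a good group is good. -/

namespace MG

open MX

open scoped MatrixGroups

theorem G02_iso {S : (L : Type) → [Group L] → Prop} (hS : SInv S) {G : Type} [Group G]
    (hG : GoodS S G) {H : Type} [Group H] (e : G ≃* H) : GoodS S H := by
  induction hG generalizing H with
  | triv G h => exact GoodS.triv H e.symm.toEquiv.subsingleton
  | ext G N hN hq ih =>
    have hn : (N.map (e : G →* H)).Normal := Subgroup.Normal.map inferInstance (e : G →* H) e.surjective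
    have h1 : GoodS S (N.map (e : G →* H)) := ih (e.subgroupMap N)
    let q : G ⧸ N ≃* H ⧸ (N.map (e : G →* H)) := QuotientGroup.congr N (N.map (e : G →* H)) e rfl
    refine GoodS.ext H (N.map (e : G →* H)) h1 ?_
    rcases hq with hq | ⟨hsim, hs⟩
    · left
      intro a b
      apply q.symm.injective
      rw [map_mul, map_mul]
      exact hq _ _
    · right
      exact ⟨q.symm.isSimpleGroup, hS _ _ ⟨q⟩ hs⟩

/-- G02 -/
theorem goodS_normal {S : (L : Type) → [Group L] → Prop} (hS : SInv S) {G : Type} [Group G]
    (hG : GoodS S G) (N : Subgroup G) [N.Normal] : GoodS S N := by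
  rename_i hNn
  revert N
  induction hG with
  | triv G h =>
    intro N _
    exact GoodS.triv N inferInstance
  | ext G K hK hq ih =>
    intro N hN
    have h1 : GoodS S (N.subgroupOf K) := ih (N.subgroupOf K)
    obtain ⟨e⟩ := Q02_inter K N
    refine GoodS.ext N (K.subgroupOf N) (G02_iso hS h1 e) ?_
    obtain ⟨f⟩ := Q02_equiv K N
    rcases hq with hq | ⟨hsim, hs⟩
    · left
      intro a b
      apply f.injective
      rw [map_mul, map_mul]
      exact Subtype.ext (hq _ _)
    · have hmn : (N.map (QuotientGroup.mk' K)).Normal := hN.map _ (QuotientGroup.mk'_surjective K)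
      rcases hsim.eq_bot_or_eq_top_of_normal _ hmn with hb | ht
      · left
        intro a b
        apply f.injective
        have : Subsingleton (N.map (QuotientGroup.mk' K)) := by
          rw [hb]; infer_instance
        exact Subsingleton.elim _ _
      · right
        have g : (N ⧸ K.subgroupOf N) ≃* (G ⧸ K) :=
          f.trans ((MulEquiv.subgroupCongr ht).trans Subgroup.topEquiv)
        exact ⟨g.isSimpleGroup, hS _ _ ⟨g.symm⟩ hs⟩

end MG
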