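import Pool.Agent.helper81.MG.Defs

set_option autoImplicit false

/-! Row mg:G11 (helper66). -/

namespace MG

open MX

open scoped MatrixGroups

section G11

variable {A W : Type*} [Group A] [AddCommGroup W] [DistribMulAction A W]

theorem G11_one {α : A → W} (hα : α ∈ Der A W) : α 1 = 0 := by
  have h := hα 1 1
  rw [mul_one, one_smul] at h
  have h2 : α 1 + 0 = α 1 + α 1 := by rw [add_zero]; exact h
  exact (add_left_cancel h2).symm

/-- the complement given by a derivation -/
def G11_M (α : A → W) (hα : α ∈ Der A W) : Subgroup (SD A W) where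
  carrier := {x | x.left = Multiplicative.ofAdd (α x.right)}
  one_mem' := by
    show (1 : SD A W).left = Multiplicative.ofAdd (α (1 : SD A W).right)
    rw [SemidirectProduct.one_left, SemidirectProduct.one_right, G11_one hα]
    rfl
  mul_mem' := by
    intro x y hx hy
    have hx' : x.left = Multiplicative.ofAdd (α x.right) := hx
    have hy' : y.left = Multiplicative.ofAdd (α y.right) := hy
    show (x * y).left = Multiplicative.ofAdd (α (x * y).right)
    rw [SemidirectProduct.mul_left, SemidirectProduct.mul_right, hx', hy', phi_apply, hα, ofAdd_add]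
  inv_mem' := by
    intro x hx
    have hx' : x.left = Multiplicative.ofAdd (α x.right) := hx
    show (x⁻¹).left = Multiplicative.ofAdd (α (x⁻¹).right)
    have h1 : α (x.right⁻¹) = - (x.right⁻¹ • α x.right) := by
      have h2 := hα x.right⁻¹ x.right
      rw [inv_mul_cancel, G11_one hα] at h2
      exact eq_neg_of_add_eq_zero_left h2.symm
    rw [SemidirectProduct.inv_left, SemidirectProduct.inv_right, hx', h1, ← ofAdd_neg, phi_apply,
      smul_neg]

theorem G11_mem {α : A → W} (hα : α ∈ Der A W) (x : SD A W) :
    x ∈ G11_M α hα ↔ x.left = Multiplicative.ofAdd (α x.right) := Iff.rfl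

/-- the element `(w, 1)` -/
def G11_e (w : W) : SD A W := SemidirectProduct.inl (Multiplicative.ofAdd w)

theorem G11_e_mem {α : A → W} (hα : α ∈ Der A W) (w : W) :
    (G11_e w : SD A W) ∈ G11_M α hα ↔ w = 0 := by
  rw [G11_mem]
  show Multiplicative.ofAdd w = Multiplicative.ofAdd (α 1) ↔ w = 0
  rw [G11_one hα]
  exact Multiplicative.ofAdd.injective.eq_iff

/-- the element `(α a, a)` -/
def G11_s (α : A → W) (a : A) : SD A W := ⟨Multiplicative.ofAdd (α a), a⟩

theorem G11_s_mem {α : A → W} (hα : α ∈ Der A W) (a : A) : G11_s α a ∈ G11_M α hα := rfl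

theorem G11_split (α : A → W) (x : SD A W) :
    x = G11_e (Multiplicative.toAdd x.left - α x.right) * G11_s α x.right := by
  apply SemidirectProduct.ext
  · rw [SemidirectProduct.mul_left]
    show x.left = Multiplicative.ofAdd (Multiplicative.toAdd x.left - α x.right) *
      phi A W (SemidirectProduct.inl (Multiplicative.ofAdd
        (Multiplicative.toAdd x.left - α x.right)) : SD A W).right (Multiplicative.ofAdd (α x.right))
    rw [SemidirectProduct.right_inl, map_one, MulAut.one_apply, ← ofAdd_add, sub_add_cancel,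
      ofAdd_toAdd]
  · rw [SemidirectProduct.mul_right]
    show x.right = (SemidirectProduct.inl (Multiplicative.ofAdd
        (Multiplicative.toAdd x.left - α x.right)) : SD A W).right * x.right
    rw [SemidirectProduct.right_inl, one_mul]

theorem G11_conj (α : A → W) (a : A) (w : W) :
    G11_s α a * G11_e w * (G11_s α a)⁻¹ = G11_e (a • w) := by
  have h1 : G11_s α a * G11_e w = G11_e (a • w) * G11_s α a := by
    apply SemidirectProduct.ext
    · rw [SemidirectProduct.mul_left, SemidirectProduct.mul_left]
      show Multiplicative.ofAdd (α a) * phi A W a (Multiplicative.ofAdd w) =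
        Multiplicative.ofAdd (a • w) * phi A W 1 (Multiplicative.ofAdd (α a))
      rw [phi_apply, map_one, MulAut.one_apply, mul_comm]
    · rw [SemidirectProduct.mul_right, SemidirectProduct.mul_right]
      show a * 1 = 1 * a
      rw [mul_one, one_mul]
  rw [h1, mul_inv_cancel_right]

theorem G11_e_ker (w : W) : (G11_e w : SD A W) ∈ (SemidirectProduct.rightHom : SD A W →* A).ker := by
  rw [MonoidHom.mem_ker]
  exact SemidirectProduct.rightHom_inl _

theorem G11_e_add (v w : W) : (G11_e (v + w) : SD A W) = G11_e v * G11_e w := by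
  unfold G11_e
  rw [ofAdd_add, map_mul]

theorem G11_coatom (hirr : Irr A W) {α : A → W} (hα : α ∈ Der A W) : IsCoatom (G11_M α hα) := by
  obtain ⟨hW, hirr⟩ := hirr
  obtain ⟨w, hw⟩ := exists_ne (0 : W)
  refine ⟨?_, ?_⟩
  · intro h
    have h1 : (G11_e w : SD A W) ∈ G11_M α hα := by rw [h]; exact Subgroup.mem_top _
    exact hw ((G11_e_mem hα w).1 h1)
  · intro K hK
    let U : AddSubgroup W :=
      { carrier := {v | (G11_e v : SD A W) ∈ K}
        zero_mem' := by
          show (G11_e 0 : SD A W) ∈ K
          exact hK.le ((G11_e_mem hα 0).2 rfl)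
        add_mem' := by
          intro a b ha hb
          show (G11_e (a + b) : SD A W) ∈ K
          rw [G11_e_add]
          exact K.mul_mem ha hb
        neg_mem' := by
          intro a ha
          show (G11_e (-a) : SD A W) ∈ K
          have h1 : (G11_e (-a) : SD A W) = (G11_e a)⁻¹ := by
            unfold G11_e
            rw [ofAdd_neg, map_inv]
          rw [h1]
          exact K.inv_mem ha }
    have hU : ∀ v, v ∈ U ↔ (G11_e v : SD A W) ∈ K := fun v => Iff.rfl
    have hst : ∀ a : A, ∀ v ∈ U, a • v ∈ U := by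
      intro a v hv
      rw [hU, ← G11_conj α a v]
      have hs : G11_s α a ∈ K := hK.le (G11_s_mem hα a)
      exact K.mul_mem (K.mul_mem hs hv) (K.inv_mem hs)
    rcases hirr U hst with h | h
    · exfalso
      obtain ⟨x, hxK, hxM⟩ := SetLike.exists_of_lt hK
      have h1 := G11_split α x
      have h2 : (G11_e (Multiplicative.toAdd x.left - α x.right) : SD A W) ∈ K := by
        have h3 : (G11_e (Multiplicative.toAdd x.left - α x.right) : SD A W) =
            x * (G11_s α x.right)⁻¹ := by
          rw [eq_mul_inv_iff_mul_eq]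
          exact h1.symm
        rw [h3]
        exact K.mul_mem hxK (K.inv_mem (hK.le (G11_s_mem hα _)))
      have h3 := (hU _).2 h2
      rw [h, AddSubgroup.mem_bot, sub_eq_zero] at h3
      apply hxM
      rw [G11_mem, ← h3, ofAdd_toAdd]
    · rw [eq_top_iff]
      intro x _
      rw [G11_split α x]
      refine K.mul_mem ?_ (hK.le (G11_s_mem hα _))
      rw [← hU, h]
      exact AddSubgroup.mem_top _

theorem G11_not_ker (hirr : Irr A W) {α : A → W} (hα : α ∈ Der A W) :
    ¬ (SemidirectProduct.rightHom : SD A W →* A).ker ≤ G11_M α hα := by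
  obtain ⟨hW, -⟩ := hirr
  obtain ⟨w, hw⟩ := exists_ne (0 : W)
  intro h
  exact hw ((G11_e_mem hα w).1 (h (G11_e_ker w)))

theorem G11_inner {α β : A → W} (hα : α ∈ Der A W) (hβ : β ∈ Der A W) (g : SD A W)
    (h : cj g (G11_M α hα) = G11_M β hβ) : -α + β ∈ Inn A W := by
  set w : W := Multiplicative.toAdd g.left - α g.right with hw
  have h1 : ∀ b : A, β b = w + (α b - b • w) := by
    intro b
    have h2 : G11_e w * G11_s α b * (G11_e w)⁻¹ ∈ G11_M β hβ := by
      rw [← h, mem_cj]
      have h3 : g = G11_e w * G11_s α g.right := G11_split α g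
      have h4 : g⁻¹ * (G11_e w * G11_s α b * (G11_e w)⁻¹) * g =
          (G11_s α g.right)⁻¹ * G11_s α b * G11_s α g.right := by
        conv_lhs => rw [h3]
        group
      rw [h4]
      exact (G11_M α hα).mul_mem ((G11_M α hα).mul_mem ((G11_M α hα).inv_mem (G11_s_mem hα _))
        (G11_s_mem hα _)) (G11_s_mem hα _)
    have h5 : G11_e w * G11_s α b * (G11_e w)⁻¹ = (⟨Multiplicative.ofAdd (w + (α b - b • w)), b⟩ : SD A W) := by
      rw [mul_inv_eq_iff_eq_mul]
      apply SemidirectProduct.ext
      · rw [SemidirectProduct.mul_left, SemidirectProduct.mul_left]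
        show Multiplicative.ofAdd w * phi A W 1 (Multiplicative.ofAdd (α b)) =
          Multiplicative.ofAdd (w + (α b - b • w)) * phi A W b (Multiplicative.ofAdd w)
        rw [phi_apply, phi_apply, one_smul, ← ofAdd_add, ← ofAdd_add]
        refine congrArg Multiplicative.ofAdd ?_
        abel
      · rw [SemidirectProduct.mul_right, SemidirectProduct.mul_right]
        show 1 * b = b * 1
        rw [mul_one, one_mul]
    rw [h5, G11_mem] at h2
    exact (Multiplicative.ofAdd.injective h2).symm
  refine ⟨-w, ?_⟩
  funext b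
  show b • (-w) - (-w) = -α b + β b
  rw [h1, smul_neg]
  abel

end G11

/-- G11 -/
theorem h1_le_mcl {A W : Type*} [Group A] [Finite A] [AddCommGroup W] [Finite W]
    [DistribMulAction A W] (hirr : Irr A W) :
    h1 A W ≤ (mcl (SD A W)
      (fun M => ¬ (SemidirectProduct.rightHom : SD A W →* A).ker ≤ M)).ncard := by
  have hfin : Finite (SD A W) := by
    refine Finite.of_injective (fun x : SD A W => (x.left, x.right)) ?_
    intro x y hxy
    have h := Prod.mk.inj hxy
    exact SemidirectProduct.ext h.1 h.2
  have hX : Finite (Set (Subgroup (SD A W))) := inferInstance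
  let X := Der A W ⧸ (Inn A W).addSubgroupOf (Der A W)
  have hcard : h1 A W = Nat.card X := rfl
  rw [hcard, ← Nat.card_coe_set_eq]
  let f : X → (mcl (SD A W)
      (fun M => ¬ (SemidirectProduct.rightHom : SD A W →* A).ker ≤ M)) := fun q =>
    ⟨Set.range (fun g : SD A W => cj g (G11_M q.out.1 q.out.2)),
      G11_M q.out.1 q.out.2, G11_coatom hirr q.out.2, G11_not_ker hirr q.out.2, rfl⟩
  refine Nat.card_le_card_of_injective f ?_
  intro q r hqr
  have h1 : Set.range (fun g : SD A W => cj g (G11_M q.out.1 q.out.2)) =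
      Set.range (fun g : SD A W => cj g (G11_M r.out.1 r.out.2)) := congrArg Subtype.val hqr
  have h2 : G11_M r.out.1 r.out.2 ∈ Set.range (fun g : SD A W => cj g (G11_M q.out.1 q.out.2)) := by
    rw [h1]
    refine ⟨1, ?_⟩
    ext x
    show x ∈ cj 1 (G11_M r.out.1 r.out.2) ↔ _
    rw [mem_cj, inv_one, one_mul, mul_one]
  obtain ⟨g, hg⟩ := h2
  have h3 := G11_inner q.out.2 r.out.2 g hg
  rw [← QuotientAddGroup.out_eq' q, ← QuotientAddGroup.out_eq' r, QuotientAddGroup.eq,
    AddSubgroup.mem_addSubgroupOf]
  exact h3

end MG
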